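import Mathlib

/-!
# Complete pairwise coprime sequences in short intervals (MP_f73150_nt)
-/

namespace H404CP

/-- `a 0 < a 1 < ... < a (l-1)` is a complete sequence in `(m, m+k]`. -/
def IsComplete (m k l : ℕ) (a : Fin l → ℕ) : Prop :=
  StrictMono a ∧ (∀ i, m < a i ∧ a i ≤ m + k) ∧
    (∀ i j, i < j → Nat.gcd (a i) (a j) = 1) ∧
    ∀ n, m < n → n ≤ m + k → ∃ j, 1 < Nat.gcd n (a j)

/-- The set of all lengths of complete sequences in intervals `(m, m+k]`, over all `m`.  Its
greatest element is `max_m F(m,k)`. -/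
def lengths (k : ℕ) : Set ℕ := {l | ∃ m a, IsComplete m k l a}

/-- pairwise coprime finite subset of `(m, m+k]` -/
def PC (m k : ℕ) (S : Finset ℕ) : Prop :=
  (∀ x ∈ S, m < x ∧ x ≤ m + k) ∧ ∀ x ∈ S, ∀ y ∈ S, x ≠ y → Nat.gcd x y = 1

lemma PC.mono {m k k' : ℕ} {S : Finset ℕ} (h : PC m k S) (hk : k ≤ k') : PC m k' S :=
  ⟨fun x hx => ⟨(h.1 x hx).1, (h.1 x hx).2.trans (by omega)⟩, h.2⟩

lemma PC.card_le_aux {m k : ℕ} {S : Finset ℕ} (h : PC m k S) : S.card ≤ k := by
  have : S ⊆ Finset.Ioc m (m + k) := fun x hx => Finset.mem_Ioc.2 (h.1 x hx)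
  simpa using Finset.card_le_card this

/-- every pairwise coprime subset extends to a complete sequence -/
lemma extend {m k : ℕ} (hm : 1 ≤ m) {S : Finset ℕ} (h : PC m k S) :
    ∃ l a, IsComplete m k l a ∧ S.card ≤ l := by
  classical
  obtain ⟨T, hT, hmax⟩ := Finset.exists_max_image
    ((Finset.Ioc m (m + k)).powerset.filter (fun T => PC m k T)) Finset.card
    ⟨S, by
      simp only [Finset.mem_filter, Finset.mem_powerset]
      exact ⟨fun x hx => Finset.mem_Ioc.2 (h.1 x hx), h⟩⟩
  simp only [Finset.mem_filter, Finset.mem_powerset] at hT hmax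
  refine ⟨T.card, T.orderEmbOfFin rfl, ⟨(T.orderEmbOfFin rfl).strictMono, ?_, ?_, ?_⟩, ?_⟩
  · intro i
    exact hT.2.1 _ (Finset.orderEmbOfFin_mem T rfl i)
  · intro i j hij
    exact hT.2.2 _ (Finset.orderEmbOfFin_mem T rfl i) _ (Finset.orderEmbOfFin_mem T rfl j)
      (fun e => hij.ne ((T.orderEmbOfFin rfl).injective e))
  · intro n hn1 hn2
    by_contra hcon
    push Not at hcon
    have hall : ∀ y ∈ T, Nat.gcd n y = 1 := by
      intro y hy
      have : y ∈ Set.range (T.orderEmbOfFin rfl) := by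
        rw [Finset.range_orderEmbOfFin]; exact hy
      obtain ⟨j, rfl⟩ := this
      have h1 := hcon j
      have h2 : 0 < Nat.gcd n (T.orderEmbOfFin rfl j) := Nat.gcd_pos_of_pos_left _ (by omega)
      omega
    have hnT : n ∉ T := by
      intro hnT
      have := hall n hnT
      rw [Nat.gcd_self] at this
      omega
    have hins : PC m k (insert n T) := by
      refine ⟨?_, ?_⟩
      · intro x hx
        rcases Finset.mem_insert.1 hx with rfl | hx
        · exact ⟨hn1, hn2⟩
        · exact hT.2.1 x hx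
      · intro x hx y hy hxy
        rcases Finset.mem_insert.1 hx with rfl | hx' <;>
          rcases Finset.mem_insert.1 hy with rfl | hy'
        · exact absurd rfl hxy
        · exact hall y hy'
        · rw [Nat.gcd_comm]; exact hall x hx'
        · exact hT.2.2 x hx' y hy' hxy
    have := hmax (insert n T) ⟨fun x hx => Finset.mem_Ioc.2 (hins.1 x hx), hins⟩
    rw [Finset.card_insert_of_notMem hnT] at this
    omega
  · exact hmax S ⟨fun x hx => Finset.mem_Ioc.2 (h.1 x hx), h⟩

lemma toPC {m k l : ℕ} {a : Fin l → ℕ} (h : IsComplete m k l a) :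
    PC m k (Finset.univ.image a) ∧ (Finset.univ.image a).card = l := by
  refine ⟨⟨?_, ?_⟩, ?_⟩
  · intro x hx
    obtain ⟨i, -, rfl⟩ := Finset.mem_image.1 hx
    exact h.2.1 i
  · intro x hx y hy hxy
    obtain ⟨i, -, rfl⟩ := Finset.mem_image.1 hx
    obtain ⟨j, -, rfl⟩ := Finset.mem_image.1 hy
    rcases lt_trichotomy i j with hij | hij | hij
    · exact h.2.2.1 i j hij
    · exact absurd (by rw [hij]) hxy
    · rw [Nat.gcd_comm]; exact h.2.2.1 j i hij
  · rw [Finset.card_image_of_injective _ h.1.injective]; simp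

/-- at most one even member, so at most `⌈k/2⌉ + 1` members -/
lemma card_le {m k : ℕ} {S : Finset ℕ} (h : PC m k S) : S.card ≤ (k + 1) / 2 + 1 := by
  classical
  have hsplit : (S.filter (fun x => x % 2 = 0)).card + (S.filter (fun x => ¬ x % 2 = 0)).card
      = S.card := Finset.card_filter_add_card_filter_not _
  have h0 : (S.filter (fun x => x % 2 = 0)).card ≤ 1 := by
    rw [Finset.card_le_one]
    intro x hx y hy
    simp only [Finset.mem_filter] at hx hy
    by_contra hxy
    have h1 := h.2 x hx.1 y hy.1 hxy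
    have h2 : 2 ∣ Nat.gcd x y := Nat.dvd_gcd (Nat.dvd_of_mod_eq_zero hx.2)
      (Nat.dvd_of_mod_eq_zero hy.2)
    rw [h1] at h2
    omega
  have h1 : (S.filter (fun x => ¬ x % 2 = 0)).card ≤ (k + 1) / 2 := by
    have hsub : (S.filter (fun x => ¬ x % 2 = 0)) ⊆
        (Finset.range ((k + 1) / 2)).image (fun i => (m / 2 + m % 2 + i) * 2 + 1) := by
      intro x hx
      simp only [Finset.mem_filter] at hx
      have := h.1 x hx.1
      refine Finset.mem_image.2 ⟨x / 2 - (m / 2 + m % 2), Finset.mem_range.2 ?_, ?_⟩ <;> omega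
    calc _ ≤ _ := Finset.card_le_card hsub
      _ ≤ _ := Finset.card_image_le
      _ = _ := by simp
  omega

lemma mem_lengths_le {k l : ℕ} (h : l ∈ lengths k) : l ≤ (k + 1) / 2 + 1 ∧ l ≤ k := by
  obtain ⟨m, a, ha⟩ := h
  obtain ⟨h1, h2⟩ := toPC ha
  have h3 := card_le h1
  have h4 := h1.card_le_aux
  omega

/-- every later offset gives a larger number, coprime to `x` -/
def chkRow (m h : ℕ) : List ℕ → Bool
  | [] => true
  | t :: L => Nat.blt h t && Nat.beq (Nat.gcd (m + h) (m + t)) 1 && chkRow m h L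

/-- Boolean check that the numbers `m + h`, `h ∈ L`, are increasing and pairwise coprime -/
def chkAll (m : ℕ) : List ℕ → Bool
  | [] => true
  | h :: L => chkRow m h L && chkAll m L

/-- Boolean check that the offsets are positive and at most `k` -/
def chkRange (k : ℕ) : List ℕ → Bool
  | [] => true
  | h :: L => Nat.blt 0 h && Nat.ble h k && chkRange k L

lemma chkRow_spec {m h : ℕ} : ∀ {L : List ℕ}, chkRow m h L = true →
    ∀ t ∈ L, h < t ∧ Nat.gcd (m + h) (m + t) = 1
  | [], _ => by simp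
  | t :: L, hL => by
    simp only [chkRow, Bool.and_eq_true, Nat.blt_eq] at hL
    obtain ⟨⟨h1, h2⟩, h3⟩ := hL
    intro u hu
    rcases List.mem_cons.1 hu with rfl | hu
    · exact ⟨h1, Nat.eq_of_beq_eq_true h2⟩
    · exact chkRow_spec h3 u hu

lemma chkAll_spec {m : ℕ} : ∀ {L : List ℕ}, chkAll m L = true →
    L.Pairwise (fun x y => x < y ∧ Nat.gcd (m + x) (m + y) = 1)
  | [], _ => List.Pairwise.nil
  | h :: L, hL => by
    simp only [chkAll, Bool.and_eq_true] at hL
    exact List.Pairwise.cons (chkRow_spec hL.1) (chkAll_spec hL.2)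

lemma chkRange_spec {k : ℕ} : ∀ {L : List ℕ}, chkRange k L = true → ∀ h ∈ L, 0 < h ∧ h ≤ k
  | [], _ => by simp
  | h :: L, hL => by
    simp only [chkRange, Bool.and_eq_true, Nat.blt_eq] at hL
    obtain ⟨⟨h1, h2⟩, h3⟩ := hL
    intro u hu
    rcases List.mem_cons.1 hu with rfl | hu
    · exact ⟨h1, Nat.le_of_ble_eq_true h2⟩
    · exact chkRange_spec h3 u hu

/-- the three checks together -/
def chk (m k : ℕ) (L : List ℕ) : Bool := Nat.blt 0 m && chkRange k L && chkAll m L

lemma of_chk {m k : ℕ} {L : List ℕ} (h : chk m k L = true) {k' : ℕ} (hk : k ≤ k') :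
    ∃ l ∈ lengths k', L.length ≤ l := by
  classical
  simp only [chk, Bool.and_eq_true, Nat.blt_eq] at h
  obtain ⟨⟨hm, hr⟩, hp⟩ := h
  have hr := chkRange_spec hr
  have hp := chkAll_spec hp
  have hnd : L.Nodup := by
    refine hp.imp ?_
    rintro x y ⟨h1, -⟩
    exact h1.ne
  have hPC : PC m k (L.toFinset.image (fun h => m + h)) := by
    refine ⟨fun x hx => ?_, ?_⟩
    · obtain ⟨h, hh, rfl⟩ := Finset.mem_image.1 hx
      have := hr h (List.mem_toFinset.1 hh)
      omega
    · intro x hx y hy hxy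
      obtain ⟨h, hh, rfl⟩ := Finset.mem_image.1 hx
      obtain ⟨h', hh', rfl⟩ := Finset.mem_image.1 hy
      have hsym : L.Pairwise (fun x y => Nat.gcd (m + x) (m + y) = 1) := hp.imp (fun h => h.2)
      have hne : h ≠ h' := fun e => hxy (by rw [e])
      rcases List.pairwise_iff_getElem.1 hsym with hs
      obtain ⟨i, hi, rfl⟩ := List.getElem_of_mem (List.mem_toFinset.1 hh)
      obtain ⟨j, hj, rfl⟩ := List.getElem_of_mem (List.mem_toFinset.1 hh')
      rcases lt_trichotomy i j with hij | hij | hij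
      · exact hs i j hi hj hij
      · subst hij; exact absurd rfl hne
      · rw [Nat.gcd_comm]; exact hs j i hj hi hij
  obtain ⟨l, a, ha, hl⟩ := extend (by omega) (hPC.mono hk)
  refine ⟨l, ⟨m, a, ha⟩, ?_⟩
  rw [Finset.card_image_of_injective _ (fun a b h => by simpa using h),
    List.toFinset_card_of_nodup hnd] at hl
  exact hl

end H404CP
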