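import Pool.Agent.H404R3.CPUpper

/-!
The finer upper bounds for `k = 83, 84, 113, 114`.
-/

namespace H404CP

open Finset

lemma card_le_sieve' {m k : ℕ} {S : Finset ℕ} (h : PC m k S) (P : Finset ℕ)
    (hP : ∀ p ∈ P, 2 ≤ p) {p : ℕ} (hpP : p ∈ P)
    (hex : ∀ x, m < x → x ≤ m + k → p ∣ x → ∃ q ∈ P, q ≠ p ∧ q ∣ x) :
    S.card + 1 ≤ ((Ioc m (m + k)).filter (fun x => ∀ p ∈ P, ¬ p ∣ x)).card + P.card := by
  classical
  have hsplit : (S.filter (fun x => ∀ p ∈ P, ¬ p ∣ x)).card
      + (S.filter (fun x => ¬ ∀ p ∈ P, ¬ p ∣ x)).card = S.card :=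
    Finset.card_filter_add_card_filter_not _
  have h1 : (S.filter (fun x => ∀ p ∈ P, ¬ p ∣ x)).card ≤
      ((Ioc m (m + k)).filter (fun x => ∀ p ∈ P, ¬ p ∣ x)).card := by
    apply Finset.card_le_card
    intro x hx
    simp only [Finset.mem_filter] at hx ⊢
    exact ⟨Finset.mem_Ioc.2 (h.1 x hx.1), hx.2⟩
  have key : ∀ x ∈ S, ∀ y ∈ S, ∀ q ∈ P, q ∣ x → q ∣ y → x = y := by
    intro x hx y hy q hq hqx hqy
    by_contra hne
    have h3 := h.2 x hx y hy hne
    have h6 := Nat.dvd_gcd hqx hqy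
    rw [h3] at h6
    have h7 := hP _ hq
    have h8 := Nat.le_of_dvd one_pos h6
    omega
  have hch : ∀ x : ℕ, ∃ p : ℕ, x ∈ S.filter (fun x => ¬ ∀ p ∈ P, ¬ p ∣ x) → p ∈ P ∧ p ∣ x := by
    intro x
    by_cases hx : x ∈ S.filter (fun x => ¬ ∀ p ∈ P, ¬ p ∣ x)
    · have := (Finset.mem_filter.1 hx).2
      push Not at this
      obtain ⟨p, hp, hpx⟩ := this
      exact ⟨p, fun _ => ⟨hp, hpx⟩⟩
    · exact ⟨0, fun hx' => absurd hx' hx⟩
  choose f hf using hch
  have hinj : Set.InjOn f (S.filter (fun x => ¬ ∀ p ∈ P, ¬ p ∣ x)) := by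
    intro x hx y hy hxy
    have hx' := (Finset.mem_filter.1 (Finset.mem_coe.1 hx)).1
    have hy' := (Finset.mem_filter.1 (Finset.mem_coe.1 hy)).1
    have h5 := (hf y hy).2
    rw [← hxy] at h5
    exact key x hx' y hy' _ (hf x hx).1 (hf x hx).2 h5
  have hlt : (S.filter (fun x => ¬ ∀ p ∈ P, ¬ p ∣ x)).card < P.card := by
    rw [← Finset.card_image_of_injOn hinj]
    apply Finset.card_lt_card
    refine ⟨fun q hq => ?_, fun hsub => ?_⟩
    · obtain ⟨x, hx, rfl⟩ := Finset.mem_image.1 hq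
      exact (hf x hx).1
    · obtain ⟨x, hx, hxp⟩ := Finset.mem_image.1 (hsub hpP)
      have hxS := (Finset.mem_filter.1 hx).1
      have hpx : p ∣ x := hxp ▸ (hf x hx).2
      obtain ⟨q, hq, hqp, hqx⟩ := hex x (h.1 x hxS).1 (h.1 x hxS).2 hpx
      obtain ⟨y, hy, hyq⟩ := Finset.mem_image.1 (hsub hq)
      have hyS := (Finset.mem_filter.1 hy).1
      have hqy : q ∣ y := hyq ▸ (hf y hy).2
      have := key x hxS y hyS q hq hqx hqy
      rw [this] at hxp
      exact hqp (hyq.symm.trans hxp)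
  omega

/-- offsets of the integers coprime to 2310 in a window -/
def R (k r : ℕ) : List ℕ := (List.range k).filter (fun h => Nat.beq (Nat.gcd (r + 1 + h) 2310) 1)

/-- bound for `k = 84` -/
def test84 (r : ℕ) : Bool :=
  Nat.ble (R 84 r).length 19 || (Nat.ble (R 84 r).length 20 &&
    [2, 3, 5, 7, 11].any (fun p => (List.range 84).all
      (fun h => !(Nat.beq (Nat.gcd (r + 1 + h) 2310) p))))

lemma test84_ok : (List.range 2310).all test84 = true := by decide +kernel

/-- bound for `k = 114` -/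
def test114 (r : ℕ) : Bool :=
  Nat.ble (R 114 r).length 25 || (List.range 13).all (fun s =>
    Nat.ble ((R 114 r).filter (fun h => !(Nat.beq ((s + 1 + h) % 13) 0))).length 25)

lemma test114_ok : (List.range 2310).all test114 = true := by decide +kernel

lemma gcd_shift (m h : ℕ) : Nat.gcd (m % 2310 + 1 + h) 2310 = Nat.gcd (m + 1 + h) 2310 := by
  apply Nat.ModEq.gcd_eq
  exact ((Nat.mod_modEq m 2310).add_right 1).add_right h

lemma cop_of {x : ℕ} (h : ∀ p ∈ ({2, 3, 5, 7, 11} : Finset ℕ), ¬ p ∣ x) :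
    Nat.gcd x 2310 = 1 := by
  have h2 := (Nat.Coprime.symm ((Nat.Prime.coprime_iff_not_dvd (by norm_num : Nat.Prime 2)).2
    (h 2 (by decide))))
  have h3 := (Nat.Coprime.symm ((Nat.Prime.coprime_iff_not_dvd (by norm_num : Nat.Prime 3)).2
    (h 3 (by decide))))
  have h5 := (Nat.Coprime.symm ((Nat.Prime.coprime_iff_not_dvd (by norm_num : Nat.Prime 5)).2
    (h 5 (by decide))))
  have h7 := (Nat.Coprime.symm ((Nat.Prime.coprime_iff_not_dvd (by norm_num : Nat.Prime 7)).2
    (h 7 (by decide))))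
  have h11 := (Nat.Coprime.symm ((Nat.Prime.coprime_iff_not_dvd (by norm_num : Nat.Prime 11)).2
    (h 11 (by decide))))
  have : Nat.Coprime x (2 * 3 * 5 * 7 * 11) :=
    (((h2.mul_right h3).mul_right h5).mul_right h7).mul_right h11
  exact this

lemma cop1 {x q : ℕ} (hq : Nat.Prime q) (h : ¬ q ∣ x) : Nat.Coprime x q :=
  Nat.Coprime.symm ((Nat.Prime.coprime_iff_not_dvd hq).2 h)

lemma exact_mask {x p : ℕ} (hp : p ∈ ({2, 3, 5, 7, 11} : Finset ℕ)) (hpx : p ∣ x)
    (hno : ∀ q ∈ ({2, 3, 5, 7, 11} : Finset ℕ), q ≠ p → ¬ q ∣ x) : Nat.gcd x 2310 = p := by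
  have n2 : Nat.Prime 2 := by norm_num
  have n3 : Nat.Prime 3 := by norm_num
  have n5 : Nat.Prime 5 := by norm_num
  have n7 : Nat.Prime 7 := by norm_num
  have n11 : Nat.Prime 11 := by norm_num
  simp only [Finset.mem_insert, Finset.mem_singleton] at hp
  rcases hp with rfl | rfl | rfl | rfl | rfl
  · have hc : Nat.Coprime x (3 * 5 * 7 * 11) :=
      (((cop1 n3 (hno 3 (by decide) (by decide))).mul_right
        (cop1 n5 (hno 5 (by decide) (by decide)))).mul_right
        (cop1 n7 (hno 7 (by decide) (by decide)))).mul_right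
        (cop1 n11 (hno 11 (by decide) (by decide)))
    have e : (2310 : ℕ) = 2 * (3 * 5 * 7 * 11) := by norm_num
    rw [e, Nat.Coprime.gcd_mul_right_cancel_right 2 hc.symm, Nat.gcd_eq_right hpx]
  · have hc : Nat.Coprime x (2 * 5 * 7 * 11) :=
      (((cop1 n2 (hno 2 (by decide) (by decide))).mul_right
        (cop1 n5 (hno 5 (by decide) (by decide)))).mul_right
        (cop1 n7 (hno 7 (by decide) (by decide)))).mul_right
        (cop1 n11 (hno 11 (by decide) (by decide)))
    have e : (2310 : ℕ) = 3 * (2 * 5 * 7 * 11) := by norm_num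
    rw [e, Nat.Coprime.gcd_mul_right_cancel_right 3 hc.symm, Nat.gcd_eq_right hpx]
  · have hc : Nat.Coprime x (2 * 3 * 7 * 11) :=
      (((cop1 n2 (hno 2 (by decide) (by decide))).mul_right
        (cop1 n3 (hno 3 (by decide) (by decide)))).mul_right
        (cop1 n7 (hno 7 (by decide) (by decide)))).mul_right
        (cop1 n11 (hno 11 (by decide) (by decide)))
    have e : (2310 : ℕ) = 5 * (2 * 3 * 7 * 11) := by norm_num
    rw [e, Nat.Coprime.gcd_mul_right_cancel_right 5 hc.symm, Nat.gcd_eq_right hpx]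
  · have hc : Nat.Coprime x (2 * 3 * 5 * 11) :=
      (((cop1 n2 (hno 2 (by decide) (by decide))).mul_right
        (cop1 n3 (hno 3 (by decide) (by decide)))).mul_right
        (cop1 n5 (hno 5 (by decide) (by decide)))).mul_right
        (cop1 n11 (hno 11 (by decide) (by decide)))
    have e : (2310 : ℕ) = 7 * (2 * 3 * 5 * 11) := by norm_num
    rw [e, Nat.Coprime.gcd_mul_right_cancel_right 7 hc.symm, Nat.gcd_eq_right hpx]
  · have hc : Nat.Coprime x (2 * 3 * 5 * 7) :=
      (((cop1 n2 (hno 2 (by decide) (by decide))).mul_right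
        (cop1 n3 (hno 3 (by decide) (by decide)))).mul_right
        (cop1 n5 (hno 5 (by decide) (by decide)))).mul_right
        (cop1 n7 (hno 7 (by decide) (by decide)))
    have e : (2310 : ℕ) = 11 * (2 * 3 * 5 * 7) := by norm_num
    rw [e, Nat.Coprime.gcd_mul_right_cancel_right 11 hc.symm, Nat.gcd_eq_right hpx]

lemma mem_R {k m x : ℕ} (h1 : m < x) (h2 : x ≤ m + k)
    (h : ∀ p ∈ ({2, 3, 5, 7, 11} : Finset ℕ), ¬ p ∣ x) : x - (m + 1) ∈ R k (m % 2310) := by
  simp only [R, List.mem_filter, List.mem_range]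
  refine ⟨by omega, ?_⟩
  rw [gcd_shift, show m + 1 + (x - (m + 1)) = x by omega, cop_of h]
  rfl

lemma upper84 {m : ℕ} {S : Finset ℕ} (h : PC m 84 S) : S.card ≤ 24 := by
  obtain ⟨P, hPe⟩ : ∃ P : Finset ℕ, P = {2, 3, 5, 7, 11} := ⟨_, rfl⟩
  have hP : ∀ p ∈ P, 2 ≤ p := by rw [hPe]; decide
  have h5 : P.card = 5 := by rw [hPe]; decide
  have hcount : ((Ioc m (m + 84)).filter (fun x => ∀ p ∈ P, ¬ p ∣ x)).card ≤
      (R 84 (m % 2310)).length := by
    have hsub : ((Ioc m (m + 84)).filter (fun x => ∀ p ∈ P, ¬ p ∣ x)) ⊆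
        (R 84 (m % 2310)).toFinset.image (fun h => m + 1 + h) := by
      intro x hx
      simp only [Finset.mem_filter, Finset.mem_Ioc] at hx
      exact Finset.mem_image.2 ⟨x - (m + 1), List.mem_toFinset.2
        (mem_R hx.1.1 hx.1.2 (by rw [← hPe]; exact hx.2)), by omega⟩
    exact ((Finset.card_le_card hsub).trans Finset.card_image_le).trans (List.toFinset_card_le _)
  have ht := List.all_eq_true.1 test84_ok (m % 2310)
    (List.mem_range.2 (Nat.mod_lt _ (by norm_num)))
  simp only [test84, Bool.or_eq_true, Bool.and_eq_true, Nat.ble_eq] at ht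
  rcases ht with ht | ⟨ht, ht2⟩
  · have h3 := card_le_sieve h P hP
    omega
  · obtain ⟨p, hp, hp2⟩ := List.any_eq_true.1 ht2
    have hp' : p ∈ ({2, 3, 5, 7, 11} : Finset ℕ) := by
      simpa using hp
    have h3 := card_le_sieve' h P hP (by rw [hPe]; exact hp') (by
      intro x hx1 hx2 hpx
      by_contra hcon
      push Not at hcon
      rw [hPe] at hcon
      have hg := exact_mask hp' hpx hcon
      have := List.all_eq_true.1 hp2 (x - (m + 1)) (List.mem_range.2 (by omega))
      rw [gcd_shift, show m + 1 + (x - (m + 1)) = x by omega, hg] at this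
      simp at this)
    omega

lemma upper114 {m : ℕ} {S : Finset ℕ} (h : PC m 114 S) : S.card ≤ 31 := by
  obtain ⟨P, hPe⟩ : ∃ P : Finset ℕ, P = {2, 3, 5, 7, 11, 13} := ⟨_, rfl⟩
  have hP : ∀ p ∈ P, 2 ≤ p := by rw [hPe]; decide
  have h5 : P.card = 6 := by rw [hPe]; decide
  have h3 := card_le_sieve h P hP
  have hcount : ((Ioc m (m + 114)).filter (fun x => ∀ p ∈ P, ¬ p ∣ x)).card ≤ 25 := by
    have hmem : ∀ x ∈ ((Ioc m (m + 114)).filter (fun x => ∀ p ∈ P, ¬ p ∣ x)),
        x - (m + 1) ∈ R 114 (m % 2310) ∧ ¬ 13 ∣ x ∧ m + 1 + (x - (m + 1)) = x := by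
      intro x hx
      simp only [Finset.mem_filter, Finset.mem_Ioc] at hx
      refine ⟨mem_R hx.1.1 hx.1.2 (fun p hp => hx.2 p ?_), hx.2 13 (by rw [hPe]; decide),
        by omega⟩
      rw [hPe]
      revert hp
      simp only [Finset.mem_insert, Finset.mem_singleton]
      tauto
    have ht := List.all_eq_true.1 test114_ok (m % 2310)
      (List.mem_range.2 (Nat.mod_lt _ (by norm_num)))
    simp only [test114, Bool.or_eq_true, Nat.ble_eq] at ht
    rcases ht with ht | ht
    · have hsub : ((Ioc m (m + 114)).filter (fun x => ∀ p ∈ P, ¬ p ∣ x)) ⊆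
          (R 114 (m % 2310)).toFinset.image (fun h => m + 1 + h) := fun x hx =>
        Finset.mem_image.2 ⟨x - (m + 1), List.mem_toFinset.2 (hmem x hx).1, (hmem x hx).2.2⟩
      exact (((Finset.card_le_card hsub).trans Finset.card_image_le).trans
        (List.toFinset_card_le _)).trans ht
    · have ht2 := List.all_eq_true.1 ht (m % 13) (List.mem_range.2 (Nat.mod_lt _ (by norm_num)))
      rw [Nat.ble_eq] at ht2
      have hsub : ((Ioc m (m + 114)).filter (fun x => ∀ p ∈ P, ¬ p ∣ x)) ⊆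
          ((R 114 (m % 2310)).filter
            (fun h => !(Nat.beq ((m % 13 + 1 + h) % 13) 0))).toFinset.image
            (fun h => m + 1 + h) := by
        intro x hx
        refine Finset.mem_image.2 ⟨x - (m + 1), List.mem_toFinset.2
          (List.mem_filter.2 ⟨(hmem x hx).1, ?_⟩), (hmem x hx).2.2⟩
        have h13 := (hmem x hx).2.1
        have hx3 := (hmem x hx).2.2
        have hne : (m % 13 + 1 + (x - (m + 1))) % 13 ≠ 0 := by omega
        cases hb : Nat.beq ((m % 13 + 1 + (x - (m + 1))) % 13) 0 with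
        | true => exact absurd (Nat.eq_of_beq_eq_true hb) hne
        | false => rfl
      exact (((Finset.card_le_card hsub).trans Finset.card_image_le).trans
        (List.toFinset_card_le _)).trans ht2
  omega

/-- the remaining values of `k ≤ 1000` for which the equality holds -/
def EqL2 : List ℕ := [83, 84, 113, 114]

lemma eq_lower2 : ∀ k ∈ EqL2, chk (Nat.factorial k) k (1 :: PL.filter (fun p => p ≤ k)) = true := by
  decide +kernel

lemma eq_len2 : ∀ k ∈ EqL2, Nat.primeCounting k + 1 =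
    (1 :: PL.filter (fun p => p ≤ k)).length := by
  decide +kernel

lemma eq_upper2 : ∀ k ∈ EqL2, ∀ l ∈ lengths k, l ≤ Nat.primeCounting k + 1 := by
  have e : ∀ k ∈ EqL2, Nat.primeCounting k + 1 = (PL.filter (fun p => p ≤ k)).length + 1 := eq_len2
  intro k hk l hl
  rw [e k hk]
  obtain ⟨m, a, ha⟩ := hl
  obtain ⟨h1, h2⟩ := toPC ha
  simp only [EqL2, List.mem_cons, List.not_mem_nil, or_false] at hk
  rcases hk with rfl | rfl | rfl | rfl
  · have := upper84 (h1.mono (by norm_num))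
    rw [h2] at this
    exact this.trans (by decide +kernel)
  · have := upper84 h1
    rw [h2] at this
    exact this.trans (by decide +kernel)
  · have := upper114 (h1.mono (by norm_num))
    rw [h2] at this
    exact this.trans (by decide +kernel)
  · have := upper114 h1
    rw [h2] at this
    exact this.trans (by decide +kernel)

theorem holds2 {k : ℕ} (hk : k ∈ EqL2) : IsGreatest (lengths k) (Nat.primeCounting k + 1) := by
  obtain ⟨l, hl, hl2⟩ := of_chk (k' := k) (eq_lower2 k hk) le_rfl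
  have h3 := eq_upper2 k hk l hl
  rw [← eq_len2 k hk] at hl2
  have h4 : l = Nat.primeCounting k + 1 := le_antisymm h3 hl2
  exact ⟨h4 ▸ hl, fun l' hl' => eq_upper2 k hk l' hl'⟩

end H404CP
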