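import Pool.Agent.H156R2.Main

/-!
# Asymptotic discrepancy of square sign matrices: assembly

The final step from the lemmas `nf_count` (few nearly flat vectors for Sylvester matrices) and
`main_exists` (random replacement of a small set of columns) of the helper files `H156R2`.
-/

set_option autoImplicit false

namespace Pool.Agent.H404R3.DiscAsm

open Finset Pool.Agent.H156R2

theorem hp_of (h : ℕ) (hh : (2:ℝ) ^ 30 ≤ 2 * (h:ℝ)) : p0 h ≤ 1 / 2 ^ 15 := by
  have h1 := p0_upper h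
  have h2 := p0_pos h
  by_contra hcon
  push Not at hcon
  have h5 : (1 / 2 ^ 15 : ℝ) ^ 2 < p0 h ^ 2 := pow_lt_pow_left₀ hcon (by positivity) (by norm_num)
  have h6 : (2:ℝ) ^ 30 * (1 / 2 ^ 15 : ℝ) ^ 2 < (2 * (h:ℝ) + 1) * p0 h ^ 2 := by
    have h7 : (2:ℝ) ^ 30 * (1 / 2 ^ 15 : ℝ) ^ 2 < (2:ℝ) ^ 30 * p0 h ^ 2 :=
      mul_lt_mul_of_pos_left h5 (by positivity)
    have h8 : (2:ℝ) ^ 30 * p0 h ^ 2 ≤ (2 * (h:ℝ) + 1) * p0 h ^ 2 :=
      mul_le_mul_of_nonneg_right (by linarith) (by positivity)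
    linarith
  have h9 : (2:ℝ) ^ 30 * (1 / 2 ^ 15 : ℝ) ^ 2 = 1 := by norm_num
  linarith

theorem asm (a n M h : ℕ) (H : Fin a → Fin a → ℤ) (hH : IsHad H a) (ha : a = 2048 * M)
    (hn : n = 4096 * M) (hna : n = a + a) (hM : 0 < M) (h1h : 1 ≤ h) (hle : 2 * h ≤ n)
    (hnh : (n:ℝ) = 2 ^ 29 * h) (hp : p0 h ≤ 1 / 2 ^ 15) :
    ∃ A : Matrix (Fin n) (Fin n) ℤ, (∀ i j, A i j = 1 ∨ A i j = -1) ∧
      ∀ x : Fin n → ℤ, (∀ j, x j = 1 ∨ x j = -1) →
        ∃ i : Fin n, (1 + 1 / 2 ^ 28) * Real.sqrt (n : ℝ) ≤ |(((Matrix.mulVec A x) i : ℤ) : ℝ)| := by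
  classical
  have hcι : Fintype.card (Fin a) = a := Fintype.card_fin _
  have hnM : (n:ℝ) = 4096 * M := by rw [hn]; push_cast; ring
  let r : Fin n ≃ Fin a ⊕ Fin a := (finCongr hna).trans finSumFinEquiv.symm
  have hcard2 : n = (n - 2 * h) + 2 * h := by omega
  let g : Fin n ≃ Fin (n - 2 * h) ⊕ Fin (2 * h) := (finCongr hcard2).trans finSumFinEquiv.symm
  obtain ⟨f, hf⟩ : ∃ f : Fin (n - 2 * h) ⊕ Fin (2 * h) ≃ Fin a ⊕ Fin a, f = g.symm.trans r :=
    ⟨_, rfl⟩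
  have hd : IsHad (dbl H) (4096 * M) := by
    have := dbl_isHad H _ hH
    have e : 2 * a = 4096 * M := by omega
    rwa [e] at this
  have hA : IsHad (fun i j => dbl H i (f j)) (4096 * M) :=
    isHad_transport (dbl H) _ hd (Equiv.refl _) f
  obtain ⟨σ, hσd⟩ : ∃ σ : ℝ, σ = Real.sqrt (n : ℝ) := ⟨_, rfl⟩
  have hσ2 : σ ^ 2 = (n : ℝ) := by rw [hσd]; exact Real.sq_sqrt (by positivity)
  have hσ : 0 < σ := by
    rw [hσd]
    apply Real.sqrt_pos.mpr
    have : 0 < n := by omega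
    exact_mod_cast this
  have hcount := nf_count M (by rw [hcι, ha]) hM H (by rw [hcι]; exact hH) σ hσ
    (by rw [hσ2, hcι, hna]; push_cast; ring)
  have hNF : (univ.filter (fun x : Fin (n - 2 * h) ⊕ Fin (2 * h) → Bool =>
      (1 - 3 / 2 ^ 14) * (4096 * M) * σ ≤ ∑ i, |∑ j, ((dbl H i (f j) : ℤ) : ℝ) * sg (x j)|)).card
      ≤ 2 ^ (3456 * M) := by
    refine le_trans ?_ hcount
    apply Finset.card_le_card_of_injOn (fun x => x ∘ f.symm)
    · intro x hx
      have hx' := (Finset.mem_filter.mp hx).2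
      refine Finset.mem_coe.mpr (Finset.mem_filter.mpr ⟨Finset.mem_univ _, ?_⟩)
      unfold NF
      have hc2 : 2 * (Fintype.card (Fin a) : ℝ) = 4096 * M := by
        rw [hcι, ha]; push_cast; ring
      rw [hc2]
      refine hx'.trans (le_of_eq ?_)
      apply Finset.sum_congr rfl
      intro i _
      congr 1
      rw [← Equiv.sum_comp f (fun j => ((dbl H i j : ℤ) : ℝ) * sg ((x ∘ f.symm) j))]
      apply Finset.sum_congr rfl
      intro j _
      rw [Function.comp_apply, Equiv.symm_apply_apply]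
    · intro x _ y _ hxy
      funext j
      have := congrFun hxy (f j)
      simpa only [Function.comp_apply, Equiv.symm_apply_apply] using this
  obtain ⟨R, hR⟩ := main_exists h M hM h1h (fun i j => dbl H i (f j)) hA
    (by rw [Fintype.card_sum, hcι, ha]; ring)
    (by rw [Fintype.card_fin]; omega) σ hσ (by rw [hσ2, hnM])
    (by rw [hσ2, hnh]; ring) hp (by convert hNF)
  refine ⟨fun i j => Sum.elim (fun b => dbl H (r i) (f (Sum.inl b)))
    (fun b => if R (r i) b then -1 else 1) (g j), ?_, ?_⟩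
  · intro i j
    have key : ∀ z : Fin (n - 2 * h) ⊕ Fin (2 * h),
        Sum.elim (fun b => dbl H (r i) (f (Sum.inl b))) (fun b => if R (r i) b then (-1:ℤ) else 1) z = 1 ∨
        Sum.elim (fun b => dbl H (r i) (f (Sum.inl b))) (fun b => if R (r i) b then (-1:ℤ) else 1) z = -1 := by
      rintro (b | b)
      · exact hA.1 (r i) (Sum.inl b)
      · simp only [Sum.elim_inr]
        split_ifs <;> simp
    exact key (g j)
  · intro x hx
    obtain ⟨i, hi⟩ := hR (fun j => decide (x (g.symm j) = -1))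
    refine ⟨r.symm i, ?_⟩
    rw [← hσd]
    refine le_of_lt (lt_of_lt_of_eq hi ?_)
    congr 1
    have hsg : ∀ j, sg (decide (x (g.symm j) = -1)) = (x (g.symm j) : ℝ) := by
      intro j
      rcases hx (g.symm j) with h1 | h1 <;> rw [h1] <;> simp [sg]
    unfold cc Matrix.mulVec dotProduct
    rw [← Equiv.sum_comp g.symm]
    push_cast
    rw [Fintype.sum_sum_type]
    congr 1
    · apply Finset.sum_congr rfl
      intro j _
      simp only [Equiv.apply_symm_apply, Sum.elim_inl]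
      rw [hsg]
    · apply Finset.sum_congr rfl
      intro j _
      simp only [Equiv.apply_symm_apply, Sum.elim_inr]
      rw [hsg]
      congr 1
      unfold sg
      split_ifs <;> simp

theorem final :
    ∃ c : ℝ, 1 < c ∧ ∀ N : ℕ, ∃ n : ℕ, N ≤ n ∧
      ∃ A : Matrix (Fin n) (Fin n) ℤ, (∀ i j, A i j = 1 ∨ A i j = -1) ∧
        ∀ x : Fin n → ℤ, (∀ j, x j = 1 ∨ x j = -1) →
          ∃ i : Fin n, c * Real.sqrt (n : ℝ) ≤ |(((Matrix.mulVec A x) i : ℤ) : ℝ)| := by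
  refine ⟨1 + 1 / 2 ^ 28, by norm_num, fun N => ⟨2 ^ (N + 60), ?_, ?_⟩⟩
  · exact (Nat.lt_two_pow_self).le.trans (Nat.pow_le_pow_right (by norm_num) (by omega))
  obtain ⟨H, hH⟩ := exists_had (N + 59)
  have e1 : (2:ℕ) ^ (N + 59) = 2048 * 2 ^ (N + 48) := by
    rw [show N + 59 = 11 + (N + 48) by ring, pow_add]; norm_num
  have e2 : (2:ℕ) ^ (N + 60) = 4096 * 2 ^ (N + 48) := by
    rw [show N + 60 = 12 + (N + 48) by ring, pow_add]; norm_num
  have e3 : (2:ℕ) ^ (N + 60) = 2 ^ 29 * 2 ^ (N + 31) := by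
    rw [show N + 60 = 29 + (N + 31) by ring, pow_add]
  have e4 : (2:ℕ) ^ (N + 60) = 2 ^ (N + 59) + 2 ^ (N + 59) := by
    rw [show N + 60 = (N + 59) + 1 by ring, pow_succ]; ring
  have e5 : 2 * 2 ^ (N + 31) ≤ (2:ℕ) ^ (N + 60) := by
    rw [← pow_succ']
    exact Nat.pow_le_pow_right (by norm_num) (by omega)
  have e6 : (2:ℝ) ^ 30 ≤ 2 * ((2 ^ (N + 31) : ℕ) : ℝ) := by
    have : (2:ℕ) ^ 30 ≤ 2 * 2 ^ (N + 31) := by
      rw [← pow_succ']
      exact Nat.pow_le_pow_right (by norm_num) (by omega)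
    exact_mod_cast this
  exact asm (2 ^ (N + 59)) (2 ^ (N + 60)) (2 ^ (N + 48)) (2 ^ (N + 31)) H hH e1 e2 e4
    (by positivity) Nat.one_le_two_pow e5 (by exact_mod_cast e3) (hp_of _ e6)

end Pool.Agent.H404R3.DiscAsm
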