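import Pool.Agent.H404R3.PolyAsym

/-!
# The partition function is of order `q ^ (k ^ 2)` at half-perimeter `2 k`, for every `q > 1`
-/

namespace H404SAP

open Finset Filter Topology

set_option linter.unusedSectionVars false

theorem Z_all {q : ℝ} (hq : 1 < q) : ∃ K : ℝ, 0 < K ∧ ∀ᶠ k : ℕ in atTop, 1 ≤ k →
    ∀ S : Finset (ZMod (2 * (2 * k)) → ℤ × ℤ), (∀ f ∈ S, Good f) →
      ∑ f ∈ S, q ^ area f ≤ K * q ^ (k ^ 2) := by
  classical
  have hq0 : 0 < q := by linarith
  have hq1 : 1 ≤ q := hq.le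
  have hw0 : 0 < q⁻¹ := inv_pos.2 hq0
  have hw1 : q⁻¹ < 1 := inv_lt_one_of_one_lt₀ hq
  obtain ⟨D0', hD0'⟩ := (tendsto_pow_atTop_atTop_of_one_lt hq).eventually_ge_atTop 256 |>.exists
  obtain ⟨D0, hD0pos, hD0⟩ : ∃ D0 : ℕ, 1 ≤ D0 ∧ 256 ≤ q ^ D0 :=
    ⟨D0' + 1, by omega, by rw [pow_succ]; nlinarith [pow_pos hq0 D0']⟩
  set G : ℝ := ∑' d : ℕ, gg d * (q⁻¹) ^ d with hG
  have hG0 : 0 ≤ G := tsum_nonneg (fun d => mul_nonneg (gg_nonneg d) (pow_nonneg hw0.le _))
  have hK1 : 0 < 2 / (1 - q⁻¹) := by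
    apply div_pos (by norm_num); linarith
  set r : ℝ := √q with hr
  have hr2 : r ^ 2 = q := Real.sq_sqrt hq0.le
  have hr1 : 1 < r := by
    rw [hr, Real.lt_sqrt (by norm_num)]; linarith
  set E := 2 * D0 with hE
  set c := 2 + (2 * E + 3) * (4 * D0 + 6 * E + 1) with hc
  have hc4 : 4 ≤ c := by
    rw [hc]
    nlinarith
  refine ⟨G * (2 / (1 - q⁻¹)) + 2, by positivity, ?_⟩
  filter_upwards [sub_exp c (by omega) hr1] with k hk hk1 S hS
  have hNZ : NeZero (2 * (2 * k)) := ⟨by omega⟩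
  have h3 : 3 ≤ 2 * (2 * k) := by omega
  have hpos : ∀ f : ZMod (2 * (2 * k)) → ℤ × ℤ, 0 ≤ q ^ area f := fun f => pow_nonneg hq0.le _
  let FA : ℕ → Finset (ZMod (2 * (2 * k)) → ℤ × ℤ) := fun A =>
    S.filter (fun f => 1 ≤ A ∧ A ≤ 2 * k ∧ ∃ y0, Box f A (2 * k - A) y0)
  let S0 := (range (2 * k + 1)).biUnion FA
  have hS0 : ∑ f ∈ S0, q ^ area f ≤ G * (2 / (1 - q⁻¹)) * q ^ (k ^ 2) := by
    calc ∑ f ∈ S0, q ^ area f ≤ ∑ A ∈ range (2 * k + 1), ∑ f ∈ FA A, q ^ area f :=
          sum_biUnion_le _ _ _ hpos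
      _ ≤ ∑ A ∈ range (2 * k + 1), G * q ^ (A * (2 * k - A)) := by
          apply Finset.sum_le_sum
          intro A hA
          by_cases hne : (FA A).Nonempty
          · obtain ⟨f, hf⟩ := hne
            have hf2 := (Finset.mem_filter.1 hf).2
            apply FA_bound' h3 hf2.1 (B := 2 * k - A) (by have := hf2.2.1; omega) hq
            intro g hg
            have hg2 := Finset.mem_filter.1 hg
            exact ⟨hS g hg2.1, hg2.2.2.2⟩
          · rw [Finset.not_nonempty_iff_eq_empty] at hne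
            rw [hne, Finset.sum_empty]
            positivity
      _ = G * ∑ A ∈ range (2 * k + 1), q ^ (A * (2 * k - A)) := by rw [Finset.mul_sum]
      _ ≤ G * ((2 / (1 - q⁻¹)) * q ^ (k ^ 2)) :=
          mul_le_mul_of_nonneg_left (width_sum' k hq) hG0
      _ = G * (2 / (1 - q⁻¹)) * q ^ (k ^ 2) := by ring
  let S1 := (S \ S0).filter (fun f => area f + D0 * k ≤ k ^ 2)
  let S2 := (S \ S0).filter (fun f => ¬ area f + D0 * k ≤ k ^ 2)
  have hS1 : ∑ f ∈ S1, q ^ area f ≤ q ^ (k ^ 2) := by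
    have hcard : ((S1.card : ℕ) : ℝ) ≤ 256 ^ k := by
      have h1 : S1.card ≤ 4 ^ (2 * (2 * k)) := by
        apply card_loops
        intro f hf
        have := hS f (Finset.mem_sdiff.1 (Finset.mem_filter.1 hf).1).1
        exact ⟨this.step, this.f0⟩
      have h2 : (4 : ℕ) ^ (2 * (2 * k)) = 256 ^ k := by
        rw [← mul_assoc, pow_mul]; norm_num
      rw [h2] at h1
      exact_mod_cast h1
    have hq256 : (256 : ℝ) ^ k ≤ q ^ (D0 * k) := by
      rw [pow_mul]
      exact pow_le_pow_left₀ (by norm_num) hD0 k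
    have hqD : 0 < q ^ (D0 * k) := pow_pos hq0 _
    have hsum : q ^ (D0 * k) * ∑ f ∈ S1, q ^ area f ≤ q ^ (D0 * k) * q ^ (k ^ 2) := by
      rw [Finset.mul_sum]
      calc ∑ f ∈ S1, q ^ (D0 * k) * q ^ area f ≤ ∑ _f ∈ S1, q ^ (k ^ 2) := by
            apply Finset.sum_le_sum
            intro f hf
            rw [← pow_add]
            apply pow_le_pow_right₀ hq1
            have := (Finset.mem_filter.1 hf).2
            omega
        _ = (S1.card : ℝ) * q ^ (k ^ 2) := by rw [Finset.sum_const, nsmul_eq_mul]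
        _ ≤ q ^ (D0 * k) * q ^ (k ^ 2) :=
            mul_le_mul_of_nonneg_right (hcard.trans hq256) (pow_nonneg hq0.le _)
    exact le_of_mul_le_mul_left hsum hqD
  -- the remaining polygons
  have hS2 : ∑ f ∈ S2, q ^ area f ≤ q ^ (k ^ 2) := by
    have hbox : ∀ f ∈ S2, ∃ A B : ℕ, ∃ y0 : ℤ, 1 ≤ A ∧ Box f A B y0 ∧ A + B + 1 ≤ 2 * k ∧
        2 * k ≤ A + B + E ∧ (Mis f A B y0).card ≤ D0 * k ∧ 2 * area f + k ≤ 2 * k ^ 2 := by
      intro f hf
      have hf' := Finset.mem_filter.1 hf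
      have hf1 := Finset.mem_sdiff.1 hf'.1
      have hg := hS f hf1.1
      obtain ⟨A, B, y0, hA, hb⟩ := hg.exists_box
      have h1 := area_add_mis hg.step hb
      have h2 := (two_mul_le hg.step hb.hx hb.hy hb.hx0 hb.hx1 hb.hy0 hb.hy1).1
      have h4 : A + B ≠ 2 * k := by
        intro he
        apply hf1.2
        refine Finset.mem_biUnion.2 ⟨A, Finset.mem_range.2 (by omega), ?_⟩
        refine Finset.mem_filter.2 ⟨hf1.1, hA, by omega, y0, ?_⟩
        have : 2 * k - A = B := by omega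
        rw [this]
        exact hb
      obtain ⟨e, he⟩ : ∃ e, A + B + e = 2 * k := ⟨2 * k - (A + B), by omega⟩
      have he1 : 1 ≤ e := by omega
      have hAB : 2 * (A * B) + k * e ≤ 2 * k ^ 2 := by
        have h5 : 4 * (A * B) ≤ (A + B) ^ 2 := by
          zify; nlinarith [sq_nonneg ((A : ℤ) - B)]
        have h6 : (A + B) ^ 2 + 2 * (k * e) ≤ 4 * k ^ 2 := by
          have hek : e ≤ 2 * k := by omega
          obtain ⟨t, ht⟩ : ∃ t, t = A + B := ⟨_, rfl⟩
          rw [← ht] at he ⊢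
          have : 4 * k ^ 2 = (t + e) ^ 2 := by rw [he]; ring
          rw [this]
          have h7 : 2 * (k * e) = (t + e) * e := by rw [he]; ring
          rw [h7]
          nlinarith
        omega
      have hfD := hf'.2
      have hke : k ≤ k * e := Nat.le_mul_of_pos_right k he1
      refine ⟨A, B, y0, hA, hb, by omega, ?_, by omega, by omega⟩
      have h8 : k * e < 2 * (D0 * k) := by omega
      have h9 : e < 2 * D0 := by
        by_contra hcon
        push Not at hcon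
        have : k * (2 * D0) ≤ k * e := Nat.mul_le_mul_left k hcon
        have h10 : k * (2 * D0) = 2 * (D0 * k) := by ring
        omega
      omega
    -- counting
    have hcount : (S2.card : ℝ) ≤ r ^ k := by
      let N := ((4 * k + 2) ^ (2 * E + 3)) ^ (2 * Nat.sqrt (2 * (D0 * k)) + 6 * E + 1)
      let FB : ℕ × ℕ → Finset (ZMod (2 * (2 * k)) → ℤ × ℤ) := fun p =>
        S2.filter (fun f => 1 ≤ p.1 ∧ p.1 + p.2 ≤ 2 * k ∧ 2 * k ≤ p.1 + p.2 + E ∧
          ∃ y0, Box f p.1 p.2 y0 ∧ (Mis f p.1 p.2 y0).card ≤ D0 * k)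
      have hcov : S2 ⊆ (range (2 * k + 1) ×ˢ range (2 * k + 1)).biUnion FB := by
        intro f hf
        obtain ⟨A, B, y0, hA, hb, h1, h2, h4, -⟩ := hbox f hf
        refine Finset.mem_biUnion.2 ⟨(A, B), ?_, ?_⟩
        · rw [Finset.mem_product, Finset.mem_range, Finset.mem_range]
          constructor <;> simp only <;> omega
        · exact Finset.mem_filter.2 ⟨hf, hA, by simp only; omega, h2, y0, hb, h4⟩
      have hFB : ∀ p, (FB p).card ≤ N := by
        intro p
        by_cases hne : (FB p).Nonempty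
        · obtain ⟨f, hf⟩ := hne
          have hf2 := (Finset.mem_filter.1 hf).2
          obtain ⟨e, he⟩ : ∃ e, p.1 + p.2 + e = 2 * k := ⟨2 * k - (p.1 + p.2), by omega⟩
          apply count1 hk1 (A := p.1) (B := p.2) (e := e) hf2.1 (by omega) (by omega)
          intro g hg
          have hg2 := Finset.mem_filter.1 hg
          have hgS := hS g (Finset.mem_sdiff.1 (Finset.mem_filter.1 hg2.1).1).1
          exact ⟨hgS, hg2.2.2.2.2⟩
        · rw [Finset.not_nonempty_iff_eq_empty] at hne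
          rw [hne, Finset.card_empty]
          exact Nat.zero_le _
      have h1 : S2.card ≤ (2 * k + 1) ^ 2 * N := by
        refine (Finset.card_le_card hcov).trans (Finset.card_biUnion_le.trans ?_)
        refine (Finset.sum_le_sum (fun p _ => hFB p)).trans ?_
        rw [Finset.sum_const, Finset.card_product, Finset.card_range, smul_eq_mul]
        exact le_of_eq (by ring)
      have h2 : (2 * k + 1) ^ 2 * N ≤ (c * (k + 1)) ^ (c * (Nat.sqrt k + 1)) := by
        have e1 : 2 * (D0 * k) = (2 * D0) * k := by ring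
        have hsq := sqrt_mul_le (2 * D0) k (by omega)
        rw [← e1] at hsq
        set s := Nat.sqrt k with hs
        have g1 : (2 * k + 1) ^ 2 ≤ (c * (k + 1)) ^ (2 * (s + 1)) := by
          calc (2 * k + 1) ^ 2 ≤ (c * (k + 1)) ^ 2 := Nat.pow_le_pow_left (by nlinarith) 2
            _ ≤ (c * (k + 1)) ^ (2 * (s + 1)) :=
              Nat.pow_le_pow_right (Nat.mul_pos (by omega) (by omega)) (by omega)
        have g2 : N ≤ (c * (k + 1)) ^ ((2 * E + 3) * (4 * D0 + 6 * E + 1) * (s + 1)) := by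
          show ((4 * k + 2) ^ (2 * E + 3)) ^ (2 * Nat.sqrt (2 * (D0 * k)) + 6 * E + 1) ≤ _
          rw [← pow_mul]
          calc (4 * k + 2) ^ ((2 * E + 3) * (2 * Nat.sqrt (2 * (D0 * k)) + 6 * E + 1))
              ≤ (c * (k + 1)) ^ ((2 * E + 3) * (2 * Nat.sqrt (2 * (D0 * k)) + 6 * E + 1)) :=
                Nat.pow_le_pow_left (by nlinarith) _
            _ ≤ (c * (k + 1)) ^ ((2 * E + 3) * (4 * D0 + 6 * E + 1) * (s + 1)) := by
                apply Nat.pow_le_pow_right (Nat.mul_pos (by omega) (by omega))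
                rw [mul_assoc]
                apply Nat.mul_le_mul_left
                nlinarith
        calc (2 * k + 1) ^ 2 * N ≤ (c * (k + 1)) ^ (2 * (s + 1)) *
              (c * (k + 1)) ^ ((2 * E + 3) * (4 * D0 + 6 * E + 1) * (s + 1)) :=
              Nat.mul_le_mul g1 g2
          _ = (c * (k + 1)) ^ (c * (s + 1)) := by
              rw [← pow_add]
              congr 1
              rw [hc]; ring
      calc (S2.card : ℝ) ≤ (((c * (k + 1)) ^ (c * (Nat.sqrt k + 1)) : ℕ) : ℝ) := by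
            exact_mod_cast h1.trans h2
        _ ≤ r ^ k := hk
    have hrk : 0 < r ^ k := pow_pos (by linarith) k
    have hsum : r ^ k * ∑ f ∈ S2, q ^ area f ≤ r ^ k * q ^ (k ^ 2) := by
      rw [Finset.mul_sum]
      calc ∑ f ∈ S2, r ^ k * q ^ area f ≤ ∑ _f ∈ S2, q ^ (k ^ 2) := by
            apply Finset.sum_le_sum
            intro f hf
            obtain ⟨A, B, y0, -, -, -, -, -, h5⟩ := hbox f hf
            rw [← hr2, ← pow_mul, ← pow_mul, ← pow_add]
            apply pow_le_pow_right₀ hr1.le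
            omega
        _ = (S2.card : ℝ) * q ^ (k ^ 2) := by rw [Finset.sum_const, nsmul_eq_mul]
        _ ≤ r ^ k * q ^ (k ^ 2) := mul_le_mul_of_nonneg_right hcount (pow_nonneg hq0.le _)
    exact le_of_mul_le_mul_left hsum hrk
  have hcovS : S ⊆ S0 ∪ (S1 ∪ S2) := by
    intro f hf
    rw [Finset.mem_union, Finset.mem_union]
    by_cases h0 : f ∈ S0
    · exact Or.inl h0
    · right
      by_cases h1 : area f + D0 * k ≤ k ^ 2
      · exact Or.inl (Finset.mem_filter.2 ⟨Finset.mem_sdiff.2 ⟨hf, h0⟩, h1⟩)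
      · exact Or.inr (Finset.mem_filter.2 ⟨Finset.mem_sdiff.2 ⟨hf, h0⟩, h1⟩)
  have hun : ∀ U V : Finset (ZMod (2 * (2 * k)) → ℤ × ℤ),
      ∑ f ∈ U ∪ V, q ^ area f ≤ ∑ f ∈ U, q ^ area f + ∑ f ∈ V, q ^ area f := by
    intro U V
    have := Finset.sum_union_inter (s₁ := U) (s₂ := V) (f := fun f => q ^ area f)
    have h2 : 0 ≤ ∑ x ∈ U ∩ V, q ^ area x := Finset.sum_nonneg fun x _ => hpos x
    linarith
  calc ∑ f ∈ S, q ^ area f ≤ ∑ f ∈ S0 ∪ (S1 ∪ S2), q ^ area f :=
        Finset.sum_le_sum_of_subset_of_nonneg hcovS (fun f _ _ => hpos f)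
    _ ≤ ∑ f ∈ S0, q ^ area f + ∑ f ∈ S1 ∪ S2, q ^ area f := hun _ _
    _ ≤ ∑ f ∈ S0, q ^ area f + (∑ f ∈ S1, q ^ area f + ∑ f ∈ S2, q ^ area f) := by
        have := hun S1 S2
        linarith
    _ ≤ (G * (2 / (1 - q⁻¹)) + 2) * q ^ (k ^ 2) := by linarith

end H404SAP
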