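import Pool.Agent.H404R3.PolyCount

/-!
# The partition function for every `q > 1`
-/

namespace H404SAP

open Finset Filter Topology

set_option linter.unusedSectionVars false

lemma poly_exp (c : ℕ) {ρ : ℝ} (hρ : 1 < ρ) :
    ∀ᶠ s : ℕ in atTop, ((c * (s + 1) ^ 2 : ℕ) : ℝ) ^ (2 * c) ≤ ρ ^ s := by
  have h1 := tendsto_pow_const_div_const_pow_of_one_lt (4 * c) hρ
  have hK : (0 : ℝ) < 1 / ((4 * c + 1 : ℕ) : ℝ) ^ (2 * c) := by positivity
  filter_upwards [h1.eventually (gt_mem_nhds hK), eventually_ge_atTop 1] with s hs hs1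
  have hρs : 0 < ρ ^ s := pow_pos (by linarith) s
  rw [div_lt_iff₀ hρs] at hs
  have hK' : (0 : ℝ) < ((4 * c + 1 : ℕ) : ℝ) ^ (2 * c) := by positivity
  rw [one_div, inv_mul_eq_div, lt_div_iff₀ hK'] at hs
  have h2 : ((c * (s + 1) ^ 2 : ℕ) : ℝ) ≤ ((4 * c + 1 : ℕ) : ℝ) * (s : ℝ) ^ 2 := by
    have : c * (s + 1) ^ 2 ≤ (4 * c + 1) * s ^ 2 := by
      have : (s + 1) ^ 2 ≤ 4 * s ^ 2 := by nlinarith
      nlinarith
    exact_mod_cast this
  calc ((c * (s + 1) ^ 2 : ℕ) : ℝ) ^ (2 * c) ≤ (((4 * c + 1 : ℕ) : ℝ) * (s : ℝ) ^ 2) ^ (2 * c) :=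
        pow_le_pow_left₀ (Nat.cast_nonneg _) h2 _
    _ = (s : ℝ) ^ (4 * c) * ((4 * c + 1 : ℕ) : ℝ) ^ (2 * c) := by
        rw [mul_pow, ← pow_mul]
        ring_nf
    _ ≤ ρ ^ s := hs.le

/-- `(c (x + 1)) ^ (c (√x + 1))` grows slower than any exponential -/
lemma sub_exp (c : ℕ) (hc : 1 ≤ c) {ρ : ℝ} (hρ : 1 < ρ) :
    ∀ᶠ x : ℕ in atTop, (((c * (x + 1)) ^ (c * (Nat.sqrt x + 1)) : ℕ) : ℝ) ≤ ρ ^ x := by
  obtain ⟨s0, hs0⟩ := eventually_atTop.1 (poly_exp c hρ)
  filter_upwards [eventually_ge_atTop ((s0 + 1) ^ 2)] with x hx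
  have hs : s0 + 1 ≤ Nat.sqrt x := Nat.le_sqrt'.2 hx
  set s := Nat.sqrt x with hsdef
  have h1 : x < (s + 1) ^ 2 := Nat.lt_succ_sqrt' x
  have h2 : s ^ 2 ≤ x := Nat.sqrt_le' x
  have h3 := hs0 s (by omega)
  have h4 : (c * (x + 1)) ^ (c * (s + 1)) ≤ ((c * (s + 1) ^ 2) ^ (2 * c)) ^ s := by
    calc (c * (x + 1)) ^ (c * (s + 1)) ≤ (c * (s + 1) ^ 2) ^ (c * (s + 1)) :=
          Nat.pow_le_pow_left (Nat.mul_le_mul_left c h1) _
      _ ≤ (c * (s + 1) ^ 2) ^ (2 * c * s) := by
          apply Nat.pow_le_pow_right (Nat.mul_pos (by omega) (by positivity))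
          nlinarith
      _ = ((c * (s + 1) ^ 2) ^ (2 * c)) ^ s := by rw [pow_mul]
  calc (((c * (x + 1)) ^ (c * (s + 1)) : ℕ) : ℝ)
      ≤ ((((c * (s + 1) ^ 2) ^ (2 * c)) ^ s : ℕ) : ℝ) := by exact_mod_cast h4
    _ = (((c * (s + 1) ^ 2 : ℕ) : ℝ) ^ (2 * c)) ^ s := by push_cast; ring
    _ ≤ (ρ ^ s) ^ s := pow_le_pow_left₀ (by positivity) h3 s
    _ = ρ ^ (s ^ 2) := by rw [← pow_mul, pow_two]
    _ ≤ ρ ^ x := pow_le_pow_right₀ hρ.le h2

/-- the weight bound for the polygons with `d` missing cells -/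
noncomputable def gg (d : ℕ) : ℝ := (((15 * (d + 1)) ^ (15 * (Nat.sqrt d + 1)) : ℕ) : ℝ)

lemma gg_nonneg (d : ℕ) : 0 ≤ gg d := Nat.cast_nonneg _

lemma gg_summable {w : ℝ} (h0 : 0 < w) (h1 : w < 1) : Summable (fun d : ℕ => gg d * w ^ d) := by
  have hρ : 1 < (1 + w) / (2 * w) := by
    rw [lt_div_iff₀ (by linarith)]; linarith
  have hev := sub_exp 15 (by norm_num) hρ
  have hgeo : Summable (fun d : ℕ => ((1 + w) / 2) ^ d) :=
    summable_geometric_of_lt_one (by linarith) (by linarith)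
  apply Summable.of_norm_bounded_eventually_nat hgeo
  filter_upwards [hev] with d hd
  rw [Real.norm_of_nonneg (mul_nonneg (gg_nonneg d) (pow_nonneg h0.le _))]
  calc gg d * w ^ d ≤ ((1 + w) / (2 * w)) ^ d * w ^ d :=
        mul_le_mul_of_nonneg_right hd (pow_nonneg h0.le _)
    _ = ((1 + w) / 2) ^ d := by
        rw [← mul_pow]
        congr 1
        field_simp

/-- the sum over the possible widths, for every `q > 1` -/
lemma width_sum' (k : ℕ) {q : ℝ} (hq : 1 < q) :
    ∑ A ∈ range (2 * k + 1), q ^ (A * (2 * k - A)) ≤ (2 / (1 - q⁻¹)) * q ^ (k ^ 2) := by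
  have hq0 : 0 < q := by linarith
  have hq1 : 1 ≤ q := hq.le
  set w : ℝ := q⁻¹ with hw
  have hw0 : 0 < w := inv_pos.2 hq0
  have hw1 : w < 1 := inv_lt_one_of_one_lt₀ hq
  have hqw : w * q = 1 := inv_mul_cancel₀ hq0.ne'
  have hhalf : ∀ j : ℕ, w ^ j * q ^ j = 1 := by
    intro j
    rw [← mul_pow, hqw, one_pow]
  have hgeo : ∀ M : ℕ, ∑ j ∈ range M, w ^ j ≤ 1 / (1 - w) := by
    intro M
    rw [one_div]
    have := (hasSum_geometric_of_lt_one hw0.le hw1)
    exact sum_le_hasSum _ (fun _ _ => pow_nonneg hw0.le _) this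
  have hkey : ∀ (a j : ℕ), a + j ≤ k ^ 2 → q ^ a ≤ q ^ (k ^ 2) * w ^ j := by
    intro a j haj
    calc q ^ a = q ^ a * (w ^ j * q ^ j) := by rw [hhalf, mul_one]
      _ = q ^ (a + j) * w ^ j := by rw [pow_add]; ring
      _ ≤ q ^ (k ^ 2) * w ^ j := mul_le_mul_of_nonneg_right (pow_le_pow_right₀ hq1 haj)
          (pow_nonneg hw0.le _)
  have hterm : ∀ A ∈ range (2 * k + 1), q ^ (A * (2 * k - A)) ≤
      q ^ (k ^ 2) * ((if A ≤ k then w ^ (k - A) else 0) +
        (if k ≤ A then w ^ (A - k) else 0)) := by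
    intro A hA
    rw [Finset.mem_range] at hA
    have h7 : 0 ≤ q ^ (k ^ 2) := pow_nonneg hq0.le _
    rcases le_total A k with h | h
    · rw [if_pos h]
      have h2 : 0 ≤ (if k ≤ A then w ^ (A - k) else 0) := by
        split_ifs <;> positivity
      have e : A * (2 * k - A) + (k - A) ≤ k ^ 2 := by
        obtain ⟨d, rfl⟩ := Nat.exists_eq_add_of_le h
        have e1 : 2 * (A + d) - A = A + 2 * d := by omega
        have e2 : A + d - A = d := by omega
        rw [e1, e2]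
        nlinarith [Nat.le_mul_self d]
      exact (hkey _ _ e).trans (mul_le_mul_of_nonneg_left (by linarith) h7)
    · rw [if_pos h]
      have h2 : 0 ≤ (if A ≤ k then w ^ (k - A) else 0) := by
        split_ifs <;> positivity
      have e : A * (2 * k - A) + (A - k) ≤ k ^ 2 := by
        obtain ⟨d, rfl⟩ := Nat.exists_eq_add_of_le h
        have hd : d ≤ k := by omega
        obtain ⟨c, rfl⟩ := Nat.exists_eq_add_of_le hd
        have e1 : 2 * (d + c) - (d + c + d) = c := by omega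
        have e2 : d + c + d - (d + c) = d := by omega
        rw [e1, e2]
        nlinarith [Nat.le_mul_self d]
      exact (hkey _ _ e).trans (mul_le_mul_of_nonneg_left (by linarith) h7)
  refine (Finset.sum_le_sum hterm).trans ?_
  rw [← Finset.mul_sum, Finset.sum_add_distrib]
  have s1 : ∑ A ∈ range (2 * k + 1), (if A ≤ k then w ^ (k - A) else 0) ≤ 1 / (1 - w) := by
    rw [← Finset.sum_filter]
    have : (range (2 * k + 1)).filter (fun A => A ≤ k) = range (k + 1) := by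
      ext i; simp only [Finset.mem_filter, Finset.mem_range]; omega
    rw [this]
    have e := Finset.sum_range_reflect (fun j => w ^ j) (k + 1)
    simp only [Nat.add_sub_cancel] at e
    rw [e]
    exact hgeo _
  have s2 : ∑ A ∈ range (2 * k + 1), (if k ≤ A then w ^ (A - k) else 0) ≤ 1 / (1 - w) := by
    rw [← Finset.sum_filter]
    have : (range (2 * k + 1)).filter (fun A => k ≤ A) = Ico k (2 * k + 1) := by
      ext i; simp only [Finset.mem_filter, Finset.mem_range, Finset.mem_Ico]; omega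
    rw [this, Finset.sum_Ico_eq_sum_range]
    refine le_trans (le_of_eq ?_) (hgeo (2 * k + 1 - k))
    refine Finset.sum_congr rfl fun j _ => ?_
    rw [Nat.add_sub_cancel_left]
  have h7 : 0 ≤ q ^ (k ^ 2) := pow_nonneg hq0.le _
  calc q ^ (k ^ 2) * (∑ A ∈ range (2 * k + 1), (if A ≤ k then w ^ (k - A) else 0) +
        ∑ A ∈ range (2 * k + 1), (if k ≤ A then w ^ (A - k) else 0))
      ≤ q ^ (k ^ 2) * (1 / (1 - w) + 1 / (1 - w)) :=
        mul_le_mul_of_nonneg_left (add_le_add s1 s2) h7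
    _ = (2 / (1 - w)) * q ^ (k ^ 2) := by ring

section

variable {n : ℕ} [NeZero n]

/-- weighted sum over the polygons with perimeter equal to that of the bounding box -/
lemma FA_bound' (h3 : 3 ≤ n) {A B : ℕ} (hA : 1 ≤ A) (hn : 2 * A + 2 * B = n) {q : ℝ} (hq : 1 < q)
    (F : Finset (ZMod n → ℤ × ℤ)) (hF : ∀ f ∈ F, Good f ∧ ∃ y0, Box f A B y0) :
    ∑ f ∈ F, q ^ area f ≤ (∑' d : ℕ, gg d * (q⁻¹) ^ d) * q ^ (A * B) := by
  classical
  have hq0 : 0 < q := by linarith
  have hw0 : 0 < q⁻¹ := inv_pos.2 hq0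
  have hw1 : q⁻¹ < 1 := inv_lt_one_of_one_lt₀ hq
  have harea : ∀ f ∈ F, area f ≤ A * B := by
    intro f hf
    obtain ⟨hg, y0, hb⟩ := hF f hf
    exact area_le hg.step hb.hx hb.hy
  have hmaps : ∀ f ∈ F, A * B - area f ∈ range (A * B + 1) := by
    intro f _
    rw [Finset.mem_range]
    omega
  rw [← Finset.sum_fiberwise_of_maps_to hmaps]
  calc ∑ d ∈ range (A * B + 1), ∑ f ∈ F with A * B - area f = d, q ^ area f
      ≤ ∑ d ∈ range (A * B + 1), gg d * (q⁻¹) ^ d * q ^ (A * B) := by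
        apply Finset.sum_le_sum
        intro d hd
        rw [Finset.mem_range] at hd
        have h1 : ∑ f ∈ F with A * B - area f = d, q ^ area f =
            ∑ _f ∈ F.filter (fun f => A * B - area f = d), q ^ (A * B - d) := by
          refine Finset.sum_congr rfl fun f hf => ?_
          rw [Finset.mem_filter] at hf
          have := harea f hf.1
          congr 1
          omega
        rw [h1, Finset.sum_const, nsmul_eq_mul]
        have h2 : ((F.filter (fun f => A * B - area f = d)).card : ℝ) ≤ gg d := by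
          unfold gg
          have := count0 h3 (d := d) hA hn (F.filter (fun f => A * B - area f = d)) (by
            intro f hf
            rw [Finset.mem_filter] at hf
            refine ⟨(hF f hf.1).1, (hF f hf.1).2, ?_⟩
            have := harea f hf.1
            omega)
          exact_mod_cast this
        have h4 : q ^ (A * B - d) = (q⁻¹) ^ d * q ^ (A * B) := by
          have : q ^ (A * B) = q ^ d * q ^ (A * B - d) := by
            rw [← pow_add]; congr 1; omega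
          rw [this, ← mul_assoc, ← mul_pow, inv_mul_cancel₀ hq0.ne', one_pow, one_mul]
        rw [h4, ← mul_assoc]
        apply mul_le_mul_of_nonneg_right _ (pow_nonneg hq0.le _)
        exact mul_le_mul_of_nonneg_right h2 (pow_nonneg hw0.le _)
    _ = (∑ d ∈ range (A * B + 1), gg d * (q⁻¹) ^ d) * q ^ (A * B) := by rw [Finset.sum_mul]
    _ ≤ (∑' d : ℕ, gg d * (q⁻¹) ^ d) * q ^ (A * B) := by
        apply mul_le_mul_of_nonneg_right _ (pow_nonneg hq0.le _)
        exact (gg_summable hw0 hw1).sum_le_tsum _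
          (fun d _ => mul_nonneg (gg_nonneg d) (pow_nonneg hw0.le _))

end

end H404SAP
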