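import Pool.Agent.H404R3.PolyGeo

/-!
# Enclosed cells determine the polygon; polygons whose perimeter is that of the bounding box
-/

namespace H404SAP

open Finset

set_option linter.unusedSectionVars false

section

variable {n : ℕ} [NeZero n] {f g : ZMod n → ℤ × ℤ}

lemma cnt_add {P Q R : ZMod n → Prop} (h : ∀ k, R k ↔ P k ∨ Q k) (h' : ∀ k, ¬ (P k ∧ Q k)) :
    cnt R = cnt P + cnt Q := by
  classical
  unfold cnt
  rw [← Finset.card_union_of_disjoint]
  · congr 1
    ext k
    simp [h k]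
  · rw [Finset.disjoint_left]
    intro k hk hk'
    simp only [Finset.mem_filter] at hk hk'
    exact h' k ⟨hk.2, hk'.2⟩

lemma cnt_le_one {P : ZMod n → Prop} (h : ∀ k l, P k → P l → k = l) : cnt P ≤ 1 := by
  classical
  unfold cnt
  rw [Finset.card_le_one]
  intro k hk l hl
  simp only [Finset.mem_filter] at hk hl
  exact h k l hk.2 hl.2

lemma exists_iff_odd {P : ZMod n → Prop} (h : ∀ k l, P k → P l → k = l) :
    (∃ k, P k) ↔ Odd (cnt P) := by
  have h1 := cnt_le_one h
  constructor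
  · rintro ⟨k, hk⟩
    have : cnt P ≠ 0 := fun h0 => cnt_eq_zero.1 h0 k hk
    have : cnt P = 1 := by omega
    rw [this]
    decide
  · intro h2
    apply cnt_pos
    rintro h0
    rw [h0] at h2
    exact absurd h2 (by decide)

lemma hor_exists_iff (hs : Step f) (hf : Function.Injective f) (h3 : 3 ≤ n) (a y : ℤ) :
    (∃ k, Hor f a k ∧ (f k).2 = y) ↔ ¬ (Encl f (a, y - 1) ↔ Encl f (a, y)) := by
  rw [exists_iff_odd (fun k l hk hl => hor_inj hs hf h3 hk.1 hl.1 (hk.2.trans hl.2.symm)),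
    encl_iff_above, encl_iff_above]
  have := cnt_add (P := fun k => Hor f a k ∧ y < (f k).2) (Q := fun k => Hor f a k ∧ (f k).2 = y)
    (R := fun k => Hor f a k ∧ y - 1 < (f k).2)
    (fun k => by
      constructor
      · rintro ⟨h1, h2⟩
        rcases lt_or_ge y (f k).2 with h | h
        · exact Or.inl ⟨h1, h⟩
        · exact Or.inr ⟨h1, by omega⟩
      · rintro (⟨h1, h2⟩ | ⟨h1, h2⟩)
        · exact ⟨h1, by omega⟩
        · exact ⟨h1, by omega⟩) (fun k => by rintro ⟨⟨_, h1⟩, _, h2⟩; omega)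
  rw [this, Nat.odd_add]
  by_cases h1 : Odd (cnt fun k => Hor f a k ∧ y < (f k).2) <;>
    by_cases h2 : Odd (cnt fun k => Hor f a k ∧ (f k).2 = y) <;>
    simp only [← Nat.not_odd_iff_even, h1, h2] <;> simp

lemma ver_exists_iff (hs : Step f) (hf : Function.Injective f) (h3 : 3 ≤ n) (x b : ℤ) :
    (∃ k, Ver f b k ∧ (f k).1 = x) ↔ ¬ (Encl f (x - 1, b) ↔ Encl f (x, b)) := by
  rw [exists_iff_odd (fun k l hk hl => ver_inj hs hf h3 hk.1 hl.1 (hk.2.trans hl.2.symm)),
    encl_iff_left hs, encl_iff_left hs]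
  have := cnt_add (P := fun k => Ver f b k ∧ (f k).1 ≤ x - 1)
    (Q := fun k => Ver f b k ∧ (f k).1 = x)
    (R := fun k => Ver f b k ∧ (f k).1 ≤ x)
    (fun k => by
      constructor
      · rintro ⟨h1, h2⟩
        rcases lt_or_ge (f k).1 x with h | h
        · exact Or.inl ⟨h1, by omega⟩
        · exact Or.inr ⟨h1, by omega⟩
      · rintro (⟨h1, h2⟩ | ⟨h1, h2⟩)
        · exact ⟨h1, by omega⟩
        · exact ⟨h1, by omega⟩) (fun k => by rintro ⟨⟨_, h1⟩, _, h2⟩; omega)
  rw [this, Nat.odd_add]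
  by_cases h1 : Odd (cnt fun k => Ver f b k ∧ (f k).1 ≤ x - 1) <;>
    by_cases h2 : Odd (cnt fun k => Ver f b k ∧ (f k).1 = x) <;>
    simp only [← Nat.not_odd_iff_even, h1, h2] <;> simp

/-- two loops enclosing the same cells have the same edges -/
lemma edge_transfer (hs : Step f) (hf : Function.Injective f) (hs' : Step g)
    (hg : Function.Injective g) (h3 : 3 ≤ n) (hE : ∀ c, Encl f c ↔ Encl g c) (k : ZMod n) :
    ∃ j, (g j = f k ∧ g (j + 1) = f (k + 1)) ∨ (g j = f (k + 1) ∧ g (j + 1) = f k) := by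
  have hH : ∀ a y, (∃ k, Hor f a k ∧ (f k).2 = y) → ∃ k, Hor g a k ∧ (g k).2 = y := by
    intro a y h
    rw [hor_exists_iff hs hf h3, hE, hE, ← hor_exists_iff hs' hg h3] at h
    exact h
  have hV : ∀ x b, (∃ k, Ver f b k ∧ (f k).1 = x) → ∃ k, Ver g b k ∧ (g k).1 = x := by
    intro a y h
    rw [ver_exists_iff hs hf h3, hE, hE, ← ver_exists_iff hs' hg h3] at h
    exact h
  rcases hs.cases k with h | h | h | h
  · obtain ⟨j, hj, hj2⟩ := hH (f k).1 (f k).2 ⟨k, Or.inl ⟨rfl, h.1⟩, rfl⟩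
    have cj := hs'.cases j
    unfold Hor at hj
    refine ⟨j, ?_⟩
    rcases hj with hj | hj
    · exact Or.inl ⟨Prod.ext (by omega) (by omega), Prod.ext (by omega) (by omega)⟩
    · exact Or.inr ⟨Prod.ext (by omega) (by omega), Prod.ext (by omega) (by omega)⟩
  · obtain ⟨j, hj, hj2⟩ := hH ((f k).1 - 1) (f k).2 ⟨k, Or.inr ⟨by omega, h.1⟩, rfl⟩
    have cj := hs'.cases j
    unfold Hor at hj
    refine ⟨j, ?_⟩
    rcases hj with hj | hj
    · exact Or.inr ⟨Prod.ext (by omega) (by omega), Prod.ext (by omega) (by omega)⟩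
    · exact Or.inl ⟨Prod.ext (by omega) (by omega), Prod.ext (by omega) (by omega)⟩
  · obtain ⟨j, hj, hj2⟩ := hV (f k).1 (f k).2 ⟨k, Or.inl ⟨rfl, h.2⟩, rfl⟩
    have cj := hs'.cases j
    unfold Ver at hj
    refine ⟨j, ?_⟩
    rcases hj with hj | hj
    · exact Or.inl ⟨Prod.ext (by omega) (by omega), Prod.ext (by omega) (by omega)⟩
    · exact Or.inr ⟨Prod.ext (by omega) (by omega), Prod.ext (by omega) (by omega)⟩
  · obtain ⟨j, hj, hj2⟩ := hV (f k).1 ((f k).2 - 1) ⟨k, Or.inr ⟨by omega, h.2⟩, rfl⟩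
    have cj := hs'.cases j
    unfold Ver at hj
    refine ⟨j, ?_⟩
    rcases hj with hj | hj
    · exact Or.inr ⟨Prod.ext (by omega) (by omega), Prod.ext (by omega) (by omega)⟩
    · exact Or.inl ⟨Prod.ext (by omega) (by omega), Prod.ext (by omega) (by omega)⟩

/-- the enclosed cells, with the first edge, determine the loop -/
lemma encl_unique (hs : Step f) (hf : Function.Injective f) (hs' : Step g)
    (hg : Function.Injective g) (h3 : 3 ≤ n) (hE : ∀ c, Encl f c ↔ Encl g c)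
    (h0 : f 0 = g 0) (h1 : f 1 = g 1) : f = g := by
  have key : ∀ t : ℕ, f ((t : ℕ) : ZMod n) = g ((t : ℕ) : ZMod n) ∧
      f (((t : ℕ) : ZMod n) + 1) = g (((t : ℕ) : ZMod n) + 1) := by
    intro t
    induction t with
    | zero => simpa using ⟨h0, h1⟩
    | succ t ih =>
      obtain ⟨ih1, ih2⟩ := ih
      rw [Nat.cast_succ]
      refine ⟨ih2, ?_⟩
      obtain ⟨j, hj | hj⟩ := edge_transfer hs hf hs' hg h3 hE (((t : ℕ) : ZMod n) + 1)
      · have e : j = ((t : ℕ) : ZMod n) + 1 := hg (hj.1.trans ih2)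
        rw [e] at hj
        exact hj.2.symm
      · exfalso
        have e : j + 1 = ((t : ℕ) : ZMod n) + 1 := hg (hj.2.trans ih2)
        have e2 : j = ((t : ℕ) : ZMod n) := add_right_cancel e
        rw [e2, ← ih1] at hj
        have e3 := hf hj.1
        apply two_ne h3
        have : ((t : ℕ) : ZMod n) + 2 = ((t : ℕ) : ZMod n) + 0 := by
          rw [add_zero, ← one_add_one_eq_two, ← add_assoc]
          exact e3.symm
        exact add_left_cancel this
  funext k
  have := (key k.val).1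
  rwa [ZMod.natCast_zmod_val] at this

end

end H404SAP
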