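import Pool.Agent.H404R3.PolyCols

/-!
# Few changes
-/

namespace H404SAP

open Finset

set_option linter.unusedSectionVars false

/-- distinct positive integers have a large sum -/
lemma sum_pos_ge (S : Finset ℕ) : (∀ x ∈ S, 1 ≤ x) → S.card * (S.card + 1) ≤ 2 * ∑ x ∈ S, x := by
  induction S using Finset.induction_on_max with
  | empty => simp
  | insert a S ha ih =>
    intro hpos
    have ih' := ih (fun x hx => hpos x (Finset.mem_insert_of_mem hx))
    have hna : a ∉ S := fun h => lt_irrefl a (ha a h)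
    rw [Finset.card_insert_of_notMem hna, Finset.sum_insert hna]
    have hc : S.card + 1 ≤ a := by
      have hsub : S ⊆ Finset.Ico 1 a := by
        intro x hx
        rw [Finset.mem_Ico]
        exact ⟨hpos x (Finset.mem_insert_of_mem hx), ha x hx⟩
      have := Finset.card_le_card hsub
      rw [Nat.card_Ico] at this
      have := hpos a (Finset.mem_insert_self a S)
      omega
    nlinarith

section

variable {n : ℕ} [NeZero n] {f : ZMod n → ℤ × ℤ}

open Classical in
/-- the cells of the bounding box that are not enclosed -/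
noncomputable def Mis (f : ZMod n → ℤ × ℤ) (A B : ℕ) (y0 : ℤ) : Finset (ℤ × ℤ) :=
  (Ico (0 : ℤ) A ×ˢ Ico y0 (y0 + B)).filter (fun c => ¬ Encl f c)

lemma area_add_mis (hs : Step f) {A B : ℕ} {y0 : ℤ} (hb : Box f A B y0) :
    area f + (Mis f A B y0).card = A * B := by
  classical
  have h1 : area f = ((Ico (0 : ℤ) A ×ˢ Ico y0 (y0 + B)).filter (fun c => Encl f c)).card := by
    unfold area
    apply Nat.subtype_card
    rintro ⟨a, b⟩
    rw [Finset.mem_filter, Finset.mem_product, Finset.mem_Ico, Finset.mem_Ico]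
    constructor
    · exact fun h => h.2
    · intro h
      have := encl_box hs hb.hx hb.hy h
      exact ⟨⟨⟨this.1, this.2.1⟩, this.2.2⟩, h⟩
  have h2 : (Ico (0 : ℤ) A ×ˢ Ico y0 (y0 + B)).card = A * B := by
    rw [Finset.card_product, Int.card_Ico, Int.card_Ico]
    congr 1 <;> omega
  rw [h1, ← h2]
  unfold Mis
  convert Finset.card_filter_add_card_filter_not _

lemma dist_bound (M : Finset (ℤ × ℤ)) (X' : Finset ℤ) (φ : ℤ → ℕ) (r : ℤ → ℤ)
    (hφ : Set.InjOn φ X') (hφ1 : ∀ x ∈ X', 1 ≤ φ x) (hr : Set.InjOn r X')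
    (hM : ∀ x ∈ X', φ x ≤ (M.filter (fun c => c.2 = r x)).card) :
    X'.card ≤ Nat.sqrt (2 * M.card) ∧ ∀ x ∈ X', φ x ≤ M.card := by
  classical
  have h1 : ∑ x ∈ X', φ x ≤ M.card := by
    calc ∑ x ∈ X', φ x ≤ ∑ x ∈ X', (M.filter (fun c => c.2 = r x)).card := Finset.sum_le_sum hM
      _ = ∑ b ∈ X'.image r, (M.filter (fun c => c.2 = b)).card := by
          rw [Finset.sum_image hr]
      _ = ((X'.image r).biUnion (fun b => M.filter (fun c => c.2 = b))).card := by
          rw [Finset.card_biUnion]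
          intro b _ b' _ hbb
          rw [Function.onFun, Finset.disjoint_left]
          intro c hc hc'
          rw [Finset.mem_filter] at hc hc'
          exact hbb (hc.2.symm.trans hc'.2)
      _ ≤ M.card := by
          apply Finset.card_le_card
          intro c hc
          obtain ⟨b, -, hc⟩ := Finset.mem_biUnion.1 hc
          exact (Finset.mem_filter.1 hc).1
  refine ⟨?_, fun x hx => (Finset.single_le_sum (fun _ _ => Nat.zero_le _) hx).trans h1⟩
  have h2 := sum_pos_ge (X'.image φ) (by
    intro y hy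
    obtain ⟨x, hx, rfl⟩ := Finset.mem_image.1 hy
    exact hφ1 x hx)
  rw [Finset.card_image_of_injOn hφ, Finset.sum_image hφ] at h2
  rw [Nat.le_sqrt]
  nlinarith

lemma changes (hf : Good f) (h3 : 3 ≤ n) {A B e : ℕ} {y0 : ℤ} (hb : Box f A B y0)
    (hn : 2 * A + 2 * B + 2 * e = n) :
    (X f A).card ≤ 2 * Nat.sqrt (2 * (Mis f A B y0).card) + 6 * e ∧
    (e = 0 → ∀ x ∈ X f A, x ≤ (Mis f A B y0).card ∨ (A : ℤ) - x ≤ (Mis f A B y0).card) := by
  classical
  have hs := hf.step
  let rows := Ico y0 (y0 + B)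
  obtain ⟨PL, hPL⟩ : ∃ P : ℤ → Prop, ∀ x, P x ↔ ∃ b ∈ rows, Encl f (x, b) ∧
    ∀ a, 0 ≤ a → a < x → ¬ Encl f (a, b) := ⟨_, fun _ => Iff.rfl⟩
  obtain ⟨PR, hPR⟩ : ∃ P : ℤ → Prop, ∀ x, P x ↔ ∃ b ∈ rows, Encl f (x - 1, b) ∧
    ∀ a, x ≤ a → a < (A : ℤ) → ¬ Encl f (a, b) := ⟨_, fun _ => Iff.rfl⟩
  let XL := (X f A).filter PL
  let XR := (X f A).filter PR
  let bad := rows.filter (fun b => cnt (fun k => Ver f b k) ≠ 2)
  let XB := bad.biUnion (fun b => (univ.filter (fun k => Ver f b k)).image (fun k => (f k).1))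
  have hXr : ∀ x ∈ X f A, 1 ≤ x ∧ x < A := by
    intro x hx
    rw [X, Finset.mem_filter, Finset.mem_Ico] at hx
    exact hx.1
  have hcover : X f A ⊆ XL ∪ XR ∪ XB := by
    intro x hx
    have hx' := hx
    rw [X, Finset.mem_filter, Finset.mem_Ico] at hx'
    obtain ⟨b, hb1, hb2⟩ : ∃ b ∈ rows, ¬ (Encl f (x - 1, b) ↔ Encl f (x, b)) := by
      by_contra hcon
      push Not at hcon
      apply hx'.2
      apply C_congr hf h3
      intro b
      by_cases hbr : b ∈ rows
      · exact hcon b hbr
      · have hne : ∀ a, ¬ Encl f (a, b) := by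
          intro a hE
          have := encl_box hs hb.hx hb.hy hE
          exact hbr (Finset.mem_Ico.2 this.2.2)
        exact ⟨fun h => absurd h (hne _), fun h => absurd h (hne _)⟩
    rw [Finset.mem_union, Finset.mem_union]
    by_cases hc : cnt (fun k => Ver f b k) = 2
    · left
      obtain ⟨k, l, hlt, hE⟩ := row_struct hs hf.inj h3 hc
      have hkl : x = (f k).1 ∨ x = (f l).1 := by
        rw [hE, hE] at hb2
        omega
      rcases hkl with h | h
      · left
        refine Finset.mem_filter.2 ⟨hx, (hPL x).2 ⟨b, hb1, ?_, ?_⟩⟩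
        · rw [hE]; omega
        · intro a _ ha
          rw [hE]; omega
      · right
        refine Finset.mem_filter.2 ⟨hx, (hPR x).2 ⟨b, hb1, ?_, ?_⟩⟩
        · rw [hE]; omega
        · intro a ha _
          rw [hE]; omega
    · right
      rw [← ver_exists_iff hs hf.inj h3] at hb2
      obtain ⟨k, hk, hk2⟩ := hb2
      refine Finset.mem_biUnion.2 ⟨b, Finset.mem_filter.2 ⟨hb1, hc⟩, ?_⟩
      exact Finset.mem_image.2 ⟨k, Finset.mem_filter.2 ⟨Finset.mem_univ k, hk⟩, hk2⟩
  -- left changes
  have hL : XL.card ≤ Nat.sqrt (2 * (Mis f A B y0).card) ∧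
      ∀ x ∈ XL, x.toNat ≤ (Mis f A B y0).card := by
    have hch : ∀ x : ℤ, ∃ b : ℤ, x ∈ XL → (b ∈ rows ∧ Encl f (x, b) ∧ ∀ a, 0 ≤ a → a < x →
        ¬ Encl f (a, b)) := by
      intro x
      by_cases hx : x ∈ XL
      · obtain ⟨b, hb⟩ := (hPL x).1 (Finset.mem_filter.1 hx).2
        exact ⟨b, fun _ => hb⟩
      · exact ⟨0, fun h => absurd h hx⟩
    choose r hr using hch
    have hXL : ∀ x ∈ XL, 1 ≤ x ∧ x < A := fun x hx => hXr x (Finset.mem_filter.1 hx).1
    apply dist_bound (Mis f A B y0) XL (fun x => x.toNat) r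
    · intro x hx y hy h
      have := hXL x hx
      have := hXL y hy
      simp only at h
      omega
    · intro x hx
      have := hXL x hx
      omega
    · intro x hx y hy h
      have h1 := hr x hx
      have h2 := hr y hy
      have b1 := hXL x hx
      have b2 := hXL y hy
      rw [← h] at h2
      by_contra hne
      rcases lt_or_gt_of_ne hne with hlt | hlt
      · exact h2.2.2 x (by omega) hlt h1.2.1
      · exact h1.2.2 y (by omega) hlt h2.2.1
    · intro x hx
      have h1 := hr x hx
      have b1 := hXL x hx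
      have : x.toNat = ((Ico (0 : ℤ) x).image (fun a => (a, r x))).card := by
        rw [Finset.card_image_of_injective _ (fun a b h => by simpa using h), Int.card_Ico]
        omega
      rw [this]
      apply Finset.card_le_card
      intro c hc
      obtain ⟨a, ha, rfl⟩ := Finset.mem_image.1 hc
      rw [Finset.mem_Ico] at ha
      rw [Finset.mem_filter]
      refine ⟨?_, rfl⟩
      rw [Mis, Finset.mem_filter, Finset.mem_product, Finset.mem_Ico]
      exact ⟨⟨⟨ha.1, by omega⟩, h1.1⟩, h1.2.2 a ha.1 ha.2⟩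
  have hR : XR.card ≤ Nat.sqrt (2 * (Mis f A B y0).card) ∧
      ∀ x ∈ XR, ((A : ℤ) - x).toNat ≤ (Mis f A B y0).card := by
    have hch : ∀ x : ℤ, ∃ b : ℤ, x ∈ XR → (b ∈ rows ∧ Encl f (x - 1, b) ∧ ∀ a, x ≤ a →
        a < (A : ℤ) → ¬ Encl f (a, b)) := by
      intro x
      by_cases hx : x ∈ XR
      · obtain ⟨b, hb⟩ := (hPR x).1 (Finset.mem_filter.1 hx).2
        exact ⟨b, fun _ => hb⟩
      · exact ⟨0, fun h => absurd h hx⟩
    choose r hr using hch
    have hXR : ∀ x ∈ XR, 1 ≤ x ∧ x < A := fun x hx => hXr x (Finset.mem_filter.1 hx).1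
    apply dist_bound (Mis f A B y0) XR (fun x => ((A : ℤ) - x).toNat) r
    · intro x hx y hy h
      have := hXR x hx
      have := hXR y hy
      simp only at h
      omega
    · intro x hx
      have := hXR x hx
      omega
    · intro x hx y hy h
      have h1 := hr x hx
      have h2 := hr y hy
      have b1 := hXR x hx
      have b2 := hXR y hy
      rw [← h] at h2
      by_contra hne
      rcases lt_or_gt_of_ne hne with hlt | hlt
      · exact h1.2.2 (y - 1) (by omega) (by omega) h2.2.1
      · exact h2.2.2 (x - 1) (by omega) (by omega) h1.2.1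
    · intro x hx
      have h1 := hr x hx
      have b1 := hXR x hx
      have : ((A : ℤ) - x).toNat = ((Ico x (A : ℤ)).image (fun a => (a, r x))).card := by
        rw [Finset.card_image_of_injective _ (fun a b h => by simpa using h), Int.card_Ico]
      rw [this]
      apply Finset.card_le_card
      intro c hc
      obtain ⟨a, ha, rfl⟩ := Finset.mem_image.1 hc
      rw [Finset.mem_Ico] at ha
      rw [Finset.mem_filter]
      refine ⟨?_, rfl⟩
      rw [Mis, Finset.mem_filter, Finset.mem_product, Finset.mem_Ico]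
      exact ⟨⟨⟨by omega, ha.2⟩, h1.1⟩, h1.2.2 a ha.1 ha.2⟩
  -- bad rows
  obtain ⟨k0, hk0⟩ := hb.hx0
  obtain ⟨k1, hk1⟩ := hb.hx1
  obtain ⟨l0, hl0⟩ := hb.hy0
  obtain ⟨l1, hl1⟩ := hb.hy1
  have c1 : ∀ a ∈ Ico (0 : ℤ) A, 2 ≤ cnt (fun k => Hor f a k) := by
    intro a ha
    rw [Finset.mem_Ico] at ha
    exact hor_two hs (i := k0) (j := k1) (by omega) (by omega)
  have c2 : ∀ b ∈ rows, 2 ≤ cnt (fun k => Ver f b k) := by
    intro a ha
    rw [Finset.mem_Ico] at ha
    exact ver_two hs (i := l0) (j := l1) (by omega) (by omega)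
  have ht := total_le hs (Ico (0 : ℤ) A) rows
  have s1 : ∑ _a ∈ Ico (0 : ℤ) A, 2 = 2 * A := by
    rw [Finset.sum_const, Int.card_Ico, smul_eq_mul]; omega
  have s2 : ∑ _b ∈ rows, 2 = 2 * B := by
    rw [Finset.sum_const, Int.card_Ico, smul_eq_mul]; omega
  have d1 := Finset.sum_le_sum c1
  have hsum : ∑ b ∈ rows, (cnt (fun k => Ver f b k) - 2) ≤ 2 * e := by
    have : ∑ b ∈ rows, (cnt (fun k => Ver f b k) - 2) + ∑ _b ∈ rows, 2 =
        ∑ b ∈ rows, cnt (fun k => Ver f b k) := by
      rw [← Finset.sum_add_distrib]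
      exact Finset.sum_congr rfl fun b hb => Nat.sub_add_cancel (c2 b hb)
    omega
  have hB : XB.card ≤ 6 * e := by
    calc XB.card ≤ ∑ b ∈ bad, ((univ.filter (fun k => Ver f b k)).image (fun k => (f k).1)).card :=
          Finset.card_biUnion_le
      _ ≤ ∑ b ∈ bad, 3 * (cnt (fun k => Ver f b k) - 2) := by
          apply Finset.sum_le_sum
          intro b hb
          have hb' := Finset.mem_filter.1 hb
          have h1 := c2 b hb'.1
          have h2 := hb'.2
          have h4 : ((univ.filter (fun k => Ver f b k)).image (fun k => (f k).1)).card ≤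
              cnt (fun k => Ver f b k) := by
            unfold cnt
            convert Finset.card_image_le
          omega
      _ ≤ ∑ b ∈ rows, 3 * (cnt (fun k => Ver f b k) - 2) :=
          Finset.sum_le_sum_of_subset (Finset.filter_subset _ _)
      _ = 3 * ∑ b ∈ rows, (cnt (fun k => Ver f b k) - 2) := by rw [Finset.mul_sum]
      _ ≤ 6 * e := by omega
  refine ⟨?_, ?_⟩
  · have h1 := Finset.card_le_card hcover
    have h2 := Finset.card_union_le (XL ∪ XR) XB
    have h4 := Finset.card_union_le XL XR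
    have := hL.1
    have := hR.1
    omega
  · intro he x hx
    have h1 := hcover hx
    rw [Finset.mem_union, Finset.mem_union] at h1
    have hXB : XB = ∅ := by
      rw [← Finset.card_eq_zero]; omega
    rw [hXB] at h1
    have := hXr x hx
    rcases h1 with (h1 | h1) | h1
    · left
      have := hL.2 x h1
      omega
    · right
      have := hR.2 x h1
      omega
    · simp at h1

end

end H404SAP
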