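import Pool.Agent.H404R3.PolyZ

/-!
# Column sets and the number of changes
-/

namespace H404SAP

open Finset

set_option linter.unusedSectionVars false

section

variable {n : ℕ} [NeZero n] {f g : ZMod n → ℤ × ℤ}

open Classical in
/-- the heights of the horizontal edges in column `a` -/
noncomputable def C (f : ZMod n → ℤ × ℤ) (a : ℤ) : Finset ℤ :=
  (univ.filter (fun k => Hor f a k)).image (fun k => (f k).2)

lemma mem_C {a y : ℤ} : y ∈ C f a ↔ ∃ k, Hor f a k ∧ (f k).2 = y := by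
  classical
  simp [C]

lemma card_C_le (a : ℤ) : (C f a).card ≤ cnt (fun k => Hor f a k) := by
  classical
  exact Finset.card_image_le

lemma mem_C_iff (hf : Good f) (h3 : 3 ≤ n) (a y : ℤ) :
    y ∈ C f a ↔ ¬ (Encl f (a, y - 1) ↔ Encl f (a, y)) := by
  rw [mem_C, hor_exists_iff hf.step hf.inj h3]

lemma encl_iff_C (hf : Good f) (h3 : 3 ≤ n) (a b : ℤ) :
    Encl f (a, b) ↔ Odd ((C f a).filter (fun y => b < y)).card := by
  classical
  rw [encl_iff_above]
  have : cnt (fun k => Hor f a k ∧ b < (f k).2) = ((C f a).filter (fun y => b < y)).card := by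
    have e : ((C f a).filter (fun y => b < y)) =
        (univ.filter (fun k => Hor f a k ∧ b < (f k).2)).image (fun k => (f k).2) := by
      ext y
      simp only [Finset.mem_filter, mem_C, Finset.mem_image, Finset.mem_univ, true_and]
      constructor
      · rintro ⟨⟨k, hk, rfl⟩, hy⟩
        exact ⟨k, ⟨hk, hy⟩, rfl⟩
      · rintro ⟨k, ⟨hk, hy⟩, rfl⟩
        exact ⟨⟨k, hk, rfl⟩, hy⟩
    rw [e, Finset.card_image_of_injOn]
    · unfold cnt
      congr
    · intro k hk l hl h
      simp only [Finset.coe_filter, Finset.mem_univ, true_and, Set.mem_setOf_eq] at hk hl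
      exact hor_inj hf.step hf.inj h3 hk.1 hl.1 h
  rw [this]

lemma encl_congr (hf : Good f) (hg : Good g) (h3 : 3 ≤ n) {a a' : ℤ} (h : C f a = C g a') (b : ℤ) :
    Encl f (a, b) ↔ Encl g (a', b) := by
  rw [encl_iff_C hf h3, encl_iff_C hg h3, h]

lemma C_congr (hf : Good f) (h3 : 3 ≤ n) {a a' : ℤ}
    (h : ∀ b, Encl f (a, b) ↔ Encl f (a', b)) : C f a = C f a' := by
  ext y
  rw [mem_C_iff hf h3, mem_C_iff hf h3, h, h]

open Classical in
/-- change positions -/
noncomputable def X (f : ZMod n → ℤ × ℤ) (A : ℕ) : Finset ℤ :=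
  (Ico (1 : ℤ) A).filter (fun x => C f (x - 1) ≠ C f x)

/-- the code of a polygon: its column sets at the first column and at the change positions -/
noncomputable def Tc (f : ZMod n → ℤ × ℤ) (A : ℕ) : Finset (ℤ × Finset ℤ) :=
  (insert 0 (X f A)).image (fun x => (x, C f x))

lemma Tc_card (A : ℕ) : (Tc f A).card ≤ (X f A).card + 1 := by
  classical
  exact Finset.card_image_le.trans (Finset.card_insert_le _ _)

lemma Tc_mem {A : ℕ} {x : ℤ} {c : Finset ℤ} :
    (x, c) ∈ Tc f A ↔ (x = 0 ∨ x ∈ X f A) ∧ C f x = c := by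
  classical
  simp only [Tc, Finset.mem_image, Finset.mem_insert, Prod.mk.injEq]
  constructor
  · rintro ⟨y, hy, rfl, rfl⟩
    exact ⟨hy, rfl⟩
  · rintro ⟨hy, rfl⟩
    exact ⟨x, hy, rfl, rfl⟩

lemma Tc_inj (hf : Good f) (hg : Good g) (h3 : 3 ≤ n) {A B B' : ℕ} {y0 y0' : ℤ}
    (hbf : Box f A B y0) (hbg : Box g A B' y0') (h : Tc f A = Tc g A) : f = g := by
  classical
  have key : ∀ t : ℕ, t < A → C f (t : ℤ) = C g (t : ℤ) := by
    intro t
    induction t with
    | zero =>
      intro _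
      have h1 : ((0 : ℤ), C f 0) ∈ Tc f A := Tc_mem.2 ⟨Or.inl rfl, rfl⟩
      rw [h] at h1
      exact (Tc_mem.1 h1).2.symm
    | succ t ih =>
      intro ht
      have ih' := ih (by omega)
      have e : ((t + 1 : ℕ) : ℤ) - 1 = (t : ℤ) := by push_cast; ring
      by_cases hc : C f ((t : ℤ)) = C f ((t + 1 : ℕ) : ℤ)
      · by_cases hc' : C g ((t : ℤ)) = C g ((t + 1 : ℕ) : ℤ)
        · rw [← hc, ← hc', ih']
        · have hx : ((t + 1 : ℕ) : ℤ) ∈ X g A := by
            rw [X, Finset.mem_filter, Finset.mem_Ico, e]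
            exact ⟨by omega, hc'⟩
          have h1 : (((t + 1 : ℕ) : ℤ), C g ((t + 1 : ℕ) : ℤ)) ∈ Tc g A :=
            Tc_mem.2 ⟨Or.inr hx, rfl⟩
          rw [← h] at h1
          exact (Tc_mem.1 h1).2
      · have hx : ((t + 1 : ℕ) : ℤ) ∈ X f A := by
          rw [X, Finset.mem_filter, Finset.mem_Ico, e]
          exact ⟨by omega, hc⟩
        have h1 : (((t + 1 : ℕ) : ℤ), C f ((t + 1 : ℕ) : ℤ)) ∈ Tc f A :=
          Tc_mem.2 ⟨Or.inr hx, rfl⟩
        rw [h] at h1
        exact (Tc_mem.1 h1).2.symm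
  apply encl_unique hf.step hf.inj hg.step hg.inj h3 _ (hf.f0.trans hg.f0.symm)
    (hf.f1.trans hg.f1.symm)
  rintro ⟨a, b⟩
  by_cases ha : 0 ≤ a ∧ a < A
  · have := key a.toNat (by omega)
    rw [Int.toNat_of_nonneg ha.1] at this
    exact encl_congr hf hg h3 this b
  · constructor
    · intro hE
      have := encl_box hf.step hbf.hx hbf.hy hE
      exact absurd ⟨this.1, this.2.1⟩ ha
    · intro hE
      have := encl_box hg.step hbg.hx hbg.hy hE
      exact absurd ⟨this.1, this.2.1⟩ ha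

end

/-- the number of subsets with at most `r` elements -/
lemma card_small {α : Type*} [DecidableEq α] (U : Finset α) (r : ℕ) :
    (U.powerset.filter (fun T => T.card ≤ r)).card ≤ (U.card + 1) ^ r := by
  classical
  have h1 : (Fintype.piFinset (fun _ : Fin r => (insertNone U))).card = (U.card + 1) ^ r := by
    rw [Fintype.card_piFinset]
    simp
  rw [← h1]
  apply Finset.card_le_card_of_surjOn (fun g => univ.biUnion (fun i : Fin r => (g i).toFinset))
  intro T hT
  simp only [Finset.coe_filter, Finset.mem_powerset, Set.mem_setOf_eq] at hT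
  obtain ⟨hTU, hTr⟩ := hT
  let e := T.equivFin.symm
  refine ⟨fun i => if h : (i : ℕ) < T.card then some (e ⟨i, h⟩ : T).1 else none, ?_, ?_⟩
  · rw [Finset.mem_coe, Fintype.mem_piFinset]
    intro i
    split_ifs with h
    · rw [Finset.some_mem_insertNone]
      exact hTU (e ⟨i, h⟩).2
    · exact Finset.none_mem_insertNone
  · ext x
    simp only [Finset.mem_biUnion, Finset.mem_univ, true_and, Option.mem_toFinset, Option.mem_def]
    constructor
    · rintro ⟨i, hi⟩
      split_ifs at hi with h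
      simp only [Option.some.injEq] at hi
      rw [← hi]
      exact (e ⟨i, h⟩).2
    · intro hx
      refine ⟨⟨(T.equivFin ⟨x, hx⟩ : ℕ), by have := (T.equivFin ⟨x, hx⟩).2; omega⟩, ?_⟩
      rw [dif_pos (T.equivFin ⟨x, hx⟩).2]
      simp [e]

/-- the counting lemma -/
lemma count_le {n : ℕ} [NeZero n] (h3 : 3 ≤ n) {A B : ℕ} (F : Finset (ZMod n → ℤ × ℤ))
    (Pos : Finset ℤ) (Val : Finset (Finset ℤ)) (J : ℕ)
    (hF : ∀ f ∈ F, Good f ∧ (∃ y0, Box f A B y0) ∧ (X f A).card ≤ J ∧
      (∀ x, x = 0 ∨ x ∈ X f A → x ∈ Pos ∧ C f x ∈ Val)) :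
    F.card ≤ (Pos.card * Val.card + 1) ^ (J + 1) := by
  classical
  have h1 := card_small (Pos ×ˢ Val) (J + 1)
  rw [Finset.card_product] at h1
  refine le_trans ?_ h1
  apply Finset.card_le_card_of_injOn (fun f => Tc f A)
  · intro f hf
    obtain ⟨hg, hb, hX, hv⟩ := hF f hf
    simp only [Finset.coe_filter, Finset.mem_powerset, Set.mem_setOf_eq]
    refine ⟨?_, (Tc_card A).trans (by omega)⟩
    rintro ⟨x, c⟩ hx
    rw [Tc_mem] at hx
    obtain ⟨hx1, rfl⟩ := hx
    exact Finset.mem_product.2 (hv x hx1)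
  · intro f hf g hg h
    obtain ⟨hf1, ⟨y0, hb⟩, -⟩ := hF f hf
    obtain ⟨hg1, ⟨y0', hb'⟩, -⟩ := hF g hg
    exact Tc_inj hf1 hg1 h3 hb hb' h

end H404SAP
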