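import Pool.Agent.H404R3.PolyChanges

/-!
# Counting polygons with few missing cells
-/

namespace H404SAP

open Finset

set_option linter.unusedSectionVars false

section

variable {n : ℕ} [NeZero n]

lemma sqrt_mul_le (a x : ℕ) (ha : 1 ≤ a) : Nat.sqrt (a * x) ≤ a * (Nat.sqrt x + 1) := by
  have h1 : x < (Nat.sqrt x + 1) ^ 2 := Nat.lt_succ_sqrt' x
  have h2 : Nat.sqrt (a * x) < a * (Nat.sqrt x + 1) := by
    rw [Nat.sqrt_lt']
    calc a * x < a * (Nat.sqrt x + 1) ^ 2 := Nat.mul_lt_mul_of_pos_left h1 ha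
      _ ≤ a * (a * (Nat.sqrt x + 1) ^ 2) := Nat.le_mul_of_pos_left _ ha
      _ = (a * (Nat.sqrt x + 1)) ^ 2 := by ring
  exact h2.le

/-- polygons with perimeter equal to that of the bounding box and `d` missing cells -/
lemma count0 (h3 : 3 ≤ n) {A B d : ℕ} (hA : 1 ≤ A) (hn : 2 * A + 2 * B = n)
    (F : Finset (ZMod n → ℤ × ℤ))
    (hF : ∀ f ∈ F, Good f ∧ (∃ y0, Box f A B y0) ∧ area f + d = A * B) :
    F.card ≤ (15 * (d + 1)) ^ (15 * (Nat.sqrt d + 1)) := by
  classical
  let Pos : Finset ℤ := Icc 0 (d : ℤ) ∪ Icc ((A : ℤ) - d) A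
  let Wd : Finset ℤ := Icc (-(d : ℤ)) d ∪ Icc ((B : ℤ) - 2 * d) B
  let Val : Finset (Finset ℤ) := Wd.powerset.filter (fun T => T.card ≤ 2)
  have hPos : Pos.card ≤ 2 * d + 2 := by
    refine (Finset.card_union_le _ _).trans ?_
    rw [Int.card_Icc, Int.card_Icc]
    omega
  have hWd : Wd.card ≤ 4 * d + 2 := by
    refine (Finset.card_union_le _ _).trans ?_
    rw [Int.card_Icc, Int.card_Icc]
    omega
  have hVal : Val.card ≤ (4 * d + 3) ^ 2 :=
    (card_small Wd 2).trans (Nat.pow_le_pow_left (by omega) 2)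
  have h1 := count_le h3 (A := A) (B := B) F Pos Val (2 * Nat.sqrt (2 * d)) (by
    intro f hf
    obtain ⟨hg, ⟨y0, hb⟩, hd⟩ := hF f hf
    have hm := area_add_mis hg.step hb
    have hmd : (Mis f A B y0).card = d := by omega
    have hch := changes hg h3 (e := 0) hb (by omega)
    rw [hmd] at hch
    refine ⟨hg, ⟨y0, hb⟩, by omega, ?_⟩
    obtain ⟨α, β, -, -, hsum, hE⟩ := structure_of hg.step hg.inj h3 hb.hx hb.hy hb.hx0 hb.hx1
      hb.hy0 hb.hy1 hn hA hg.f0 hg.f1 hg.lex
    have hα : ∀ i, α i ≤ d := by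
      intro i
      have : α i ≤ ∑ i, α i := Finset.single_le_sum (fun _ _ => Nat.zero_le _) (mem_univ i)
      omega
    have hβ : ∀ i, β i ≤ d := by
      intro i
      have : β i ≤ ∑ i, β i := Finset.single_le_sum (fun _ _ => Nat.zero_le _) (mem_univ i)
      omega
    have hCx : ∀ x : ℤ, 0 ≤ x → x < A → C f x ∈ Val := by
      intro x hx0 hx1
      let i : Fin A := ⟨x.toNat, by omega⟩
      have hxi : x = ((i : ℕ) : ℤ) := by
        show x = ((x.toNat : ℕ) : ℤ)
        omega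
      have hEx : ∀ b, Encl f (x, b) ↔ (β i : ℤ) - β ⟨0, hA⟩ ≤ b ∧ b < (B : ℤ) - β ⟨0, hA⟩ - α i := by
        intro b
        rw [hE]
        constructor
        · rintro ⟨j, hj, h⟩
          have : j = i := Fin.ext (by omega)
          rw [this] at h
          exact h
        · intro h
          exact ⟨i, hxi, h⟩
      have hsub : C f x ⊆ {(β i : ℤ) - β ⟨0, hA⟩, (B : ℤ) - β ⟨0, hA⟩ - α i} := by
        intro y hy
        rw [mem_C_iff hg h3, hEx, hEx] at hy
        rw [Finset.mem_insert, Finset.mem_singleton]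
        omega
      have ha := hα i
      have hb' := hβ i
      have hb0 := hβ ⟨0, hA⟩
      rw [Finset.mem_filter, Finset.mem_powerset]
      refine ⟨hsub.trans ?_, (Finset.card_le_card hsub).trans Finset.card_le_two⟩
      intro y hy
      rw [Finset.mem_insert, Finset.mem_singleton] at hy
      rw [Finset.mem_union, Finset.mem_Icc, Finset.mem_Icc]
      omega
    intro x hx
    rcases hx with rfl | hx
    · refine ⟨?_, hCx 0 le_rfl (by omega)⟩
      rw [Finset.mem_union, Finset.mem_Icc]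
      left; omega
    · have hx' := hx
      rw [X, Finset.mem_filter, Finset.mem_Ico] at hx'
      refine ⟨?_, hCx x (by omega) hx'.1.2⟩
      rw [Finset.mem_union, Finset.mem_Icc, Finset.mem_Icc]
      have := hch.2 rfl x hx
      omega)
  refine h1.trans ?_
  have h2 : Pos.card * Val.card + 1 ≤ (15 * (d + 1)) ^ 3 := by
    have : Pos.card * Val.card ≤ (2 * d + 2) * (4 * d + 3) ^ 2 := Nat.mul_le_mul hPos hVal
    nlinarith [Nat.zero_le d, Nat.zero_le (d ^ 2), Nat.zero_le (d ^ 3)]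
  have h4 := sqrt_mul_le 2 d (by norm_num)
  calc (Pos.card * Val.card + 1) ^ (2 * Nat.sqrt (2 * d) + 1)
      ≤ ((15 * (d + 1)) ^ 3) ^ (2 * Nat.sqrt (2 * d) + 1) := Nat.pow_le_pow_left h2 _
    _ = (15 * (d + 1)) ^ (3 * (2 * Nat.sqrt (2 * d) + 1)) := by rw [← pow_mul]
    _ ≤ (15 * (d + 1)) ^ (15 * (Nat.sqrt d + 1)) := Nat.pow_le_pow_right (by omega) (by omega)

end

/-- polygons of half-perimeter `2 k` with given box, excess at most `E` and at most `D` missing
cells -/
lemma count1 {k : ℕ} (hk : 1 ≤ k) [NeZero (2 * (2 * k))] {A B e E D : ℕ} (hA : 1 ≤ A)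
    (hn : 2 * A + 2 * B + 2 * e = 2 * (2 * k)) (he : e ≤ E)
    (F : Finset (ZMod (2 * (2 * k)) → ℤ × ℤ))
    (hF : ∀ f ∈ F, Good f ∧ ∃ y0, Box f A B y0 ∧ (Mis f A B y0).card ≤ D) :
    F.card ≤ ((4 * k + 2) ^ (2 * E + 3)) ^ (2 * Nat.sqrt (2 * D) + 6 * E + 1) := by
  classical
  have h3 : 3 ≤ 2 * (2 * k) := by omega
  let Pos : Finset ℤ := Ico 0 (2 * k : ℤ)
  let Wd : Finset ℤ := Icc (-(2 * k : ℤ)) (2 * k)
  let Val : Finset (Finset ℤ) := Wd.powerset.filter (fun T => T.card ≤ 2 * E + 2)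
  have hPos : Pos.card = 2 * k := by
    rw [Int.card_Ico]; omega
  have hWd : Wd.card = 4 * k + 1 := by
    rw [Int.card_Icc]; omega
  have hVal : Val.card ≤ (4 * k + 2) ^ (2 * E + 2) := by
    have := card_small Wd (2 * E + 2)
    rw [hWd] at this
    exact this
  have h1 := count_le h3 (A := A) (B := B) F Pos Val (2 * Nat.sqrt (2 * D) + 6 * E) (by
    intro f hf
    obtain ⟨hg, y0, hb, hD⟩ := hF f hf
    have hch := (changes hg h3 (e := e) hb (by omega)).1
    have hsq : Nat.sqrt (2 * (Mis f A B y0).card) ≤ Nat.sqrt (2 * D) :=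
      Nat.sqrt_le_sqrt (by omega)
    refine ⟨hg, ⟨y0, hb⟩, by omega, ?_⟩
    have hCx : ∀ x : ℤ, 0 ≤ x → x < A → C f x ∈ Val := by
      intro x hx0 hx1
      rw [Finset.mem_filter, Finset.mem_powerset]
      constructor
      · intro y hy
        rw [mem_C] at hy
        obtain ⟨j, -, rfl⟩ := hy
        have b1 := hb.hy j
        have b2 := hb.hy 0
        rw [hg.f0] at b2
        simp only at b2
        rw [Finset.mem_Icc]
        omega
      · refine (card_C_le x).trans ?_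
        obtain ⟨k0, hk0⟩ := hb.hx0
        obtain ⟨k1, hk1⟩ := hb.hx1
        obtain ⟨l0, hl0⟩ := hb.hy0
        obtain ⟨l1, hl1⟩ := hb.hy1
        have c1 : ∀ a ∈ Ico (0 : ℤ) A, 2 ≤ cnt (fun k => Hor f a k) := by
          intro a ha
          rw [Finset.mem_Ico] at ha
          exact hor_two hg.step (i := k0) (j := k1) (by omega) (by omega)
        have c2 : ∀ b ∈ Ico y0 (y0 + B), 2 ≤ cnt (fun k => Ver f b k) := by
          intro a ha
          rw [Finset.mem_Ico] at ha
          exact ver_two hg.step (i := l0) (j := l1) (by omega) (by omega)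
        have ht := total_le hg.step (Ico (0 : ℤ) A) (Ico y0 (y0 + B))
        have s1 : ∑ _a ∈ Ico (0 : ℤ) A, 2 = 2 * A := by
          rw [Finset.sum_const, Int.card_Ico, smul_eq_mul]; omega
        have s2 : ∑ _b ∈ Ico y0 (y0 + B), 2 = 2 * B := by
          rw [Finset.sum_const, Int.card_Ico, smul_eq_mul]; omega
        have d2 := Finset.sum_le_sum c2
        have hsum : ∑ a ∈ Ico (0 : ℤ) A, (cnt (fun k => Hor f a k) - 2) ≤ 2 * e := by
          have : ∑ a ∈ Ico (0 : ℤ) A, (cnt (fun k => Hor f a k) - 2) + ∑ _a ∈ Ico (0 : ℤ) A, 2 =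
              ∑ a ∈ Ico (0 : ℤ) A, cnt (fun k => Hor f a k) := by
            rw [← Finset.sum_add_distrib]
            exact Finset.sum_congr rfl fun b hb => Nat.sub_add_cancel (c1 b hb)
          omega
        have hx : x ∈ Ico (0 : ℤ) A := Finset.mem_Ico.2 ⟨hx0, hx1⟩
        have := Finset.single_le_sum (f := fun a => cnt (fun k => Hor f a k) - 2)
          (fun _ _ => Nat.zero_le _) hx
        omega
    intro x hx
    rcases hx with rfl | hx
    · refine ⟨Finset.mem_Ico.2 ⟨le_rfl, by omega⟩, hCx 0 le_rfl (by omega)⟩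
    · rw [X, Finset.mem_filter, Finset.mem_Ico] at hx
      exact ⟨Finset.mem_Ico.2 ⟨by omega, by omega⟩, hCx x (by omega) hx.1.2⟩)
  refine h1.trans (Nat.pow_le_pow_left ?_ _)
  have h5 : 1 ≤ (4 * k + 2) ^ (2 * E + 2) := Nat.one_le_pow _ _ (by omega)
  calc Pos.card * Val.card + 1 ≤ 2 * k * (4 * k + 2) ^ (2 * E + 2) + (4 * k + 2) ^ (2 * E + 2) := by
        rw [hPos]
        have := Nat.mul_le_mul_left (2 * k) hVal
        omega
    _ ≤ (4 * k + 2) * (4 * k + 2) ^ (2 * E + 2) := by nlinarith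
    _ = (4 * k + 2) ^ (2 * E + 3) := by rw [← pow_succ']

end H404SAP
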