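import Pool.Agent.H404R3.PolyLaw

/-!
# The partition function at half-perimeter `m = 2 k + r`, `r ≤ 1`, for every `q > 1`
-/

namespace H404SAP

open Finset Filter Topology

set_option linter.unusedSectionVars false

/-- polygons of half-perimeter `m` with given box, excess at most `E` and at most `D` missing
cells -/
lemma count1g {m : ℕ} (hm : 2 ≤ m) [NeZero (2 * m)] {A B e E D : ℕ} (hA : 1 ≤ A)
    (hn : 2 * A + 2 * B + 2 * e = 2 * m) (he : e ≤ E)
    (F : Finset (ZMod (2 * m) → ℤ × ℤ))
    (hF : ∀ f ∈ F, Good f ∧ ∃ y0, Box f A B y0 ∧ (Mis f A B y0).card ≤ D) :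
    F.card ≤ ((2 * m + 2) ^ (2 * E + 3)) ^ (2 * Nat.sqrt (2 * D) + 6 * E + 1) := by
  classical
  have h3 : 3 ≤ 2 * m := by omega
  let Pos : Finset ℤ := Ico 0 (m : ℤ)
  let Wd : Finset ℤ := Icc (-(m : ℤ)) m
  let Val : Finset (Finset ℤ) := Wd.powerset.filter (fun T => T.card ≤ 2 * E + 2)
  have hPos : Pos.card = m := by
    rw [Int.card_Ico]; omega
  have hWd : Wd.card = 2 * m + 1 := by
    rw [Int.card_Icc]; omega
  have hVal : Val.card ≤ (2 * m + 2) ^ (2 * E + 2) := by
    have := card_small Wd (2 * E + 2)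
    rw [hWd] at this
    exact this
  have h1 := count_le h3 (A := A) (B := B) F Pos Val (2 * Nat.sqrt (2 * D) + 6 * E) (by
    intro f hf
    obtain ⟨hg, y0, hb, hD⟩ := hF f hf
    have hch := (changes hg h3 (e := e) hb (by omega)).1
    have hsq : Nat.sqrt (2 * (Mis f A B y0).card) ≤ Nat.sqrt (2 * D) :=
      Nat.sqrt_le_sqrt (by omega)
    refine ⟨hg, ⟨y0, hb⟩, by omega, ?_⟩
    have hCx : ∀ x : ℤ, 0 ≤ x → x < A → C f x ∈ Val := by
      intro x hx0 hx1
      rw [Finset.mem_filter, Finset.mem_powerset]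
      constructor
      · intro y hy
        rw [mem_C] at hy
        obtain ⟨j, -, rfl⟩ := hy
        have b1 := hb.hy j
        have b2 := hb.hy 0
        rw [hg.f0] at b2
        simp only at b2
        rw [Finset.mem_Icc]
        omega
      · refine (card_C_le x).trans ?_
        obtain ⟨k0, hk0⟩ := hb.hx0
        obtain ⟨k1, hk1⟩ := hb.hx1
        obtain ⟨l0, hl0⟩ := hb.hy0
        obtain ⟨l1, hl1⟩ := hb.hy1
        have c1 : ∀ a ∈ Ico (0 : ℤ) A, 2 ≤ cnt (fun k => Hor f a k) := by
          intro a ha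
          rw [Finset.mem_Ico] at ha
          exact hor_two hg.step (i := k0) (j := k1) (by omega) (by omega)
        have c2 : ∀ b ∈ Ico y0 (y0 + B), 2 ≤ cnt (fun k => Ver f b k) := by
          intro a ha
          rw [Finset.mem_Ico] at ha
          exact ver_two hg.step (i := l0) (j := l1) (by omega) (by omega)
        have ht := total_le hg.step (Ico (0 : ℤ) A) (Ico y0 (y0 + B))
        have s1 : ∑ _a ∈ Ico (0 : ℤ) A, 2 = 2 * A := by
          rw [Finset.sum_const, Int.card_Ico, smul_eq_mul]; omega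
        have s2 : ∑ _b ∈ Ico y0 (y0 + B), 2 = 2 * B := by
          rw [Finset.sum_const, Int.card_Ico, smul_eq_mul]; omega
        have d2 := Finset.sum_le_sum c2
        have hsum : ∑ a ∈ Ico (0 : ℤ) A, (cnt (fun k => Hor f a k) - 2) ≤ 2 * e := by
          have : ∑ a ∈ Ico (0 : ℤ) A, (cnt (fun k => Hor f a k) - 2) + ∑ _a ∈ Ico (0 : ℤ) A, 2 =
              ∑ a ∈ Ico (0 : ℤ) A, cnt (fun k => Hor f a k) := by
            rw [← Finset.sum_add_distrib]
            exact Finset.sum_congr rfl fun b hb => Nat.sub_add_cancel (c1 b hb)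
          omega
        have hx : x ∈ Ico (0 : ℤ) A := Finset.mem_Ico.2 ⟨hx0, hx1⟩
        have := Finset.single_le_sum (f := fun a => cnt (fun k => Hor f a k) - 2)
          (fun _ _ => Nat.zero_le _) hx
        omega
    intro x hx
    rcases hx with rfl | hx
    · refine ⟨Finset.mem_Ico.2 ⟨le_rfl, by omega⟩, hCx 0 le_rfl (by omega)⟩
    · rw [X, Finset.mem_filter, Finset.mem_Ico] at hx
      exact ⟨Finset.mem_Ico.2 ⟨by omega, by omega⟩, hCx x (by omega) hx.1.2⟩)
  refine h1.trans (Nat.pow_le_pow_left ?_ _)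
  have h5 : 1 ≤ (2 * m + 2) ^ (2 * E + 2) := Nat.one_le_pow _ _ (by omega)
  calc Pos.card * Val.card + 1 ≤ m * (2 * m + 2) ^ (2 * E + 2) + (2 * m + 2) ^ (2 * E + 2) := by
        rw [hPos]
        have := Nat.mul_le_mul_left m hVal
        omega
    _ ≤ (2 * m + 2) * (2 * m + 2) ^ (2 * E + 2) := by nlinarith
    _ = (2 * m + 2) ^ (2 * E + 3) := by rw [← pow_succ']


lemma width_sumg (k r : ℕ) (hr : r ≤ 1) {q : ℝ} (hq : 1 < q) :
    ∑ A ∈ range (2 * k + r + 1), q ^ (A * (2 * k + r - A)) ≤
      (2 / (1 - q⁻¹)) * q * q ^ (k * (k + r)) := by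
  have hq0 : 0 < q := by linarith
  have hq1 : 1 ≤ q := hq.le
  set w : ℝ := q⁻¹ with hw
  have hw0 : 0 < w := inv_pos.2 hq0
  have hw1 : w < 1 := inv_lt_one_of_one_lt₀ hq
  have hqw : w * q = 1 := inv_mul_cancel₀ hq0.ne'
  have hhalf : ∀ j : ℕ, w ^ j * q ^ j = 1 := by
    intro j
    rw [← mul_pow, hqw, one_pow]
  have hgeo : ∀ M : ℕ, ∑ j ∈ range M, w ^ j ≤ 1 / (1 - w) := by
    intro M
    rw [one_div]
    have := (hasSum_geometric_of_lt_one hw0.le hw1)
    exact sum_le_hasSum _ (fun _ _ => pow_nonneg hw0.le _) this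
  have hkey : ∀ (a j : ℕ), a + j ≤ k * (k + r) + 1 → q ^ a ≤ q ^ (k * (k + r) + 1) * w ^ j := by
    intro a j haj
    calc q ^ a = q ^ a * (w ^ j * q ^ j) := by rw [hhalf, mul_one]
      _ = q ^ (a + j) * w ^ j := by rw [pow_add]; ring
      _ ≤ q ^ (k * (k + r) + 1) * w ^ j := mul_le_mul_of_nonneg_right (pow_le_pow_right₀ hq1 haj)
          (pow_nonneg hw0.le _)
  have hterm : ∀ A ∈ range (2 * k + r + 1), q ^ (A * (2 * k + r - A)) ≤
      q ^ (k * (k + r) + 1) * ((if A ≤ k then w ^ (k - A) else 0) +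
        (if k ≤ A then w ^ (A - k) else 0)) := by
    intro A hA
    rw [Finset.mem_range] at hA
    have h7 : 0 ≤ q ^ (k * (k + r) + 1) := pow_nonneg hq0.le _
    rcases le_total A k with h | h
    · rw [if_pos h]
      have h2 : 0 ≤ (if k ≤ A then w ^ (A - k) else 0) := by
        split_ifs <;> positivity
      have e : A * (2 * k + r - A) + (k - A) ≤ k * (k + r) + 1 := by
        obtain ⟨d, rfl⟩ := Nat.exists_eq_add_of_le h
        have e1 : 2 * (A + d) + r - A = A + 2 * d + r := by omega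
        have e2 : A + d - A = d := by omega
        rw [e1, e2]
        nlinarith [Nat.le_mul_self d]
      exact (hkey _ _ e).trans (mul_le_mul_of_nonneg_left (by linarith) h7)
    · rw [if_pos h]
      have h2 : 0 ≤ (if A ≤ k then w ^ (k - A) else 0) := by
        split_ifs <;> positivity
      have e : A * (2 * k + r - A) + (A - k) ≤ k * (k + r) + 1 := by
        obtain ⟨d, rfl⟩ := Nat.exists_eq_add_of_le h
        have hd : d ≤ k + r := by omega
        obtain ⟨c, hc⟩ := Nat.exists_eq_add_of_le hd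
        have e1 : 2 * k + r - (k + d) = c := by omega
        have e2 : k + d - k = d := by omega
        rw [e1, e2]
        have h5 : k + r = d + c := hc
        rw [h5]
        have h6 : r = 0 ∨ r = 1 := by omega
        rcases h6 with rfl | rfl
        · have : k = d + c := by omega
          subst this
          nlinarith [Nat.le_mul_self d]
        · have : k + 1 = d + c := by omega
          rcases Nat.eq_zero_or_pos d with rfl | hd0
          · nlinarith
          · obtain ⟨t, rfl⟩ : ∃ t, d = t + 1 := ⟨d - 1, by omega⟩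
            have : k = t + c := by omega
            subst this
            nlinarith [Nat.le_mul_self t]
      exact (hkey _ _ e).trans (mul_le_mul_of_nonneg_left (by linarith) h7)
  refine (Finset.sum_le_sum hterm).trans ?_
  rw [← Finset.mul_sum, Finset.sum_add_distrib]
  have s1 : ∑ A ∈ range (2 * k + r + 1), (if A ≤ k then w ^ (k - A) else 0) ≤ 1 / (1 - w) := by
    rw [← Finset.sum_filter]
    have : (range (2 * k + r + 1)).filter (fun A => A ≤ k) = range (k + 1) := by
      ext A
      simp only [Finset.mem_filter, Finset.mem_range]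
      omega
    rw [this]
    refine le_trans (le_of_eq ?_) (hgeo (k + 1))
    rw [← Finset.sum_range_reflect]
    refine Finset.sum_congr rfl fun j hj => ?_
    rw [Finset.mem_range] at hj
    congr 1
    omega
  have s2 : ∑ A ∈ range (2 * k + r + 1), (if k ≤ A then w ^ (A - k) else 0) ≤ 1 / (1 - w) := by
    rw [← Finset.sum_filter]
    have : (range (2 * k + r + 1)).filter (fun A => k ≤ A) = Ico k (2 * k + r + 1) := by
      ext A
      simp only [Finset.mem_filter, Finset.mem_range, Finset.mem_Ico]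
      omega
    rw [this, Finset.sum_Ico_eq_sum_range]
    refine le_trans (le_of_eq ?_) (hgeo (2 * k + r + 1 - k))
    refine Finset.sum_congr rfl fun j _ => ?_
    congr 1
    omega
  have h7 : 0 ≤ q ^ (k * (k + r) + 1) := pow_nonneg hq0.le _
  calc q ^ (k * (k + r) + 1) * (∑ A ∈ range (2 * k + r + 1), (if A ≤ k then w ^ (k - A) else 0) +
        ∑ A ∈ range (2 * k + r + 1), (if k ≤ A then w ^ (A - k) else 0))
      ≤ q ^ (k * (k + r) + 1) * (1 / (1 - w) + 1 / (1 - w)) :=
        mul_le_mul_of_nonneg_left (add_le_add s1 s2) h7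
    _ = (2 / (1 - w)) * q * q ^ (k * (k + r)) := by rw [pow_succ]; ring

lemma four_AB {k r A B e : ℕ} (hr : r ≤ 1) (he : A + B + e = 2 * k + r) (he1 : 1 ≤ e) :
    2 * (A * B) + k * e ≤ 2 * (k * (k + r)) := by
  have h5 : 4 * (A * B) ≤ (A + B) ^ 2 := by
    zify; nlinarith [sq_nonneg ((A : ℤ) - B)]
  obtain ⟨t, ht⟩ : ∃ t, t = A + B := ⟨_, rfl⟩
  rw [← ht] at h5 he
  have h6 : r = 0 ∨ r = 1 := by omega
  rcases h6 with rfl | rfl
  · have h7 : 4 * (k * (k + 0)) = (t + e) ^ 2 := by rw [he]; ring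
    have h8 : 2 * (k * e) = (t + e) * e := by rw [he]; ring
    nlinarith
  · have h7 : 4 * (k * (k + 1)) + 1 = (t + e) ^ 2 := by rw [he]; ring
    have h8 : 2 * (k * e) + e = (t + e) * e := by rw [he]; ring
    nlinarith

end H404SAP
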