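import Pool.Agent.H404R3.PolyReg

/-!
# The data describing the polygons of nearly maximal area
-/

namespace H404SAP

open Finset

set_option linter.unusedSectionVars false

/-- `x = (j, (λ₀, λ₁, λ₂, λ₃))` with partitions `λ_i`, written as weakly decreasing finitely
supported sequences, and `j (j + r) + |λ₀| + |λ₁| + |λ₂| + |λ₃| = d` -/
def IsData (r d : ℕ) (x : ℤ × (Fin 4 → ℕ →₀ ℕ)) : Prop :=
  (∀ i, Antitone (x.2 i)) ∧ x.1 * (x.1 + r) + ((∑ i, (x.2 i).sum fun _ t => t : ℕ) : ℤ) = d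

/-- the number of such data -/
noncomputable def coef (r d : ℕ) : ℕ := Nat.card {x : ℤ × (Fin 4 → ℕ →₀ ℕ) // IsData r d x}

lemma jj_nonneg {r : ℕ} (hr : r ≤ 1) (j : ℤ) : 0 ≤ j * (j + r) := by
  have h6 : r = 0 ∨ r = 1 := by omega
  rcases h6 with rfl | rfl
  · push_cast
    nlinarith [sq_nonneg j]
  · push_cast
    rcases le_or_gt 0 j with h | h
    · nlinarith
    · have : j + 1 ≤ 0 := by omega
      nlinarith

lemma jj_bound {r d : ℕ} (hr : r ≤ 1) {j : ℤ} (h : j * (j + r) ≤ d) :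
    -((d : ℤ) + 1) ≤ j ∧ j ≤ d := by
  have hr' : (r : ℤ) ≤ 1 := by exact_mod_cast hr
  have hr0 : (0 : ℤ) ≤ r := Int.natCast_nonneg _
  have hd0 : (0 : ℤ) ≤ d := Int.natCast_nonneg _
  constructor
  · by_contra hcon
    have h1 : (d : ℤ) + 2 ≤ -j := by omega
    have h2 : (d : ℤ) + 1 ≤ -(j + r) := by omega
    nlinarith
  · by_contra hcon
    have h1 : (d : ℤ) + 1 ≤ j := by omega
    have h2 : (d : ℤ) + 1 ≤ j + r := by omega
    nlinarith

lemma pt_of {d : ℕ} {l : ℕ →₀ ℕ} (ha : Antitone l) (hd : (l.sum fun _ t => t) ≤ d) :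
    Pt (d + 1) l ∧ (l.sum fun _ t => t) = size (d + 1) l := by
  have hj : ∀ j, l j ≠ 0 → j < d + 1 := by
    intro j hj
    have h1 : range (j + 1) ⊆ l.support := by
      intro i hi
      rw [Finset.mem_range] at hi
      rw [Finsupp.mem_support_iff]
      have := ha (show i ≤ j by omega)
      omega
    have h2 : ∑ _i ∈ range (j + 1), 1 ≤ ∑ i ∈ range (j + 1), l i := by
      apply Finset.sum_le_sum
      intro i hi
      rw [Finset.mem_range] at hi
      have := ha (show i ≤ j by omega)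
      omega
    have h3 : ∑ i ∈ range (j + 1), l i ≤ ∑ i ∈ l.support, l i :=
      Finset.sum_le_sum_of_subset h1
    rw [Finset.sum_const, Finset.card_range, smul_eq_mul, mul_one] at h2
    have h4 : (l.sum fun _ t => t) = ∑ i ∈ l.support, l i := rfl
    omega
  have hsz : (l.sum fun _ t => t) = size (d + 1) l := by
    apply Finsupp.sum_of_support_subset
    · intro j h
      rw [Finsupp.mem_support_iff] at h
      exact Finset.mem_range.2 (hj j h)
    · intro i _
      rfl
  refine ⟨⟨ha, ?_, ?_⟩, hsz⟩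
  · intro j h
    by_contra hcon
    have := hj j hcon
    omega
  · intro j
    by_cases h : j < d + 1
    · have h1 : l j ≤ size (d + 1) l :=
        Finset.single_le_sum (f := fun j => l j) (fun _ _ => Nat.zero_le _) (Finset.mem_range.2 h)
      omega
    · by_contra hcon
      have := hj j (by omega)
      omega

lemma card_cols {A : ℕ} {lo hi : ℕ → ℤ} {P : ℤ × ℤ → Prop}
    (hP : ∀ a b, P (a, b) ↔ ∃ i : ℕ, a = i ∧ i < A ∧ lo i ≤ b ∧ b < hi i) :
    Nat.card {c // P c} = ∑ i ∈ range A, (hi i - lo i).toNat := by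
  classical
  have h1 : Nat.card {c // P c} = ((range A).biUnion
      (fun i => (Ico (lo i) (hi i)).image (fun b => ((i : ℤ), b)))).card := by
    apply Nat.subtype_card
    rintro ⟨a, b⟩
    rw [hP, Finset.mem_biUnion]
    constructor
    · rintro ⟨i, hi, h⟩
      rw [Finset.mem_image] at h
      obtain ⟨c, hc, hc2⟩ := h
      rw [Finset.mem_Ico] at hc
      rw [Prod.mk.injEq] at hc2
      exact ⟨i, hc2.1.symm, Finset.mem_range.1 hi, by omega, by omega⟩
    · rintro ⟨i, e1, e2, e3, e4⟩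
      refine ⟨i, Finset.mem_range.2 e2, Finset.mem_image.2 ⟨b, Finset.mem_Ico.2 ⟨e3, e4⟩, ?_⟩⟩
      rw [e1]
  rw [h1, Finset.card_biUnion]
  · refine Finset.sum_congr rfl fun i _ => ?_
    rw [Finset.card_image_of_injective _ (fun b c h => ((Prod.mk.injEq _ _ _ _).mp h).2),
      Int.card_Ico]
  · intro i _ j _ hij
    rw [Function.onFun, Finset.disjoint_left]
    intro c hc hc'
    rw [Finset.mem_image] at hc hc'
    obtain ⟨b, -, rfl⟩ := hc
    obtain ⟨b', -, h⟩ := hc'
    have := ((Prod.mk.injEq _ _ _ _).mp h).1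
    exact hij (by omega)

lemma size_eq {M A : ℕ} {l : ℕ → ℕ} (h : Pt M l) (hA : M ≤ A) :
    ∑ i ∈ range A, l i = size M l := by
  symm
  apply Finset.sum_subset
  · intro i hi
    rw [Finset.mem_range] at hi ⊢
    omega
  · intro i _ hi
    rw [Finset.mem_range] at hi
    exact h.supp i (by omega)

lemma size_eq' {M A : ℕ} {l : ℕ → ℕ} (h : Pt M l) (hA : M ≤ A) :
    ∑ i ∈ range A, l (A - 1 - i) = size M l := by
  rw [Finset.sum_range_reflect, size_eq h hA]

section

variable {n : ℕ} [NeZero n] {f g : ZMod n → ℤ × ℤ}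

lemma area_cell {M : ℕ} {l0 l1 l2 l3 : ℕ → ℕ} {A B : ℕ} (hA : 2 * M + 3 ≤ A)
    (hB : 2 * M + 3 ≤ B) (p0 : Pt M l0) (p1 : Pt M l1) (p2 : Pt M l2) (p3 : Pt M l3) {v : ℤ}
    (hE : ∀ a b, Encl f (a, b) ↔ Cell l0 l1 l2 l3 A B a (b + v)) :
    area f + (size M l0 + size M l1 + size M l2 + size M l3) = A * B := by
  unfold area
  rw [card_cols (A := A) (lo := fun i => (l2 i : ℤ) + l3 (A - 1 - i) - v)
    (hi := fun i => (B : ℤ) - l0 i - l1 (A - 1 - i) - v)]
  · rw [← size_eq p0 (A := A) (by omega), ← size_eq' p1 (A := A) (by omega),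
      ← size_eq p2 (A := A) (by omega), ← size_eq' p3 (A := A) (by omega),
      ← Finset.sum_add_distrib, ← Finset.sum_add_distrib, ← Finset.sum_add_distrib,
      ← Finset.sum_add_distrib]
    rw [Finset.sum_congr rfl (g := fun _ => B)]
    · simp
    · intro i hi
      rw [Finset.mem_range] at hi
      have b0 := p0.bd i
      have b1 := p1.bd (A - 1 - i)
      have b2 := p2.bd i
      have b3 := p3.bd (A - 1 - i)
      by_cases h : i < M
      · have z1 := p1.supp (A - 1 - i) (by omega)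
        have z3 := p3.supp (A - 1 - i) (by omega)
        omega
      · have z0 := p0.supp i (by omega)
        have z2 := p2.supp i (by omega)
        omega
  · intro a b
    rw [hE]
    unfold Cell
    constructor
    · rintro ⟨i, j, e1, e2, e3, e4⟩
      have : j = A - 1 - i := by omega
      subst this
      exact ⟨i, e1, by omega, by omega, by omega⟩
    · rintro ⟨i, e1, e2, e3, e4⟩
      exact ⟨i, A - 1 - i, e1, by omega, by omega, by omega⟩

lemma Good.encl_nonneg (h : Good f) {a b : ℤ} (hE : Encl f (a, b)) : 0 ≤ a := by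
  rw [encl_iff_left h.step] at hE
  obtain ⟨k, -, hk⟩ := cnt_pos (P := fun k => Ver f b k ∧ (f k).1 ≤ a) (by
    intro h0; rw [h0] at hE; exact absurd hE (by decide))
  have := h.lex k
  omega

lemma Good.encl_nonneg' (h : Good f) {b : ℤ} (hE : Encl f (0, b)) : 0 ≤ b := by
  rw [encl_iff_left h.step] at hE
  obtain ⟨k, hk, hk2⟩ := cnt_pos (P := fun k => Ver f b k ∧ (f k).1 ≤ 0) (by
    intro h0; rw [h0] at hE; exact absurd hE (by decide))
  have h1 := h.lex k
  have h2 := h.lex (k + 1)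
  have h3 := h.step.cases k
  unfold Ver at hk
  omega

lemma Good.encl_zero (h : Good f) (h3 : 3 ≤ n) : Encl f (0, 0) := by
  have h1 : ∃ k, Hor f 0 k ∧ (f k).2 = 0 := by
    refine ⟨0, Or.inl ⟨by rw [h.f0], ?_⟩, by rw [h.f0]⟩
    rw [zero_add, h.f1]; rfl
  rw [hor_exists_iff h.step h.inj h3] at h1
  by_contra hcon
  have h2 : ¬ Encl f (0, 0 - 1) := fun hE => by
    have := h.encl_nonneg' hE
    omega
  tauto

/-- the standard position of a region -/
lemma exists_good (h3 : 3 ≤ n) {M : ℕ} {l0 l1 l2 l3 : ℕ → ℕ} {A B : ℕ} (hA : 2 * M + 3 ≤ A)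
    (hB : 2 * M + 3 ≤ B) (p0 : Pt M l0) (p1 : Pt M l1) (p2 : Pt M l2) (p3 : Pt M l3)
    (h : RealN n l0 l1 l2 l3 A B) : ∃ g : ZMod n → ℤ × ℤ, Good g ∧
      ∀ a b, Encl g (a, b) ↔ Cell l0 l1 l2 l3 A B a (b + l2 0) := by
  obtain ⟨f, hs, hf, hE⟩ := h
  obtain ⟨g, u, v, hg, hgE⟩ := normalise hs hf h3
  have hgE' : ∀ a b, Encl g (a, b) ↔ Cell l0 l1 l2 l3 A B (a + u) (b + v) := by
    intro a b
    rw [hgE, hE]
  have h0 := (hgE' 0 0).1 (hg.encl_zero h3)
  obtain ⟨i, j, e1, e2, e3, e4⟩ := h0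
  have hi : i = 0 := by
    by_contra hi
    have h1 : Cell l0 l1 l2 l3 A B (-1 + u) (M + 1) := by
      have b0 := p0.bd (i - 1)
      have b1 := p1.bd (j + 1)
      have b2 := p2.bd (i - 1)
      have b3 := p3.bd (j + 1)
      refine ⟨i - 1, j + 1, by omega, by omega, ?_, ?_⟩
      · by_cases h : i - 1 < M
        · have z3 := p3.supp (j + 1) (by omega)
          omega
        · have z2 := p2.supp (i - 1) (by omega)
          omega
      · by_cases h : i - 1 < M
        · have z3 := p1.supp (j + 1) (by omega)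
          omega
        · have z2 := p0.supp (i - 1) (by omega)
          omega
    have h2 : Encl g (-1, (M : ℤ) + 1 - v) := by
      rw [hgE', sub_add_cancel]
      exact h1
    have := hg.encl_nonneg h2
    omega
  subst hi
  have hu : u = 0 := by omega
  subst hu
  have z3 := p3.supp j (by omega)
  have hv : v = l2 0 := by
    by_contra hv
    have h1 : Cell l0 l1 l2 l3 A B (0 + 0) (-1 + v) := ⟨0, j, by omega, e2, by omega, by omega⟩
    have h2 : Encl g (0, -1) := (hgE' 0 (-1)).2 h1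
    have := hg.encl_nonneg' h2
    omega
  subst hv
  refine ⟨g, hg, fun a b => ?_⟩
  rw [hgE', add_zero]

end

/-- the region determines the data -/
lemma cell_inj {M : ℕ} {l0 l1 l2 l3 l0' l1' l2' l3' : ℕ → ℕ} {A B A' B' : ℕ}
    (hA : 2 * M + 3 ≤ A) (hB : 2 * M + 3 ≤ B) (hA' : 2 * M + 3 ≤ A') (hB' : 2 * M + 3 ≤ B')
    (hAB : A + B = A' + B')
    (p0 : Pt M l0) (p1 : Pt M l1) (p2 : Pt M l2) (p3 : Pt M l3)
    (p0' : Pt M l0') (p1' : Pt M l1') (p2' : Pt M l2') (p3' : Pt M l3') {v v' : ℤ}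
    (h : ∀ a b, Cell l0 l1 l2 l3 A B a (b + v) ↔ Cell l0' l1' l2' l3' A' B' a (b + v')) :
    A = A' ∧ (∀ i, l0 i = l0' i) ∧ (∀ i, l1 i = l1' i) ∧ (∀ i, l2 i = l2' i) ∧
      (∀ i, l3 i = l3' i) := by
  have ne : ∀ {l0 l1 l2 l3 : ℕ → ℕ} {A B : ℕ}, 2 * M + 3 ≤ A → 2 * M + 3 ≤ B → Pt M l0 → Pt M l1 →
      Pt M l2 → Pt M l3 → ∀ i, i < A → (l2 i : ℤ) + l3 (A - 1 - i) ≤ M ∧
        (l0 i : ℤ) + l1 (A - 1 - i) ≤ M := by
    intro l0 l1 l2 l3 A B hA hB p0 p1 p2 p3 i hi
    have b0 := p0.bd i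
    have b1 := p1.bd (A - 1 - i)
    have b2 := p2.bd i
    have b3 := p3.bd (A - 1 - i)
    by_cases h : i < M
    · have z1 := p1.supp (A - 1 - i) (by omega)
      have z3 := p3.supp (A - 1 - i) (by omega)
      omega
    · have z0 := p0.supp i (by omega)
      have z2 := p2.supp i (by omega)
      omega
  have hle : ∀ {l0 l1 l2 l3 l0' l1' l2' l3' : ℕ → ℕ} {A B A' B' : ℕ},
      2 * M + 3 ≤ A → 2 * M + 3 ≤ B → Pt M l0 → Pt M l1 → Pt M l2 → Pt M l3 → ∀ {v v' : ℤ},
      (∀ a b, Cell l0 l1 l2 l3 A B a (b + v) → Cell l0' l1' l2' l3' A' B' a (b + v')) →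
      A ≤ A' := by
    intro l0 l1 l2 l3 l0' l1' l2' l3' A B A' B' hA hB p0 p1 p2 p3 v v' h
    have h1 := ne hA hB p0 p1 p2 p3 (A - 1) (by omega)
    have h2 : Cell l0 l1 l2 l3 A B ((A - 1 : ℕ) : ℤ) ((M : ℤ) + 1 - v + v) := by
      rw [sub_add_cancel]
      exact ⟨A - 1, A - 1 - (A - 1), rfl, by omega, by omega, by omega⟩
    obtain ⟨i, j, e1, e2, -, -⟩ := h _ _ h2
    omega
  have hAA : A = A' := le_antisymm (hle hA hB p0 p1 p2 p3 (fun a b => (h a b).1))
    (hle hA' hB' p0' p1' p2' p3' (fun a b => (h a b).2))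
  subst hAA
  have hBB : B = B' := by omega
  subst hBB
  have hcol : ∀ {l0 l1 l2 l3 l0' l1' l2' l3' : ℕ → ℕ}, Pt M l0 → Pt M l1 → Pt M l2 → Pt M l3 →
      ∀ {v v' : ℤ},
      (∀ a b, Cell l0 l1 l2 l3 A B a (b + v) → Cell l0' l1' l2' l3' A B a (b + v')) →
      ∀ i, i < A → (l2' i : ℤ) + l3' (A - 1 - i) - v' ≤ (l2 i : ℤ) + l3 (A - 1 - i) - v ∧
        (l0' i : ℤ) + l1' (A - 1 - i) + v' ≤ (l0 i : ℤ) + l1 (A - 1 - i) + v := by
    intro l0 l1 l2 l3 l0' l1' l2' l3' p0 p1 p2 p3 v v' h i hi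
    have h1 := ne hA hB p0 p1 p2 p3 i hi
    constructor
    · have h2 : Cell l0 l1 l2 l3 A B (i : ℤ) ((l2 i : ℤ) + l3 (A - 1 - i) - v + v) := by
        rw [sub_add_cancel]
        exact ⟨i, A - 1 - i, rfl, by omega, by omega, by omega⟩
      obtain ⟨i', j, e1, e2, e3, e4⟩ := h _ _ h2
      have : i' = i := by omega
      subst this
      have : j = A - 1 - i' := by omega
      subst this
      omega
    · have h2 : Cell l0 l1 l2 l3 A B (i : ℤ) ((B : ℤ) - 1 - l0 i - l1 (A - 1 - i) - v + v) := by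
        rw [sub_add_cancel]
        exact ⟨i, A - 1 - i, rfl, by omega, by omega, by omega⟩
      obtain ⟨i', j, e1, e2, e3, e4⟩ := h _ _ h2
      have : i' = i := by omega
      subst this
      have : j = A - 1 - i' := by omega
      subst this
      omega
  have c1 := hcol p0 p1 p2 p3 (fun a b => (h a b).1)
  have c2 := hcol p0' p1' p2' p3' (fun a b => (h a b).2)
  have hv : v = v' := by
    have d1 := c1 M (by omega)
    have d2 := c2 M (by omega)
    have z2 := p2.supp M le_rfl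
    have z3 := p3.supp (A - 1 - M) (by omega)
    have z2' := p2'.supp M le_rfl
    have z3' := p3'.supp (A - 1 - M) (by omega)
    omega
  subst hv
  refine ⟨rfl, fun i => ?_, fun j => ?_, fun i => ?_, fun j => ?_⟩
  · by_cases hi : i < M
    · have d1 := c1 i (by omega)
      have d2 := c2 i (by omega)
      have z1 := p1.supp (A - 1 - i) (by omega)
      have z1' := p1'.supp (A - 1 - i) (by omega)
      omega
    · rw [p0.supp i (by omega), p0'.supp i (by omega)]
  · by_cases hi : j < M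
    · have d1 := c1 (A - 1 - j) (by omega)
      have d2 := c2 (A - 1 - j) (by omega)
      have z0 := p0.supp (A - 1 - j) (by omega)
      have z0' := p0'.supp (A - 1 - j) (by omega)
      have e : A - 1 - (A - 1 - j) = j := by omega
      rw [e] at d1 d2
      omega
    · rw [p1.supp j (by omega), p1'.supp j (by omega)]
  · by_cases hi : i < M
    · have d1 := c1 i (by omega)
      have d2 := c2 i (by omega)
      have z1 := p3.supp (A - 1 - i) (by omega)
      have z1' := p3'.supp (A - 1 - i) (by omega)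
      omega
    · rw [p2.supp i (by omega), p2'.supp i (by omega)]
  · by_cases hi : j < M
    · have d1 := c1 (A - 1 - j) (by omega)
      have d2 := c2 (A - 1 - j) (by omega)
      have z0 := p2.supp (A - 1 - j) (by omega)
      have z0' := p2'.supp (A - 1 - j) (by omega)
      have e : A - 1 - (A - 1 - j) = j := by omega
      rw [e] at d1 d2
      omega
    · rw [p3.supp j (by omega), p3'.supp j (by omega)]

end H404SAP
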