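import Pool.Agent.H404R3.PolyLaw

/-!
# Moves on self-avoiding loops: flipping a corner, reflections, translations, normalisation
-/

namespace H404SAP

open Finset

set_option linter.unusedSectionVars false

section

variable {n : ℕ} [NeZero n] {f g : ZMod n → ℤ × ℤ}

/-- the loop uses the edge `u v` -/
def Ed (f : ZMod n → ℤ × ℤ) (u v : ℤ × ℤ) : Prop :=
  ∃ k, (f k = u ∧ f (k + 1) = v) ∨ (f k = v ∧ f (k + 1) = u)

lemma ed_hor (hs : Step f) (hf : Function.Injective f) (h3 : 3 ≤ n) (a y : ℤ) :
    Ed f (a, y) (a + 1, y) ↔ ¬ (Encl f (a, y - 1) ↔ Encl f (a, y)) := by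
  rw [← hor_exists_iff hs hf h3]
  unfold Ed Hor
  constructor
  · rintro ⟨k, ⟨h1, h2⟩ | ⟨h1, h2⟩⟩
    · exact ⟨k, Or.inl ⟨by rw [h1], by rw [h2]⟩, by rw [h1]⟩
    · exact ⟨k, Or.inr ⟨by rw [h1], by rw [h2]⟩, by rw [h1]⟩
  · rintro ⟨k, hk, hy⟩
    have := hs.cases k
    refine ⟨k, ?_⟩
    rcases hk with ⟨h1, h2⟩ | ⟨h1, h2⟩
    · exact Or.inl ⟨Prod.ext h1 hy, Prod.ext h2 (by simp only; omega)⟩
    · exact Or.inr ⟨Prod.ext h1 hy, Prod.ext h2 (by simp only; omega)⟩

lemma ed_ver (hs : Step f) (hf : Function.Injective f) (h3 : 3 ≤ n) (x b : ℤ) :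
    Ed f (x, b) (x, b + 1) ↔ ¬ (Encl f (x - 1, b) ↔ Encl f (x, b)) := by
  rw [← ver_exists_iff hs hf h3]
  unfold Ed Ver
  constructor
  · rintro ⟨k, ⟨h1, h2⟩ | ⟨h1, h2⟩⟩
    · exact ⟨k, Or.inl ⟨by rw [h1], by rw [h2]⟩, by rw [h1]⟩
    · exact ⟨k, Or.inr ⟨by rw [h1], by rw [h2]⟩, by rw [h1]⟩
  · rintro ⟨k, hk, hy⟩
    have := hs.cases k
    refine ⟨k, ?_⟩
    rcases hk with ⟨h1, h2⟩ | ⟨h1, h2⟩
    · exact Or.inl ⟨Prod.ext hy h1, Prod.ext (by simp only; omega) h2⟩
    · exact Or.inr ⟨Prod.ext hy h1, Prod.ext (by simp only; omega) h2⟩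

/-- a vertex all of whose cells are enclosed is not on the loop -/
lemma not_mem_of_encl (hs : Step f) (hf : Function.Injective f) (h3 : 3 ≤ n) {x y : ℤ}
    (h1 : Encl f (x, y)) (h2 : Encl f (x - 1, y)) (h4 : Encl f (x, y - 1))
    (h5 : Encl f (x - 1, y - 1)) (j : ZMod n) : f j ≠ (x, y) := by
  intro hj
  have e1 := ed_hor hs hf h3 x y
  have e2 := ed_hor hs hf h3 (x - 1) y
  have e3 := ed_ver hs hf h3 x y
  have e4 := ed_ver hs hf h3 x (y - 1)
  simp only [h1, h2, h4, h5, not_true_eq_false, iff_false, sub_add_cancel] at e1 e2 e3 e4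
  have hx : (f j).1 = x := by rw [hj]
  have hy : (f j).2 = y := by rw [hj]
  rcases hs.cases j with h | h | h | h
  · exact e1 ⟨j, Or.inl ⟨hj, Prod.ext (by simp only; omega) (by simp only; omega)⟩⟩
  · exact e2 ⟨j, Or.inr ⟨hj, Prod.ext (by simp only; omega) (by simp only; omega)⟩⟩
  · exact e3 ⟨j, Or.inl ⟨hj, Prod.ext (by simp only; omega) (by simp only; omega)⟩⟩
  · exact e4 ⟨j, Or.inr ⟨hj, Prod.ext (by simp only; omega) (by simp only; omega)⟩⟩

lemma one_ne (h3 : 3 ≤ n) : (1 : ZMod n) ≠ 0 := by
  intro h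
  have : ((1 : ℕ) : ZMod n) = 0 := by exact_mod_cast h
  rw [ZMod.natCast_eq_zero_iff] at this
  exact absurd (Nat.le_of_dvd (by norm_num) this) (by omega)

/-- **flip**: a top left corner cell of the enclosed region can be removed -/
lemma flip (hs : Step f) (hf : Function.Injective f) (h3 : 3 ≤ n) {a b : ℤ}
    (c0 : Encl f (a, b)) (hl : ¬ Encl f (a - 1, b)) (hu : ¬ Encl f (a, b + 1))
    (hr : Encl f (a + 1, b)) (hd : Encl f (a, b - 1)) (hrd : Encl f (a + 1, b - 1)) :
    ∃ g : ZMod n → ℤ × ℤ, Step g ∧ Function.Injective g ∧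
      ∀ c, Encl g c ↔ Encl f c ∧ c ≠ (a, b) := by
  classical
  have hw : ∀ j, f j ≠ (a + 1, b) := by
    apply not_mem_of_encl hs hf h3 hr _ hrd
    · rw [add_sub_cancel_right]; exact hd
    · rw [add_sub_cancel_right]; exact c0
  have hH : Ed f (a, b + 1) (a + 1, b + 1) := by
    rw [ed_hor hs hf h3, add_sub_cancel_right]
    tauto
  have hV : Ed f (a, b) (a, b + 1) := by
    rw [ed_ver hs hf h3]
    tauto
  -- the index of the corner
  obtain ⟨i, hi, hnb⟩ : ∃ i, f i = (a, b + 1) ∧
      ((f (i - 1) = (a, b) ∧ f (i + 1) = (a + 1, b + 1)) ∨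
       (f (i - 1) = (a + 1, b + 1) ∧ f (i + 1) = (a, b))) := by
    obtain ⟨k, hk | hk⟩ := hH
    · refine ⟨k, hk.1, ?_⟩
      obtain ⟨l, hl | hl⟩ := hV
      · have e : l + 1 = k := hf (hl.2.trans hk.1.symm)
        left
        refine ⟨?_, hk.2⟩
        rw [← e, add_sub_cancel_right]
        exact hl.1
      · exfalso
        have e : l = k := hf (hl.1.trans hk.1.symm)
        rw [e, hk.2] at hl
        have := (Prod.mk.injEq _ _ _ _).mp hl.2
        omega
    · refine ⟨k + 1, hk.2, ?_⟩
      obtain ⟨l, hl | hl⟩ := hV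
      · exfalso
        have e : l + 1 = k + 1 := hf (hl.2.trans hk.2.symm)
        have e2 : l = k := add_right_cancel e
        rw [e2, hk.1] at hl
        have := (Prod.mk.injEq _ _ _ _).mp hl.1
        omega
      · have e : l = k + 1 := hf (hl.1.trans hk.2.symm)
        right
        rw [add_sub_cancel_right, ← e]
        exact ⟨hk.1, hl.2⟩
  have hi1 : i + 1 ≠ i := fun h => one_ne h3 (by
    have : i + 1 = i + 0 := by rw [add_zero]; exact h
    exact add_left_cancel this)
  set w : ℤ × ℤ := (a + 1, b) with hwdef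
  let g : ZMod n → ℤ × ℤ := fun k => if k = i then w else f k
  have gi : g i = w := if_pos rfl
  have gne : ∀ k, k ≠ i → g k = f k := fun k hk => if_neg hk
  have hk3 : ∀ k, k = i ∨ k = i - 1 ∨ (k ≠ i ∧ k + 1 ≠ i) := by
    intro k
    by_cases h1 : k = i
    · exact Or.inl h1
    · by_cases h2 : k + 1 = i
      · right; left
        rw [← h2, add_sub_cancel_right]
      · exact Or.inr (Or.inr ⟨h1, h2⟩)
  have him : i - 1 ≠ i := by
    intro h
    apply hi1
    rw [← h, sub_add_cancel, h]
  have him1 : i - 1 + 1 = i := sub_add_cancel i 1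
  have c1 : (f i).1 = a := by rw [hi]
  have c2 : (f i).2 = b + 1 := by rw [hi]
  have c3 : (g i).1 = a + 1 := by rw [gi]
  have c4 : (g i).2 = b := by rw [gi]
  have hnb' : ((f (i - 1)).1 = a ∧ (f (i - 1)).2 = b ∧ (f (i + 1)).1 = a + 1 ∧
      (f (i + 1)).2 = b + 1) ∨ ((f (i - 1)).1 = a + 1 ∧ (f (i - 1)).2 = b + 1 ∧
      (f (i + 1)).1 = a ∧ (f (i + 1)).2 = b) := by
    rcases hnb with ⟨h1, h2⟩ | ⟨h1, h2⟩
    · left; rw [h1, h2]; exact ⟨rfl, rfl, rfl, rfl⟩
    · right; rw [h1, h2]; exact ⟨rfl, rfl, rfl, rfl⟩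
  have g1 : g (i + 1) = f (i + 1) := gne _ hi1
  have g2 : g (i - 1) = f (i - 1) := gne _ him
  have gs : Step g := by
    intro k
    rcases hk3 k with h | h | h
    · subst h
      rw [g1]
      rcases hnb' with h | h <;> rw [c3, c4, h.2.2.1, h.2.2.2] <;> norm_num
    · subst h
      rw [him1, g2, c3, c4]
      rcases hnb' with h | h <;> rw [h.1, h.2.1] <;> norm_num
    · rw [gne k h.1, gne (k + 1) h.2]
      exact hs k
  have gf : Function.Injective g := by
    intro k l hkl
    by_cases h1 : k = i <;> by_cases h2 : l = i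
    · rw [h1, h2]
    · rw [h1, gi, gne l h2] at hkl
      exact absurd hkl.symm (hw l)
    · rw [h2, gi, gne k h1] at hkl
      exact absurd hkl (hw k)
    · rw [gne k h1, gne l h2] at hkl
      exact hf hkl
  refine ⟨g, gs, gf, ?_⟩
  rintro ⟨x, y⟩
  by_cases hc : (x, y) = (a, b)
  · have hx : x = a := (Prod.mk.injEq _ _ _ _ ▸ hc).1
    have hy : y = b := (Prod.mk.injEq _ _ _ _ ▸ hc).2
    subst hx
    subst hy
    simp only [ne_eq, not_true_eq_false, and_false, iff_false]
    rw [encl_iff_above] at c0 ⊢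
    rcases hnb' with h | h
    · have := cnt_add (P := fun k => Hor g x k ∧ y < (g k).2) (Q := fun k => k = i)
        (R := fun k => Hor f x k ∧ y < (f k).2) (by
          intro k
          unfold Hor
          rcases hk3 k with hk | hk | hk
          · subst hk; rw [g1]; simp only [or_true, iff_true]; omega
          · subst hk
            rw [him1, g2]; simp only [him, or_false]; omega
          · rw [gne k hk.1, gne (k + 1) hk.2]
            have e : (k = i) ↔ False := iff_of_false hk.1 id
            rw [e]; tauto) (by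
          intro k
          rintro ⟨h1, rfl⟩
          omega)
      have e1 : cnt (fun k : ZMod n => k = i) = 1 := by
        unfold cnt; rw [Finset.card_eq_one]; exact ⟨i, by ext; simp⟩
      rw [this, e1] at c0
      intro h1
      rcases h1 with ⟨s, hs⟩
      rcases c0 with ⟨t, ht⟩
      omega
    · have := cnt_add (P := fun k => Hor g x k ∧ y < (g k).2) (Q := fun k => k = i - 1)
        (R := fun k => Hor f x k ∧ y < (f k).2) (by
          intro k
          unfold Hor
          rcases hk3 k with hk | hk | hk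
          · subst hk; rw [g1]; simp only [him.symm, or_false]; omega
          · subst hk
            rw [him1, g2]; simp only [or_true, iff_true]; omega
          · rw [gne k hk.1, gne (k + 1) hk.2]
            have e : (k = i - 1) ↔ False := iff_of_false (fun h => hk.2 (by rw [h, him1])) id
            rw [e]; tauto) (by
          intro k
          rintro ⟨h1, rfl⟩
          rw [g2] at h1
          unfold Hor at h1
          rw [him1, g2] at h1
          omega)
      have e1 : cnt (fun k : ZMod n => k = i - 1) = 1 := by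
        unfold cnt; rw [Finset.card_eq_one]; exact ⟨i - 1, by ext; simp⟩
      rw [this, e1] at c0
      intro h1
      rcases h1 with ⟨s, hs⟩
      rcases c0 with ⟨t, ht⟩
      omega
  · simp only [ne_eq, hc, not_false_eq_true, and_true]
    have hc' : ¬ (x = a ∧ y = b) := fun h => hc (by rw [h.1, h.2])
    rw [encl_iff_above, encl_iff_above]
    have : Even (cnt (fun k => Hor g x k ∧ y < (g k).2) +
        cnt (fun k => Hor f x k ∧ y < (f k).2)) := by
      apply even_of (φ := fun k => k = i ∧ x = a ∧ y < b)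
      intro k
      unfold Hor
      rcases hk3 k with hk | hk | hk
      · subst hk
        rw [g1]
        rcases hnb' with h | h <;> simp only [hi1, true_and, false_and, iff_false] <;> omega
      · subst hk
        rw [him1, g2]
        rcases hnb' with h | h <;> simp only [him, true_and, false_and, false_iff] <;> omega
      · rw [gne k hk.1, gne (k + 1) hk.2]
        have e : (k = i) ↔ False := iff_of_false hk.1 id
        have e' : (k + 1 = i) ↔ False := iff_of_false hk.2 id
        rw [e, e']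
        simp only [false_and]
    rw [Nat.even_add'] at this
    exact this

/-! ### symmetries -/

lemma cnt_equiv (e : ZMod n ≃ ZMod n) (P : ZMod n → Prop) : cnt (fun k => P (e k)) = cnt P := by
  classical
  rw [← card_eq_cnt, ← card_eq_cnt]
  exact Nat.card_congr (e.subtypeEquiv (fun _ => Iff.rfl))

lemma step_mk (g : ZMod n → ℤ × ℤ) (h : ∀ k, ((g (k + 1)).1 = (g k).1 + 1 ∧ (g (k + 1)).2 = (g k).2) ∨
    ((g (k + 1)).1 = (g k).1 - 1 ∧ (g (k + 1)).2 = (g k).2) ∨
    ((g (k + 1)).1 = (g k).1 ∧ (g (k + 1)).2 = (g k).2 + 1) ∨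
    ((g (k + 1)).1 = (g k).1 ∧ (g (k + 1)).2 = (g k).2 - 1)) : Step g := by
  intro k
  rcases h k with ⟨e1, e2⟩ | ⟨e1, e2⟩ | ⟨e1, e2⟩ | ⟨e1, e2⟩ <;> rw [e1, e2] <;> simp

/-- translation and reflection in the first coordinate -/
lemma reflX (hs : Step f) (hf : Function.Injective f) (u : ℤ) :
    ∃ g : ZMod n → ℤ × ℤ, Step g ∧ Function.Injective g ∧
      ∀ a b, Encl g (a, b) ↔ Encl f (u - 1 - a, b) := by
  refine ⟨fun k => (u - (f k).1, (f k).2), ?_, ?_, ?_⟩
  · apply step_mk
    intro k
    have := hs.cases k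
    simp only
    omega
  · intro k l h
    simp only [Prod.mk.injEq] at h
    exact hf (Prod.ext (by omega) h.2)
  · intro a b
    rw [encl_iff_above, encl_iff_above]
    rw [cnt_congr (Q := fun k => Hor f (u - 1 - a) k ∧ b < (f k).2)]
    intro k
    unfold Hor
    simp only
    omega

/-- translation and reflection in the second coordinate -/
lemma reflY (hs : Step f) (hf : Function.Injective f) (u : ℤ) :
    ∃ g : ZMod n → ℤ × ℤ, Step g ∧ Function.Injective g ∧
      ∀ a b, Encl g (a, b) ↔ Encl f (a, u - 1 - b) := by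
  have hg : Step (fun k => ((f k).1, u - (f k).2)) := by
    apply step_mk
    intro k
    have := hs.cases k
    simp only
    omega
  refine ⟨fun k => ((f k).1, u - (f k).2), hg, ?_, ?_⟩
  · intro k l h
    simp only [Prod.mk.injEq] at h
    exact hf (Prod.ext h.1 (by omega))
  · intro a b
    rw [encl_iff_left hg, encl_iff_left hs]
    rw [cnt_congr (Q := fun k => Ver f (u - 1 - b) k ∧ (f k).1 ≤ a)]
    intro k
    unfold Ver
    simp only
    omega

/-- every loop can be put in standard position -/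
lemma normalise (hs : Step f) (hf : Function.Injective f) (h3 : 3 ≤ n) :
    ∃ g : ZMod n → ℤ × ℤ, ∃ u v : ℤ, Good g ∧ ∀ a b, Encl g (a, b) ↔ Encl f (a + u, b + v) := by
  obtain ⟨i, hi⟩ := Finite.exists_min (fun k : ZMod n => toLex (f k))
  have hlex : ∀ k, (f i).1 < (f k).1 ∨ ((f i).1 = (f k).1 ∧ (f i).2 ≤ (f k).2) := by
    intro k
    have := hi k
    rw [Prod.Lex.le_iff] at this
    exact this
  have hne : f (i + 1) ≠ f (i - 1) := by
    intro h
    have h1 := hf h
    apply two_ne h3
    have h2 : i - 1 + 2 = i - 1 + 0 := by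
      have : i - 1 + 2 = i + 1 := by ring
      rw [add_zero, this, h1]
    exact add_left_cancel h2
  have hp := hs.cases i
  have hm := hs.cases (i - 1)
  rw [sub_add_cancel] at hm
  have hl1 := hlex (i + 1)
  have hl2 := hlex (i - 1)
  by_cases hcase : f (i + 1) = ((f i).1 + 1, (f i).2)
  · refine ⟨fun k => ((f (k + i)).1 - (f i).1, (f (k + i)).2 - (f i).2), (f i).1, (f i).2,
      ⟨?_, ?_, ?_, ?_, ?_⟩, ?_⟩
    · simp
    · rw [add_comm 1 i, hcase]
      simp
    · intro k l h
      simp only [Prod.mk.injEq] at h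
      have h2 : f (k + i) = f (l + i) := Prod.ext (by omega) (by omega)
      exact add_right_cancel (hf h2)
    · apply step_mk
      intro k
      have := hs.cases (k + i)
      have e : k + 1 + i = k + i + 1 := by ring
      simp only [e]
      omega
    · intro k
      have := hlex (k + i)
      simp only
      omega
    · intro a b
      rw [encl_iff_above, encl_iff_above]
      rw [← cnt_equiv (Equiv.addRight i) (fun k => Hor f (a + (f i).1) k ∧ b + (f i).2 < (f k).2)]
      rw [cnt_congr]
      intro k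
      have e : k + 1 + i = k + i + 1 := by ring
      unfold Hor
      simp only [Equiv.coe_addRight, e]
      omega
  · have hcase2 : f (i - 1) = ((f i).1 + 1, (f i).2) := by
      by_contra hcon
      apply hne
      have h4 : ¬ ((f (i + 1)).1 = (f i).1 + 1 ∧ (f (i + 1)).2 = (f i).2) :=
        fun h => hcase (Prod.ext h.1 h.2)
      have h5 : ¬ ((f (i - 1)).1 = (f i).1 + 1 ∧ (f (i - 1)).2 = (f i).2) :=
        fun h => hcon (Prod.ext h.1 h.2)
      exact Prod.ext (by omega) (by omega)
    refine ⟨fun k => ((f (i - k)).1 - (f i).1, (f (i - k)).2 - (f i).2), (f i).1, (f i).2,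
      ⟨?_, ?_, ?_, ?_, ?_⟩, ?_⟩
    · simp
    · rw [hcase2]
      simp
    · intro k l h
      simp only [Prod.mk.injEq] at h
      have h2 : f (i - k) = f (i - l) := Prod.ext (by omega) (by omega)
      exact sub_right_injective (hf h2)
    · apply step_mk
      intro k
      have := hs.cases (i - (k + 1))
      have e : i - (k + 1) + 1 = i - k := by ring
      rw [e] at this
      simp only
      omega
    · intro k
      have := hlex (i - k)
      simp only
      omega
    · intro a b
      rw [encl_iff_above, encl_iff_above]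
      rw [← cnt_equiv (Equiv.subLeft (i - 1)) (fun k => Hor f (a + (f i).1) k ∧
        b + (f i).2 < (f k).2)]
      rw [cnt_congr]
      intro k
      have e : i - 1 - k + 1 = i - k := by ring
      have e2 : i - (k + 1) = i - 1 - k := by ring
      have := hs.cases (i - 1 - k)
      rw [e] at this
      unfold Hor
      simp only [Equiv.subLeft_apply, e, e2]
      omega

end

end H404SAP
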