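import Mathlib

/-!
# Geometry of closed self-avoiding loops on the square lattice
-/

namespace H404SAP

open Finset

/-- the edge from `f k` to `f (k+1)` is horizontal, joins the columns `x = a` and `x = a + 1`, and
has height larger than `b` -/
def Above {n : ℕ} (f : ZMod n → ℤ × ℤ) (a b : ℤ) (k : ZMod n) : Prop :=
  (((f k).1 = a ∧ (f (k + 1)).1 = a + 1) ∨ ((f k).1 = a + 1 ∧ (f (k + 1)).1 = a)) ∧ b < (f k).2

/-- the unit cell `[a, a+1] × [b, b+1]` is enclosed by the loop: the vertical ray from the cell
upwards crosses an odd number of edges -/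
def Encl {n : ℕ} (f : ZMod n → ℤ × ℤ) (c : ℤ × ℤ) : Prop :=
  Odd (Nat.card {k : ZMod n // Above f c.1 c.2 k})

/-- the area: the number of unit cells enclosed by the loop -/
noncomputable def area {n : ℕ} (f : ZMod n → ℤ × ℤ) : ℕ := Nat.card {c : ℤ × ℤ // Encl f c}

/-- `f` traces a self-avoiding polygon of perimeter `2 m` in its standard position: a closed
nearest-neighbour walk with `2 m` steps visiting no vertex twice, which starts at the
lexicographically smallest vertex, placed at the origin, and steps to `(1, 0)` first. Every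
self-avoiding polygon of perimeter `2 m` has exactly one translate and one parametrisation of this
form. -/
def IsSAP (m : ℕ) (f : ZMod (2 * m) → ℤ × ℤ) : Prop :=
  f 0 = (0, 0) ∧ f 1 = (1, 0) ∧ Function.Injective f ∧
    (∀ i, |(f (i + 1)).1 - (f i).1| + |(f (i + 1)).2 - (f i).2| = 1) ∧
    ∀ i, 0 < (f i).1 ∨ ((f i).1 = 0 ∧ 0 ≤ (f i).2)

set_option linter.unusedSectionVars false

section

variable {n : ℕ} [NeZero n] {f : ZMod n → ℤ × ℤ}

def Hor (f : ZMod n → ℤ × ℤ) (a : ℤ) (k : ZMod n) : Prop :=
  ((f k).1 = a ∧ (f (k + 1)).1 = a + 1) ∨ ((f k).1 = a + 1 ∧ (f (k + 1)).1 = a)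

def Ver (f : ZMod n → ℤ × ℤ) (b : ℤ) (k : ZMod n) : Prop :=
  ((f k).2 = b ∧ (f (k + 1)).2 = b + 1) ∨ ((f k).2 = b + 1 ∧ (f (k + 1)).2 = b)

def Step (f : ZMod n → ℤ × ℤ) : Prop :=
  ∀ i, |(f (i + 1)).1 - (f i).1| + |(f (i + 1)).2 - (f i).2| = 1

lemma Step.cases (hs : Step f) (i : ZMod n) :
    ((f (i + 1)).1 = (f i).1 + 1 ∧ (f (i + 1)).2 = (f i).2) ∨
    ((f (i + 1)).1 = (f i).1 - 1 ∧ (f (i + 1)).2 = (f i).2) ∨
    ((f (i + 1)).1 = (f i).1 ∧ (f (i + 1)).2 = (f i).2 + 1) ∨
    ((f (i + 1)).1 = (f i).1 ∧ (f (i + 1)).2 = (f i).2 - 1) := by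
  have h := hs i
  rcases abs_cases ((f (i + 1)).1 - (f i).1) with ⟨h1, h1'⟩ | ⟨h1, h1'⟩ <;>
    rcases abs_cases ((f (i + 1)).2 - (f i).2) with ⟨h2, h2'⟩ | ⟨h2, h2'⟩ <;>
    rw [h1, h2] at h <;> omega

open Classical in
/-- number of indices with a property -/
noncomputable def cnt (P : ZMod n → Prop) : ℕ := (univ.filter P).card

lemma cnt_congr {P Q : ZMod n → Prop} (h : ∀ k, P k ↔ Q k) : cnt P = cnt Q := by
  have : P = Q := funext fun k => propext (h k)
  rw [this]

open Classical in
lemma cnt_eq_zero {P : ZMod n → Prop} : cnt P = 0 ↔ ∀ k, ¬ P k := by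
  unfold cnt
  rw [Finset.card_eq_zero, Finset.filter_eq_empty_iff]
  simp

lemma card_eq_cnt (P : ZMod n → Prop) : Nat.card {k // P k} = cnt P := by
  classical
  rw [Nat.card_eq_fintype_card, Fintype.card_subtype]
  unfold cnt
  congr

lemma even_of {P Q φ : ZMod n → Prop} (h : ∀ k, (P k ↔ Q k) ↔ (φ k ↔ φ (k + 1))) :
    Even (cnt P + cnt Q) := by
  classical
  unfold cnt
  rw [← ZMod.natCast_eq_zero_iff_even, Finset.card_filter, Finset.card_filter, Nat.cast_add,
    Nat.cast_sum, Nat.cast_sum, ← Finset.sum_add_distrib]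
  let ψ : ZMod n → ZMod 2 := fun k => if φ k then 1 else 0
  have h1 : ∀ k, (((if P k then 1 else 0 : ℕ)) : ZMod 2) + ((if Q k then 1 else 0 : ℕ) : ZMod 2)
      = ψ k + ψ (k + 1) := by
    intro k
    have h2 := h k
    have e11 : (1 : ZMod 2) + 1 = 0 := by decide
    simp only [ψ]
    by_cases hp : P k <;> by_cases hq : Q k <;> by_cases h4 : φ k <;> by_cases h5 : φ (k + 1) <;>
      simp_all
  rw [Finset.sum_congr rfl fun k _ => h1 k, Finset.sum_add_distrib]
  have h2 : ∑ k, ψ (k + 1) = ∑ k, ψ k := Equiv.sum_comp (Equiv.addRight (1 : ZMod n)) ψ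
  rw [h2]
  exact CharTwo.add_self_eq_zero _

/-- a property invariant under `k ↦ k+1` is constant -/
lemma const_of {φ : ZMod n → Prop} (h : ∀ k, φ k ↔ φ (k + 1)) (i j : ZMod n) : φ i ↔ φ j := by
  have key : ∀ t : ℕ, φ ((t : ℕ) : ZMod n) ↔ φ 0 := by
    intro t
    induction t with
    | zero => simp
    | succ t ih => rw [← ih, Nat.cast_succ, ← h]
  have hi := key i.val
  have hj := key j.val
  rw [ZMod.natCast_zmod_val] at hi hj
  rw [hi, hj]

lemma change_card {φ : ZMod n → Prop} {i j : ZMod n} (hi : φ i) (hj : ¬ φ j) :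
    2 ≤ cnt (fun k => ¬ (φ k ↔ φ (k + 1))) := by
  have h1 : Even (cnt (fun k => ¬ (φ k ↔ φ (k + 1))) + cnt (fun _ : ZMod n => False)) :=
    even_of (φ := φ) (fun k => by by_cases h4 : φ k <;> by_cases h5 : φ (k + 1) <;> simp [h4, h5])
  have h0 : cnt (fun _ : ZMod n => False) = 0 := by simp [cnt]
  rw [h0, add_zero] at h1
  have h2 : cnt (fun k => ¬ (φ k ↔ φ (k + 1))) ≠ 0 := by
    intro h0
    have : ∀ k, φ k ↔ φ (k + 1) := by
      intro k
      have := cnt_eq_zero.1 h0 k
      rw [not_not] at this
      exact this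
    exact hj ((const_of this i j).1 hi)
  obtain ⟨t, ht⟩ := h1
  omega

lemma encl_iff_above (a b : ℤ) :
    Encl f (a, b) ↔ Odd (cnt (fun k => Hor f a k ∧ b < (f k).2)) := by
  unfold Encl
  rw [card_eq_cnt]
  rfl

lemma quad (hs : Step f) (a b : ℤ) :
    Even (cnt (fun k => Hor f a k ∧ b < (f k).2) + cnt (fun k => Ver f b k ∧ (f k).1 ≤ a)) := by
  apply even_of (φ := fun k => (f k).1 ≤ a ∧ b < (f k).2)
  intro k
  have h := hs.cases k
  unfold Hor Ver
  omega

lemma encl_iff_left (hs : Step f) (a b : ℤ) :
    Encl f (a, b) ↔ Odd (cnt (fun k => Ver f b k ∧ (f k).1 ≤ a)) := by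
  rw [encl_iff_above]
  have := quad hs a b
  rw [Nat.even_add'] at this
  exact this

lemma cnt_pos {P : ZMod n → Prop} (h : cnt P ≠ 0) : ∃ k, P k := by
  by_contra hcon
  push Not at hcon
  exact h (cnt_eq_zero.2 hcon)

/-- a nonempty column is crossed at least twice -/
lemma hor_two (hs : Step f) {a : ℤ} {i j : ZMod n} (hi : (f i).1 ≤ a) (hj : a < (f j).1) :
    2 ≤ cnt (fun k => Hor f a k) := by
  have h := change_card (φ := fun k => (f k).1 ≤ a) hi (not_le.2 hj)
  rwa [cnt_congr (Q := fun k => Hor f a k)] at h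
  intro k
  have := hs.cases k
  unfold Hor
  omega

lemma ver_two (hs : Step f) {b : ℤ} {i j : ZMod n} (hi : (f i).2 ≤ b) (hj : b < (f j).2) :
    2 ≤ cnt (fun k => Ver f b k) := by
  have h := change_card (φ := fun k => (f k).2 ≤ b) hi (not_le.2 hj)
  rwa [cnt_congr (Q := fun k => Ver f b k)] at h
  intro k
  have := hs.cases k
  unfold Ver
  omega

/-- all edges together -/
lemma total_le (hs : Step f) (I J : Finset ℤ) :
    ∑ a ∈ I, cnt (fun k => Hor f a k) + ∑ b ∈ J, cnt (fun k => Ver f b k) ≤ n := by
  classical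
  have e1 : ∑ a ∈ I, cnt (fun k => Hor f a k) =
      ∑ k : ZMod n, (I.filter (fun a => Hor f a k)).card := by
    simp only [cnt, Finset.card_filter]
    exact Finset.sum_comm
  have e2 : ∑ b ∈ J, cnt (fun k => Ver f b k) =
      ∑ k : ZMod n, (J.filter (fun b => Ver f b k)).card := by
    simp only [cnt, Finset.card_filter]
    exact Finset.sum_comm
  rw [e1, e2, ← Finset.sum_add_distrib]
  calc ∑ k : ZMod n, ((I.filter (fun a => Hor f a k)).card + (J.filter (fun b => Ver f b k)).card)
      ≤ ∑ _k : ZMod n, 1 := by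
        apply Finset.sum_le_sum
        intro k _
        have hc := hs.cases k
        have h1 : (I.filter (fun a => Hor f a k)).card ≤ 1 := by
          rw [Finset.card_le_one]
          intro a ha a' ha'
          simp only [Finset.mem_filter, Hor] at ha ha'
          omega
        have h2 : (J.filter (fun b => Ver f b k)).card ≤ 1 := by
          rw [Finset.card_le_one]
          intro a ha a' ha'
          simp only [Finset.mem_filter, Ver] at ha ha'
          omega
        by_contra hcon
        have h3 : 0 < (I.filter (fun a => Hor f a k)).card := by omega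
        have h4 : 0 < (J.filter (fun b => Ver f b k)).card := by omega
        obtain ⟨a, ha⟩ := Finset.card_pos.1 h3
        obtain ⟨b, hb⟩ := Finset.card_pos.1 h4
        simp only [Finset.mem_filter, Ver, Hor] at ha hb
        omega
    _ = n := by simp [ZMod.card]

lemma two_ne (h3 : 3 ≤ n) : (2 : ZMod n) ≠ 0 := by
  intro h
  have : ((2 : ℕ) : ZMod n) = 0 := by exact_mod_cast h
  rw [ZMod.natCast_eq_zero_iff] at this
  exact absurd (Nat.le_of_dvd (by norm_num) this) (by omega)

/-- each horizontal edge is used once -/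
lemma hor_inj (hs : Step f) (hf : Function.Injective f) (h3 : 3 ≤ n) {a : ℤ} {k l : ZMod n}
    (hk : Hor f a k) (hl : Hor f a l) (hy : (f k).2 = (f l).2) : k = l := by
  have ck := hs.cases k
  have cl := hs.cases l
  unfold Hor at hk hl
  rcases hk with ⟨h1, h2⟩ | ⟨h1, h2⟩ <;> rcases hl with ⟨h4, h5⟩ | ⟨h4, h5⟩
  · exact hf (Prod.ext (by omega) hy)
  · exfalso
    have e1 : k = l + 1 := hf (Prod.ext (by omega) (by omega))
    have e2 : k + 1 = l := hf (Prod.ext (by omega) (by omega))
    apply two_ne h3
    have : l + 1 + 1 = l := by rw [← e1, e2]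
    have : l + 2 = l + 0 := by rw [add_zero]; rw [← one_add_one_eq_two, ← add_assoc]; exact this
    exact add_left_cancel this
  · exfalso
    have e1 : k = l + 1 := hf (Prod.ext (by omega) (by omega))
    have e2 : k + 1 = l := hf (Prod.ext (by omega) (by omega))
    apply two_ne h3
    have : l + 1 + 1 = l := by rw [← e1, e2]
    have : l + 2 = l + 0 := by rw [add_zero]; rw [← one_add_one_eq_two, ← add_assoc]; exact this
    exact add_left_cancel this
  · exact hf (Prod.ext (by omega) hy)

/-- each vertical edge is used once -/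
lemma ver_inj (hs : Step f) (hf : Function.Injective f) (h3 : 3 ≤ n) {b : ℤ} {k l : ZMod n}
    (hk : Ver f b k) (hl : Ver f b l) (hy : (f k).1 = (f l).1) : k = l := by
  have ck := hs.cases k
  have cl := hs.cases l
  unfold Ver at hk hl
  rcases hk with ⟨h1, h2⟩ | ⟨h1, h2⟩ <;> rcases hl with ⟨h4, h5⟩ | ⟨h4, h5⟩
  · exact hf (Prod.ext hy (by omega))
  · exfalso
    have e1 : k = l + 1 := hf (Prod.ext (by omega) (by omega))
    have e2 : k + 1 = l := hf (Prod.ext (by omega) (by omega))
    apply two_ne h3
    have : l + 1 + 1 = l := by rw [← e1, e2]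
    have : l + 2 = l + 0 := by rw [add_zero]; rw [← one_add_one_eq_two, ← add_assoc]; exact this
    exact add_left_cancel this
  · exfalso
    have e1 : k = l + 1 := hf (Prod.ext (by omega) (by omega))
    have e2 : k + 1 = l := hf (Prod.ext (by omega) (by omega))
    apply two_ne h3
    have : l + 1 + 1 = l := by rw [← e1, e2]
    have : l + 2 = l + 0 := by rw [add_zero]; rw [← one_add_one_eq_two, ← add_assoc]; exact this
    exact add_left_cancel this
  · exact hf (Prod.ext hy (by omega))

/-- structure of a column crossed exactly twice -/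
lemma col_struct (hs : Step f) (hf : Function.Injective f) (h3 : 3 ≤ n) {a : ℤ}
    (h2 : cnt (fun k => Hor f a k) = 2) :
    ∃ k l : ZMod n, Hor f a k ∧ Hor f a l ∧ (f k).2 < (f l).2 ∧
      ∀ b, Encl f (a, b) ↔ (f k).2 ≤ b ∧ b < (f l).2 := by
  classical
  unfold cnt at h2
  obtain ⟨k, l, hkl, he⟩ := Finset.card_eq_two.1 h2
  have hk : Hor f a k := by
    have : k ∈ univ.filter (fun k => Hor f a k) := by rw [he]; simp
    exact (Finset.mem_filter.1 this).2
  have hl : Hor f a l := by
    have : l ∈ univ.filter (fun k => Hor f a k) := by rw [he]; simp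
    exact (Finset.mem_filter.1 this).2
  have hall : ∀ j, Hor f a j → j = k ∨ j = l := by
    intro j hj
    have : j ∈ univ.filter (fun k => Hor f a k) := Finset.mem_filter.2 ⟨Finset.mem_univ j, hj⟩
    rw [he] at this
    simpa using this
  have hne : (f k).2 ≠ (f l).2 := fun h => hkl (hor_inj hs hf h3 hk hl h)
  have main : ∀ k l : ZMod n, Hor f a k → Hor f a l → k ≠ l → (∀ j, Hor f a j → j = k ∨ j = l) →
      (f k).2 < (f l).2 → ∀ b, Encl f (a, b) ↔ (f k).2 ≤ b ∧ b < (f l).2 := by
    intro k l hk hl hkl hall hlt b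
    rw [encl_iff_above]
    by_cases h1 : b < (f k).2
    · have : cnt (fun j => Hor f a j ∧ b < (f j).2) = 2 := by
        unfold cnt
        rw [Finset.card_eq_two]
        refine ⟨k, l, hkl, ?_⟩
        ext j
        simp only [Finset.mem_filter, Finset.mem_univ, true_and, Finset.mem_insert,
          Finset.mem_singleton]
        constructor
        · rintro ⟨h, -⟩; exact hall j h
        · rintro (rfl | rfl)
          · exact ⟨hk, h1⟩
          · exact ⟨hl, by omega⟩
      rw [this]
      constructor
      · intro h; exact absurd h (by decide)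
      · intro h; omega
    · by_cases h4 : b < (f l).2
      · have : cnt (fun j => Hor f a j ∧ b < (f j).2) = 1 := by
          unfold cnt
          rw [Finset.card_eq_one]
          refine ⟨l, ?_⟩
          ext j
          simp only [Finset.mem_filter, Finset.mem_univ, true_and, Finset.mem_singleton]
          constructor
          · rintro ⟨h, h'⟩
            rcases hall j h with rfl | rfl
            · exact absurd h' h1
            · rfl
          · rintro rfl
            exact ⟨hl, h4⟩
        rw [this]
        constructor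
        · intro _; omega
        · intro _; decide
      · have : cnt (fun j => Hor f a j ∧ b < (f j).2) = 0 := by
          rw [cnt_eq_zero]
          rintro j ⟨h, h'⟩
          rcases hall j h with rfl | rfl
          · exact absurd h' h1
          · exact absurd h' h4
        rw [this]
        constructor
        · intro h; exact absurd h (by decide)
        · intro h; omega
  rcases lt_or_gt_of_ne hne with h | h
  · exact ⟨k, l, hk, hl, h, main k l hk hl hkl hall h⟩
  · exact ⟨l, k, hl, hk, h, main l k hl hk hkl.symm (fun j hj => (hall j hj).symm) h⟩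

/-- structure of a row crossed exactly twice -/
lemma row_struct (hs : Step f) (hf : Function.Injective f) (h3 : 3 ≤ n) {b : ℤ}
    (h2 : cnt (fun k => Ver f b k) = 2) :
    ∃ k l : ZMod n, (f k).1 < (f l).1 ∧
      ∀ a, Encl f (a, b) ↔ (f k).1 ≤ a ∧ a < (f l).1 := by
  classical
  unfold cnt at h2
  obtain ⟨k, l, hkl, he⟩ := Finset.card_eq_two.1 h2
  have hk : Ver f b k := by
    have : k ∈ univ.filter (fun k => Ver f b k) := by rw [he]; simp
    exact (Finset.mem_filter.1 this).2
  have hl : Ver f b l := by
    have : l ∈ univ.filter (fun k => Ver f b k) := by rw [he]; simp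
    exact (Finset.mem_filter.1 this).2
  have hall : ∀ j, Ver f b j → j = k ∨ j = l := by
    intro j hj
    have : j ∈ univ.filter (fun k => Ver f b k) := Finset.mem_filter.2 ⟨Finset.mem_univ j, hj⟩
    rw [he] at this
    simpa using this
  have hne : (f k).1 ≠ (f l).1 := fun h => hkl (ver_inj hs hf h3 hk hl h)
  have main : ∀ k l : ZMod n, Ver f b k → Ver f b l → k ≠ l → (∀ j, Ver f b j → j = k ∨ j = l) →
      (f k).1 < (f l).1 → ∀ a, Encl f (a, b) ↔ (f k).1 ≤ a ∧ a < (f l).1 := by
    intro k l hk hl hkl hall hlt a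
    rw [encl_iff_left hs]
    by_cases h1 : (f l).1 ≤ a
    · have : cnt (fun j => Ver f b j ∧ (f j).1 ≤ a) = 2 := by
        unfold cnt
        rw [Finset.card_eq_two]
        refine ⟨k, l, hkl, ?_⟩
        ext j
        simp only [Finset.mem_filter, Finset.mem_univ, true_and, Finset.mem_insert,
          Finset.mem_singleton]
        constructor
        · rintro ⟨h, -⟩; exact hall j h
        · rintro (rfl | rfl)
          · exact ⟨hk, by omega⟩
          · exact ⟨hl, h1⟩
      rw [this]
      constructor
      · intro h; exact absurd h (by decide)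
      · intro h; omega
    · by_cases h4 : (f k).1 ≤ a
      · have : cnt (fun j => Ver f b j ∧ (f j).1 ≤ a) = 1 := by
          unfold cnt
          rw [Finset.card_eq_one]
          refine ⟨k, ?_⟩
          ext j
          simp only [Finset.mem_filter, Finset.mem_univ, true_and, Finset.mem_singleton]
          constructor
          · rintro ⟨h, h'⟩
            rcases hall j h with rfl | rfl
            · rfl
            · exact absurd h' h1
          · rintro rfl
            exact ⟨hk, h4⟩
        rw [this]
        constructor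
        · intro _; omega
        · intro _; decide
      · have : cnt (fun j => Ver f b j ∧ (f j).1 ≤ a) = 0 := by
          rw [cnt_eq_zero]
          rintro j ⟨h, h'⟩
          rcases hall j h with rfl | rfl
          · exact absurd h' h4
          · exact absurd h' h1
        rw [this]
        constructor
        · intro h; exact absurd h (by decide)
        · intro h; omega
  rcases lt_or_gt_of_ne hne with h | h
  · exact ⟨k, l, h, main k l hk hl hkl hall h⟩
  · exact ⟨l, k, h, main l k hl hk hkl.symm (fun j hj => (hall j hj).symm) h⟩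

end

end H404SAP
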