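import Pool.Agent.H404R3.PolyAll

/-!
# The area law in the fixed perimeter ensemble
-/

namespace H404SAP

open Finset Filter Topology

/-- `p_{m,n}`: the number of self-avoiding polygons of half-perimeter `m` and area `n`, up to
translation -/
noncomputable def p (m n : ℕ) : ℕ := Nat.card {f : ZMod (2 * m) → ℤ × ℤ // IsSAP m f ∧ area f = n}

/-- expectation of `g` of the area `X_m` in the fixed perimeter ensemble with parameter `q` -/
noncomputable def E (q : ℝ) (m : ℕ) (g : ℕ → ℝ) : ℝ :=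
  (∑ᶠ n : ℕ, g n * ((p m n : ℝ) * q ^ n)) / ∑ᶠ n : ℕ, (p m n : ℝ) * q ^ n

/-- the distribution function `P(X_m ≤ x)` of the area -/
noncomputable def cdfX (q : ℝ) (m : ℕ) (x : ℝ) : ℝ := E q m (fun n => if (n : ℝ) ≤ x then 1 else 0)

/-- the mean of `X_m` -/
noncomputable def meanX (q : ℝ) (m : ℕ) : ℝ := E q m (fun n => (n : ℝ))

/-- the variance of `X_m` -/
noncomputable def varX (q : ℝ) (m : ℕ) : ℝ := E q m (fun n => ((n : ℝ) - meanX q m) ^ 2)

lemma isSAP_iff {m : ℕ} (f : ZMod (2 * m) → ℤ × ℤ) : IsSAP m f ↔ Good f := by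
  constructor
  · rintro ⟨h1, h2, h3, h4, h5⟩
    exact ⟨h1, h2, h3, h4, h5⟩
  · rintro ⟨h1, h2, h3, h4, h5⟩
    exact ⟨h1, h2, h3, h4, h5⟩

section

variable {k : ℕ}

lemma finite_sap (hk : 1 ≤ k) : {f : ZMod (2 * (2 * k)) → ℤ × ℤ | IsSAP (2 * k) f}.Finite := by
  have : NeZero (2 * (2 * k)) := ⟨by omega⟩
  apply finite_loops.subset
  intro f hf
  exact ⟨hf.2.2.2.1, hf.1⟩

/-- the polygons as a finite set -/
noncomputable def SF (hk : 1 ≤ k) : Finset (ZMod (2 * (2 * k)) → ℤ × ℤ) := (finite_sap hk).toFinset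

lemma mem_SF (hk : 1 ≤ k) (f : ZMod (2 * (2 * k)) → ℤ × ℤ) : f ∈ SF hk ↔ IsSAP (2 * k) f := by
  unfold SF
  rw [Set.Finite.mem_toFinset]
  rfl

open Classical in
lemma p_eq (hk : 1 ≤ k) (n : ℕ) : p (2 * k) n = ((SF hk).filter (fun f => area f = n)).card := by
  unfold p
  apply Nat.subtype_card
  intro f
  rw [Finset.mem_filter, mem_SF]

lemma good_of (hk : 1 ≤ k) {f : ZMod (2 * (2 * k)) → ℤ × ℤ}
    (hf : f ∈ SF hk) : Good f := (isSAP_iff f).1 ((mem_SF hk f).1 hf)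

/-- the area is at most `k ^ 2` -/
lemma p_zero (hk : 1 ≤ k) {n : ℕ} (hn : k ^ 2 < n) : p (2 * k) n = 0 := by
  classical
  have : NeZero (2 * (2 * k)) := ⟨by omega⟩
  rw [p_eq hk, Finset.card_eq_zero, Finset.filter_eq_empty_iff]
  intro f hf h
  have := (good_of hk hf).area_le' hk
  omega

/-- the square has area `k ^ 2` -/
lemma p_pos (hk : 1 ≤ k) : 1 ≤ p (2 * k) (k ^ 2) := by
  classical
  have : NeZero (2 * (2 * k)) := ⟨by omega⟩
  rw [p_eq hk, Nat.one_le_iff_ne_zero, Finset.card_ne_zero]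
  refine ⟨sq k, ?_⟩
  rw [Finset.mem_filter, mem_SF, isSAP_iff]
  exact ⟨sq_good hk, sq_area hk⟩

lemma finsum_eq (hk : 1 ≤ k) (q : ℝ) (g : ℕ → ℝ) :
    ∑ᶠ n : ℕ, g n * ((p (2 * k) n : ℝ) * q ^ n) =
      ∑ n ∈ range (k ^ 2 + 1), g n * ((p (2 * k) n : ℝ) * q ^ n) := by
  apply finsum_eq_sum_of_support_subset
  intro n hn
  rw [Finset.mem_coe, Finset.mem_range]
  by_contra hcon
  apply hn
  simp only
  rw [p_zero hk (by omega)]
  simp

lemma finsum_eq1 (hk : 1 ≤ k) (q : ℝ) :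
    ∑ᶠ n : ℕ, ((p (2 * k) n : ℝ) * q ^ n) =
      ∑ n ∈ range (k ^ 2 + 1), ((p (2 * k) n : ℝ) * q ^ n) := by
  have := finsum_eq hk q (fun _ => 1)
  simpa only [one_mul] using this

lemma sum_area (hk : 1 ≤ k) (q : ℝ) :
    ∑ n ∈ range (k ^ 2 + 1), ((p (2 * k) n : ℝ) * q ^ n) = ∑ f ∈ SF hk, q ^ area f := by
  classical
  have : NeZero (2 * (2 * k)) := ⟨by omega⟩
  rw [← Finset.sum_fiberwise_of_maps_to (g := area) (t := range (k ^ 2 + 1))
    (fun f hf => Finset.mem_range.2 (by have := (good_of hk hf).area_le' hk; omega))]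
  refine Finset.sum_congr rfl fun n _ => ?_
  rw [p_eq hk, Finset.sum_congr rfl (g := fun _ => q ^ n)
    (fun f hf => by rw [(Finset.mem_filter.1 hf).2]), Finset.sum_const, nsmul_eq_mul]

lemma Z_ge (hk : 1 ≤ k) {q : ℝ} (hq0 : 0 < q) (x : ℕ → Prop) [DecidablePred x]
    (hx : x (k ^ 2)) :
    q ^ (k ^ 2) ≤ ∑ n ∈ (range (k ^ 2 + 1)).filter x, ((p (2 * k) n : ℝ) * q ^ n) := by
  have h1 : k ^ 2 ∈ (range (k ^ 2 + 1)).filter x := by
    rw [Finset.mem_filter, Finset.mem_range]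
    exact ⟨by omega, hx⟩
  have h2 := Finset.single_le_sum (f := fun n => (p (2 * k) n : ℝ) * q ^ n)
    (fun n _ => mul_nonneg (Nat.cast_nonneg _) (pow_nonneg hq0.le _)) h1
  refine le_trans ?_ h2
  have h3 : (1 : ℝ) ≤ p (2 * k) (k ^ 2) := by exact_mod_cast p_pos hk
  exact le_mul_of_one_le_left (pow_nonneg hq0.le _) h3

/-- the probability of the maximal area -/
lemma atom (hk : 1 ≤ k) {q K : ℝ} (hq0 : 0 < q) (hK : 0 < K)
    (hZ : ∑ f ∈ SF hk, q ^ area f ≤ K * q ^ (k ^ 2)) :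
    1 / K ≤ E q (2 * k) (fun n => if n = k ^ 2 then 1 else 0) := by
  classical
  unfold E
  rw [finsum_eq hk, finsum_eq1 hk]
  rw [← sum_area hk] at hZ
  have hZ1 := Z_ge hk hq0 (fun _ => True) trivial
  simp only [Finset.filter_true] at hZ1
  have hqp : 0 < q ^ (k ^ 2) := pow_pos hq0 _
  have hZpos : 0 < ∑ n ∈ range (k ^ 2 + 1), ((p (2 * k) n : ℝ) * q ^ n) := by linarith
  rw [le_div_iff₀ hZpos]
  have e : ∑ n ∈ range (k ^ 2 + 1), (if n = k ^ 2 then (1 : ℝ) else 0) *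
      ((p (2 * k) n : ℝ) * q ^ n) =
      ∑ n ∈ (range (k ^ 2 + 1)).filter (fun n => n = k ^ 2), ((p (2 * k) n : ℝ) * q ^ n) := by
    rw [Finset.sum_filter]
    refine Finset.sum_congr rfl fun n _ => ?_
    split_ifs <;> simp
  rw [e]
  have h2 := Z_ge hk hq0 (fun n : ℕ => n = k ^ 2) rfl
  refine le_trans ?_ h2
  rw [one_div, inv_mul_le_iff₀ hK]
  exact hZ

/-- along even half-perimeters the distribution function takes no value in `(1 - 1/K, 1)` -/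
lemma cdf_values (hk : 1 ≤ k) {q K : ℝ} (hq0 : 0 < q) (hK : 0 < K)
    (hZ : ∑ f ∈ SF hk, q ^ area f ≤ K * q ^ (k ^ 2)) (x : ℝ) :
    cdfX q (2 * k) x ∈ Set.Iic (1 - 1 / K : ℝ) ∪ {1} := by
  classical
  unfold cdfX E
  rw [finsum_eq hk, finsum_eq1 hk]
  rw [← sum_area hk] at hZ
  have e : ∑ n ∈ range (k ^ 2 + 1), (if (n : ℝ) ≤ x then (1 : ℝ) else 0) *
      ((p (2 * k) n : ℝ) * q ^ n) =
      ∑ n ∈ (range (k ^ 2 + 1)).filter (fun n : ℕ => (n : ℝ) ≤ x),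
        ((p (2 * k) n : ℝ) * q ^ n) := by
    rw [Finset.sum_filter]
    refine Finset.sum_congr rfl fun n _ => ?_
    split_ifs <;> simp
  rw [e]
  have hZ1 := Z_ge hk hq0 (fun _ => True) trivial
  simp only [Finset.filter_true] at hZ1
  have hqp : 0 < q ^ (k ^ 2) := pow_pos hq0 _
  have hZpos : 0 < ∑ n ∈ range (k ^ 2 + 1), ((p (2 * k) n : ℝ) * q ^ n) := by linarith
  rcases le_or_gt ((k ^ 2 : ℕ) : ℝ) x with h | h
  · right
    have : (range (k ^ 2 + 1)).filter (fun n : ℕ => (n : ℝ) ≤ x) = range (k ^ 2 + 1) := by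
      rw [Finset.filter_eq_self]
      intro n hn
      rw [Finset.mem_range] at hn
      refine le_trans ?_ h
      exact_mod_cast (by omega : n ≤ k ^ 2)
    rw [this, Set.mem_singleton_iff]
    exact div_self hZpos.ne'
  · left
    rw [Set.mem_Iic, div_le_iff₀ hZpos]
    have h1 := Finset.sum_filter_add_sum_filter_not (range (k ^ 2 + 1))
      (fun n : ℕ => (n : ℝ) ≤ x) (fun n => ((p (2 * k) n : ℝ) * q ^ n))
    have h2 := Z_ge hk hq0 (fun n : ℕ => ¬ (n : ℝ) ≤ x) (not_le.2 h)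
    have h3 : 1 / K * ∑ n ∈ range (k ^ 2 + 1), ((p (2 * k) n : ℝ) * q ^ n) ≤ q ^ (k ^ 2) := by
      rw [one_div, inv_mul_le_iff₀ hK]
      exact hZ
    linarith

end

/-- **all `q > 1`** -/
theorem bound {q : ℝ} (hq : 1 < q) : ∃ K : ℝ, 1 < K ∧ ∀ᶠ k : ℕ in atTop, ∀ hk : 1 ≤ k,
    ∑ f ∈ SF hk, q ^ area f ≤ K * q ^ (k ^ 2) := by
  obtain ⟨K, hK, h⟩ := Z_all hq
  refine ⟨K + 1, by linarith, ?_⟩
  filter_upwards [h] with k hk hk1
  have h1 := hk hk1 (SF hk1) (fun f hf => good_of hk1 hf)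
  have h2 : 0 ≤ q ^ (k ^ 2) := pow_nonneg (by linarith) _
  linarith

lemma no_limit {q : ℝ} (hq : 1 < q) : ∃ c : ℝ, 0 < c ∧ c < 1 ∧ ∀ a b : ℕ → ℝ, ∀ G : ℝ → ℝ,
    ∀ x : ℝ, 1 - c < G x → G x ≠ 1 →
      ¬ Tendsto (fun m => cdfX q m (a m + b m * x)) atTop (𝓝 (G x)) := by
  obtain ⟨K, hK, h⟩ := bound hq
  have hK0 : 0 < K := by linarith
  refine ⟨1 / K, by positivity, by rw [div_lt_one hK0]; exact hK, ?_⟩
  intro a b G x h1 h2 hT
  have h3 : Tendsto (fun k : ℕ => 2 * k) atTop atTop :=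
    tendsto_id.const_mul_atTop' (by norm_num : 0 < 2)
  have h4 := hT.comp h3
  have hclosed : IsClosed (Set.Iic (1 - 1 / K : ℝ) ∪ {1}) := isClosed_Iic.union isClosed_singleton
  have h5 : G x ∈ Set.Iic (1 - 1 / K : ℝ) ∪ {1} := by
    apply hclosed.mem_of_tendsto h4
    filter_upwards [eventually_ge_atTop 1, h] with k hk hk2
    exact cdf_values hk (by linarith) hK0 (hk2 hk) _
  rcases h5 with h5 | h5
  · exact absurd (Set.mem_Iic.1 h5) (not_le.2 h1)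
  · exact h2 h5

lemma gauss_ne_one (x : ℝ) :
    (ProbabilityTheory.cdf (ProbabilityTheory.gaussianReal 0 1)) x ≠ 1 := by
  intro h
  rw [ProbabilityTheory.cdf_eq_real] at h
  have h1 : (ProbabilityTheory.gaussianReal 0 1) (Set.Iic x)ᶜ = 0 := by
    rw [MeasureTheory.prob_compl_eq_zero_iff measurableSet_Iic]
    have h2 : (ProbabilityTheory.gaussianReal 0 1).real (Set.Iic x) = 1 := h
    rw [MeasureTheory.measureReal_def] at h2
    rw [← ENNReal.toReal_eq_one_iff]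
    exact h2
  rw [Set.compl_Iic] at h1
  have h3 := ProbabilityTheory.gaussianReal_absolutelyContinuous' 0 (one_ne_zero (α := NNReal)) h1
  rw [Real.volume_Ioi] at h3
  exact absurd h3 (by simp)

end H404SAP
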