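import Pool.Agent.H404R3.PolyShape
import Pool.Agent.H404R3.PolyAllG

/-!
# The exact number of polygons of half-perimeter `2 k + r` and area `k (k + r) - d`, `r ≤ 1`,
and the limit law of the area
-/

namespace H404SAP

open Finset Filter Topology

set_option linter.unusedSectionVars false

/-! ### exact enumeration -/

lemma data_facts {r d : ℕ} (hr : r ≤ 1) {x : ℤ × (Fin 4 → ℕ →₀ ℕ)} (h : IsData r d x) :
    (∀ i, Pt (d + 1) (x.2 i)) ∧ -((d : ℤ) + 1) ≤ x.1 ∧ x.1 ≤ d ∧
    x.1 * (x.1 + r) + ((size (d + 1) (x.2 0) + size (d + 1) (x.2 1) + size (d + 1) (x.2 2) +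
      size (d + 1) (x.2 3) : ℕ) : ℤ) = d := by
  obtain ⟨h1, h2⟩ := h
  have hsq := jj_nonneg hr x.1
  have hsum : (∑ i, (x.2 i).sum fun _ t => t) ≤ d := by
    zify
    push_cast at h2
    linarith
  have hi : ∀ i, ((x.2 i).sum fun _ t => t) ≤ d := fun i =>
    (Finset.single_le_sum (f := fun i => (x.2 i).sum fun _ t => t) (fun _ _ => Nat.zero_le _)
      (Finset.mem_univ i)).trans hsum
  have hx : x.1 * (x.1 + r) ≤ d := by
    have : (0 : ℤ) ≤ ((∑ i, (x.2 i).sum fun _ t => t : ℕ) : ℤ) := Int.natCast_nonneg _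
    linarith
  obtain ⟨hb1, hb2⟩ := jj_bound hr hx
  refine ⟨fun i => (pt_of (h1 i) (hi i)).1, hb1, hb2, ?_⟩
  rw [← (pt_of (h1 0) (hi 0)).2, ← (pt_of (h1 1) (hi 1)).2, ← (pt_of (h1 2) (hi 2)).2,
    ← (pt_of (h1 3) (hi 3)).2]
  rw [Fin.sum_univ_four] at h2
  exact h2

lemma real_of {k r d : ℕ} (hr : r ≤ 1) [NeZero (2 * (2 * k + r))] (hk : 3 * d + 6 ≤ k)
    {x : ℤ × (Fin 4 → ℕ →₀ ℕ)} (h : IsData r d x) :
    ∃ g : ZMod (2 * (2 * k + r)) → ℤ × ℤ, Good g ∧ area g + d = k * (k + r) ∧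
      ∃ A B : ℕ, (A : ℤ) = k + r + x.1 ∧ (B : ℤ) = k - x.1 ∧
      ∀ a b, Encl g (a, b) ↔ Cell (x.2 0) (x.2 1) (x.2 2) (x.2 3) A B a (b + (x.2 2 0 : ℕ)) := by
  obtain ⟨hp, h1, h2, h3⟩ := data_facts hr h
  have hA : (((k : ℤ) + r + x.1).toNat : ℤ) = k + r + x.1 := Int.toNat_of_nonneg (by omega)
  have hB : (((k : ℤ) - x.1).toNat : ℤ) = k - x.1 := Int.toNat_of_nonneg (by omega)
  have hA' : 2 * (d + 1) + 3 ≤ ((k : ℤ) + r + x.1).toNat := by omega
  have hB' : 2 * (d + 1) + 3 ≤ ((k : ℤ) - x.1).toNat := by omega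
  obtain ⟨g, hg, hE⟩ := exists_good (n := 2 * (2 * k + r)) (by omega) hA' hB' (hp 0) (hp 1) (hp 2)
    (hp 3) (exists_real hA' hB' (by omega) _ _ _ _ _ (hp 0) (hp 1) (hp 2) (hp 3) rfl)
  have ha := area_cell hA' hB' (hp 0) (hp 1) (hp 2) (hp 3) hE
  refine ⟨g, hg, ?_, _, _, hA, hB, hE⟩
  zify at ha ⊢
  rw [hA, hB] at ha
  push_cast at h3
  nlinarith

/-- **exact enumeration** -/
theorem count {k r d : ℕ} (hr : r ≤ 1) (hk : 3 * d + 6 ≤ k) :
    p (2 * k + r) (k * (k + r) - d) = coef r d := by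
  classical
  have : NeZero (2 * (2 * k + r)) := ⟨by omega⟩
  have hdk : d ≤ k * (k + r) := by nlinarith
  unfold p coef
  symm
  have hreal := fun x : {x : ℤ × (Fin 4 → ℕ →₀ ℕ) // IsData r d x} =>
    real_of (k := k) hr hk x.2
  choose g hg ha A B hA hB hE using hreal
  apply Nat.card_congr
  apply Equiv.ofBijective (fun x => (⟨g x, (isSAP_iff _).2 (hg x), by have := ha x; omega⟩ :
    {f : ZMod (2 * (2 * k + r)) → ℤ × ℤ // IsSAP (2 * k + r) f ∧ area f = k * (k + r) - d}))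
  constructor
  · intro x y hxy
    have hgxy : g x = g y := congrArg Subtype.val hxy
    obtain ⟨hp, h1, h2, -⟩ := data_facts hr x.2
    obtain ⟨hp', h1', h2', -⟩ := data_facts hr y.2
    have hAx := hA x
    have hBx := hB x
    have hAy := hA y
    have hBy := hB y
    obtain ⟨e, e0, e1, e2, e3⟩ := cell_inj (M := d + 1) (A := A x) (B := B x) (A' := A y)
      (B' := B y) (by omega) (by omega) (by omega) (by omega) (by omega)
      (hp 0) (hp 1) (hp 2) (hp 3) (hp' 0) (hp' 1) (hp' 2) (hp' 3)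
      (v := ((x.1.2 2 0 : ℕ) : ℤ)) (v' := ((y.1.2 2 0 : ℕ) : ℤ))
      (fun a b => by rw [← hE x, ← hE y, hgxy])
    apply Subtype.ext
    apply Prod.ext
    · omega
    · funext i
      fin_cases i
      · exact Finsupp.ext e0
      · exact Finsupp.ext e1
      · exact Finsupp.ext e2
      · exact Finsupp.ext e3
  · rintro ⟨f, hf, haf⟩
    have hf' := (isSAP_iff f).1 hf
    obtain ⟨x, hx, A', B', hA', hB', hE'⟩ := shape hr hk hf' (by omega)
    refine ⟨⟨x, hx⟩, ?_⟩
    apply Subtype.ext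
    have eA : A ⟨x, hx⟩ = A' := by
      have := hA ⟨x, hx⟩
      simp only at this
      omega
    have eB : B ⟨x, hx⟩ = B' := by
      have := hB ⟨x, hx⟩
      simp only at this
      omega
    apply encl_unique (hg _).step (hg _).inj hf'.step hf'.inj (by omega)
    · rintro ⟨a, b⟩
      rw [hE, hE', eA, eB]
    · rw [(hg _).f0, hf'.f0]
    · rw [(hg _).f1, hf'.f1]

/-! ### the set of polygons -/

section

variable {m : ℕ}

lemma finite_sapg (hm : 1 ≤ m) : {f : ZMod (2 * m) → ℤ × ℤ | IsSAP m f}.Finite := by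
  have : NeZero (2 * m) := ⟨by omega⟩
  apply finite_loops.subset
  intro f hf
  exact ⟨hf.2.2.2.1, hf.1⟩

/-- the polygons as a finite set -/
noncomputable def SFg (hm : 1 ≤ m) : Finset (ZMod (2 * m) → ℤ × ℤ) := (finite_sapg hm).toFinset

lemma mem_SFg (hm : 1 ≤ m) (f : ZMod (2 * m) → ℤ × ℤ) : f ∈ SFg hm ↔ IsSAP m f := by
  unfold SFg
  rw [Set.Finite.mem_toFinset]
  rfl

open Classical in
lemma p_eqg (hm : 1 ≤ m) (n : ℕ) : p m n = ((SFg hm).filter (fun f => area f = n)).card := by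
  unfold p
  apply Nat.subtype_card
  intro f
  rw [Finset.mem_filter, mem_SFg]

lemma good_ofg (hm : 1 ≤ m) {f : ZMod (2 * m) → ℤ × ℤ}
    (hf : f ∈ SFg hm) : Good f := (isSAP_iff f).1 ((mem_SFg hm f).1 hf)

end

section

variable {k r : ℕ}

lemma Good.area_leg (hr : r ≤ 1) (hk : 1 ≤ k) [NeZero (2 * (2 * k + r))]
    {f : ZMod (2 * (2 * k + r)) → ℤ × ℤ} (h : Good f) : area f ≤ k * (k + r) := by
  obtain ⟨A, B, y0, hA, hb⟩ := h.exists_box
  have h1 := area_le h.step hb.hx hb.hy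
  have h2 := (two_mul_le h.step hb.hx hb.hy hb.hx0 hb.hx1 hb.hy0 hb.hy1).1
  by_cases hAB : A + B = 2 * k + r
  · have hj : (A : ℤ) * B = (k : ℤ) * (k + r) - ((A : ℤ) - k - r) * ((A : ℤ) - k - r + r) := by
      have : (B : ℤ) = 2 * k + r - A := by omega
      rw [this]; ring
    have := jj_nonneg hr ((A : ℤ) - k - r)
    zify at h1 ⊢
    linarith
  · obtain ⟨e, he⟩ : ∃ e, A + B + e = 2 * k + r := ⟨2 * k + r - (A + B), by omega⟩
    have h4 := four_AB hr he (by omega)
    have h5 : 0 ≤ k * e := Nat.zero_le _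
    omega

lemma p_zerog (hr : r ≤ 1) (hk : 1 ≤ k) {n : ℕ} (hn : k * (k + r) < n) : p (2 * k + r) n = 0 := by
  classical
  have : NeZero (2 * (2 * k + r)) := ⟨by omega⟩
  rw [p_eqg (by omega), Finset.card_eq_zero, Finset.filter_eq_empty_iff]
  intro f hf h
  have := (good_ofg (by omega) hf).area_leg hr hk
  omega

lemma finsum_eqg (hr : r ≤ 1) (hk : 1 ≤ k) (q : ℝ) (g : ℕ → ℝ) :
    ∑ᶠ n : ℕ, g n * ((p (2 * k + r) n : ℝ) * q ^ n) =
      ∑ n ∈ range (k * (k + r) + 1), g n * ((p (2 * k + r) n : ℝ) * q ^ n) := by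
  apply finsum_eq_sum_of_support_subset
  intro n hn
  rw [Finset.mem_coe, Finset.mem_range]
  by_contra hcon
  apply hn
  simp only
  rw [p_zerog hr hk (by omega)]
  simp

lemma finsum_eq1g (hr : r ≤ 1) (hk : 1 ≤ k) (q : ℝ) :
    ∑ᶠ n : ℕ, ((p (2 * k + r) n : ℝ) * q ^ n) =
      ∑ n ∈ range (k * (k + r) + 1), ((p (2 * k + r) n : ℝ) * q ^ n) := by
  have := finsum_eqg hr hk q (fun _ => 1)
  simpa only [one_mul] using this

lemma sum_areag (hr : r ≤ 1) (hk : 1 ≤ k) (q : ℝ) :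
    ∑ n ∈ range (k * (k + r) + 1), ((p (2 * k + r) n : ℝ) * q ^ n) =
      ∑ f ∈ SFg (m := 2 * k + r) (by omega), q ^ area f := by
  classical
  have : NeZero (2 * (2 * k + r)) := ⟨by omega⟩
  rw [← Finset.sum_fiberwise_of_maps_to (g := area) (t := range (k * (k + r) + 1))
    (fun f hf => Finset.mem_range.2 (by
      have := (good_ofg (by omega) hf).area_leg hr hk; omega))]
  refine Finset.sum_congr rfl fun n _ => ?_
  rw [p_eqg (m := 2 * k + r) (by omega), Finset.sum_congr rfl (g := fun _ => q ^ n)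
    (fun f hf => by rw [(Finset.mem_filter.1 hf).2]), Finset.sum_const, nsmul_eq_mul]

end

/-! ### the limit law -/

/-- number of polygons with area `k (k + r) - e`, zero if `e > k (k + r)` -/
noncomputable def cc (r k e : ℕ) : ℝ :=
  if e ≤ k * (k + r) then (p (2 * k + r) (k * (k + r) - e) : ℝ) else 0

lemma cc_nonneg (r k e : ℕ) : 0 ≤ cc r k e := by
  unfold cc
  split_ifs
  · exact Nat.cast_nonneg _
  · exact le_rfl

lemma cc_tendsto {r : ℕ} (hr : r ≤ 1) (e : ℕ) : ∀ᶠ k : ℕ in atTop, cc r k e = coef r e := by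
  filter_upwards [eventually_ge_atTop (3 * e + 6)] with k hk
  unfold cc
  rw [if_pos (by nlinarith), count hr hk]

/-- the partition function, rescaled -/
lemma Z_eq {r k : ℕ} {q : ℝ} (hq : 0 < q) :
    ∑ n ∈ range (k * (k + r) + 1), ((p (2 * k + r) n : ℝ) * q ^ n) =
      q ^ (k * (k + r)) * ∑' e, cc r k e * (q⁻¹) ^ e := by
  rw [tsum_eq_sum (s := range (k * (k + r) + 1))]
  · rw [Finset.mul_sum, ← Finset.sum_range_reflect]
    refine Finset.sum_congr rfl fun e he => ?_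
    rw [Finset.mem_range] at he
    have e1 : k * (k + r) + 1 - 1 - e = k * (k + r) - e := by omega
    unfold cc
    rw [e1, if_pos (by omega)]
    have e2 : q ^ (k * (k + r)) = q ^ (k * (k + r) - e) * q ^ e := by
      rw [← pow_add]
      congr 1
      omega
    rw [e2, inv_pow]
    have : q ^ e ≠ 0 := (pow_pos hq e).ne'
    field_simp
  · intro e he
    rw [Finset.mem_range] at he
    unfold cc
    rw [if_neg (by omega), zero_mul]

lemma cc_bound {r : ℕ} (hr : r ≤ 1) {q : ℝ} (hq : 1 < q) :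
    ∃ K : ℝ, 0 < K ∧ ∀ᶠ k : ℕ in atTop, ∀ e, cc r k e ≤ K * q ^ e := by
  obtain ⟨K, hK, h⟩ := Z_allg r hr hq
  refine ⟨K, hK, ?_⟩
  filter_upwards [h, eventually_ge_atTop 1] with k hk hk1 e
  have hq0 : 0 < q := by linarith
  have h1 := hk hk1 (SFg (m := 2 * k + r) (by omega)) (fun f hf => good_ofg (by omega) hf)
  rw [← sum_areag hr hk1] at h1
  unfold cc
  split_ifs with he
  · have h2 : (p (2 * k + r) (k * (k + r) - e) : ℝ) * q ^ (k * (k + r) - e) ≤
        ∑ n ∈ range (k * (k + r) + 1), ((p (2 * k + r) n : ℝ) * q ^ n) :=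
      Finset.single_le_sum (f := fun n => (p (2 * k + r) n : ℝ) * q ^ n)
        (fun n _ => mul_nonneg (Nat.cast_nonneg _) (pow_nonneg hq0.le _))
        (Finset.mem_range.2 (by omega))
    have e2 : q ^ (k * (k + r)) = q ^ (k * (k + r) - e) * q ^ e := by
      rw [← pow_add]
      congr 1
      omega
    rw [e2] at h1
    have h3 : 0 < q ^ (k * (k + r) - e) := pow_pos hq0 _
    have h4 : q ^ (k * (k + r) - e) * (p (2 * k + r) (k * (k + r) - e) : ℝ) ≤
        q ^ (k * (k + r) - e) * (K * q ^ e) := by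
      linarith
    exact le_of_mul_le_mul_left h4 h3
  · exact mul_nonneg hK.le (pow_nonneg hq0.le _)

lemma coef_bound {r : ℕ} (hr : r ≤ 1) {q : ℝ} (hq : 1 < q) :
    ∃ K : ℝ, 0 < K ∧ ∀ e, (coef r e : ℝ) ≤ K * q ^ e := by
  obtain ⟨K, hK, h⟩ := cc_bound hr hq
  refine ⟨K, hK, fun e => ?_⟩
  obtain ⟨k, h1, h2⟩ := (h.and (cc_tendsto hr e)).exists
  rw [← h2]
  exact h1 e

lemma coef_zero {r : ℕ} (hr : r ≤ 1) : 1 ≤ coef r 0 := by
  classical
  rw [← count (k := 6) hr (d := 0) (by norm_num), p_eqg (by omega), Nat.one_le_iff_ne_zero,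
    Finset.card_ne_zero]
  have : NeZero (2 * (2 * 6 + r)) := ⟨by omega⟩
  obtain ⟨g, hg, ha, -⟩ := real_of (k := 6) (d := 0) hr (by norm_num) (x := (0, fun _ => 0))
    ⟨fun i => by intro a b _; simp, by simp⟩
  refine ⟨g, ?_⟩
  rw [Finset.mem_filter, mem_SFg, isSAP_iff]
  exact ⟨hg, by omega⟩

lemma summable_coef {r : ℕ} (hr : r ≤ 1) {q : ℝ} (hq : 1 < q) :
    Summable (fun e => (coef r e : ℝ) * (q⁻¹) ^ e) := by
  obtain ⟨K, hK, h⟩ := coef_bound hr (q := (1 + q) / 2) (by linarith)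
  have hq0 : 0 < q := by linarith
  apply Summable.of_nonneg_of_le (fun e => by positivity)
    (f := fun e => K * ((1 + q) / 2 * q⁻¹) ^ e)
  · intro e
    rw [mul_pow, ← mul_assoc]
    exact mul_le_mul_of_nonneg_right (h e) (by positivity)
  · apply Summable.mul_left
    apply summable_geometric_of_lt_one (by positivity)
    rw [← div_eq_mul_inv, div_lt_one hq0]
    linarith

lemma tsum_coef_pos {r : ℕ} (hr : r ≤ 1) {q : ℝ} (hq : 1 < q) :
    0 < ∑' e, (coef r e : ℝ) * (q⁻¹) ^ e := by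
  have hq0 : 0 < q := by linarith
  apply (summable_coef hr hq).tsum_pos (fun e => by positivity) 0
  have : (1 : ℝ) ≤ coef r 0 := by exact_mod_cast coef_zero hr
  simp only [pow_zero, mul_one]
  linarith

/-- **the limit law** -/
theorem law {r : ℕ} (hr : r ≤ 1) {q : ℝ} (hq : 1 < q) (d : ℕ) :
    Tendsto (fun k : ℕ => E q (2 * k + r) (fun n => if n + d = k * (k + r) then 1 else 0)) atTop
      (𝓝 ((coef r d : ℝ) * (q⁻¹) ^ d / ∑' e, (coef r e : ℝ) * (q⁻¹) ^ e)) := by
  have hq0 : 0 < q := by linarith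
  obtain ⟨K, hK, hb⟩ := cc_bound hr (q := (1 + q) / 2) (by linarith)
  have hT : Tendsto (fun k : ℕ => ∑' e, cc r k e * (q⁻¹) ^ e) atTop
      (𝓝 (∑' e, (coef r e : ℝ) * (q⁻¹) ^ e)) := by
    apply tendsto_tsum_of_dominated_convergence (bound := fun e => K * ((1 + q) / 2 * q⁻¹) ^ e)
    · apply Summable.mul_left
      apply summable_geometric_of_lt_one (by positivity)
      rw [← div_eq_mul_inv, div_lt_one hq0]
      linarith
    · intro e
      apply tendsto_const_nhds.congr'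
      filter_upwards [cc_tendsto hr e] with k hk
      rw [hk]
    · filter_upwards [hb] with k hk e
      rw [Real.norm_of_nonneg (mul_nonneg (cc_nonneg r k e) (by positivity)), mul_pow,
        ← mul_assoc]
      exact mul_le_mul_of_nonneg_right (hk e) (by positivity)
  have hpos := tsum_coef_pos hr hq
  have hD : Tendsto (fun k : ℕ => cc r k d * (q⁻¹) ^ d) atTop
      (𝓝 ((coef r d : ℝ) * (q⁻¹) ^ d)) := by
    apply tendsto_const_nhds.congr'
    filter_upwards [cc_tendsto hr d] with k hk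
    rw [hk]
  apply (hD.div hT hpos.ne').congr'
  filter_upwards [eventually_ge_atTop (d + 1)] with k hk
  have hdk : d ≤ k * (k + r) := by nlinarith
  unfold E
  rw [finsum_eqg hr (by omega), finsum_eq1g hr (by omega), Z_eq hq0]
  have e1 : ∑ n ∈ range (k * (k + r) + 1), (if n + d = k * (k + r) then (1 : ℝ) else 0) *
      ((p (2 * k + r) n : ℝ) * q ^ n) = q ^ (k * (k + r)) * (cc r k d * (q⁻¹) ^ d) := by
    rw [Finset.sum_eq_single (k * (k + r) - d)]
    · rw [if_pos (by omega), one_mul]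
      unfold cc
      rw [if_pos hdk]
      have e2 : q ^ (k * (k + r)) = q ^ (k * (k + r) - d) * q ^ d := by
        rw [← pow_add]
        congr 1
        omega
      rw [e2, inv_pow]
      have : q ^ d ≠ 0 := (pow_pos hq0 d).ne'
      field_simp
    · intro n hn hne
      rw [if_neg (by omega), zero_mul]
    · intro hn
      exact absurd (Finset.mem_range.2 (by omega)) hn
  rw [e1]
  have : q ^ (k * (k + r)) ≠ 0 := (pow_pos hq0 _).ne'
  simp only [Pi.div_apply]
  rw [mul_div_mul_left _ _ this]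

/-- the rescaled numerator of an expectation -/
lemma Z_eqg {r k : ℕ} {q : ℝ} (hq : 0 < q) (g : ℕ → ℝ) :
    ∑ n ∈ range (k * (k + r) + 1), g (k * (k + r) - n) * ((p (2 * k + r) n : ℝ) * q ^ n) =
      q ^ (k * (k + r)) * ∑' e, g e * (cc r k e * (q⁻¹) ^ e) := by
  rw [tsum_eq_sum (s := range (k * (k + r) + 1))]
  · rw [Finset.mul_sum, ← Finset.sum_range_reflect]
    refine Finset.sum_congr rfl fun e he => ?_
    rw [Finset.mem_range] at he
    have e1 : k * (k + r) + 1 - 1 - e = k * (k + r) - e := by omega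
    have e3 : k * (k + r) - (k * (k + r) - e) = e := by omega
    unfold cc
    rw [e1, e3, if_pos (by omega)]
    have e2 : q ^ (k * (k + r)) = q ^ (k * (k + r) - e) * q ^ e := by
      rw [← pow_add]
      congr 1
      omega
    rw [e2, inv_pow]
    have : q ^ e ≠ 0 := (pow_pos hq e).ne'
    field_simp
  · intro e he
    rw [Finset.mem_range] at he
    unfold cc
    rw [if_neg (by omega), zero_mul, mul_zero]

/-- **the limit law**, with all exponential moments of order less than `log q` -/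
theorem lawg {r : ℕ} (hr : r ≤ 1) {q : ℝ} (hq : 1 < q) {g : ℕ → ℝ} {C ρ : ℝ} (hρ0 : 0 ≤ ρ)
    (hρ : ρ < q) (hg : ∀ e, |g e| ≤ C * ρ ^ e) :
    Tendsto (fun k : ℕ => E q (2 * k + r) (fun n => g (k * (k + r) - n))) atTop
      (𝓝 ((∑' e, g e * ((coef r e : ℝ) * (q⁻¹) ^ e)) / ∑' e, (coef r e : ℝ) * (q⁻¹) ^ e)) := by
  have hq0 : 0 < q := by linarith
  -- a base `s > 1` with `ρ s < q` and `s < q`
  set ρ1 : ℝ := max ρ 1 with hρ1
  have hρ1q : ρ1 < q := max_lt hρ hq
  have hρ1pos : 1 ≤ ρ1 := le_max_right _ _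
  set s : ℝ := (1 + q / ρ1) / 2 with hs
  have h1s : 1 < q / ρ1 := by rw [one_lt_div (by linarith)]; exact hρ1q
  have hs1 : 1 < s := by rw [hs]; linarith
  have hsq : s < q / ρ1 := by rw [hs]; linarith
  have hlt : ρ1 * s * q⁻¹ < 1 := by
    rw [← div_eq_mul_inv, div_lt_one hq0]
    rw [lt_div_iff₀ (by linarith)] at hsq
    linarith
  obtain ⟨K, hK, hb⟩ := cc_bound hr hs1
  have hC : 0 ≤ C := by
    have := (abs_nonneg _).trans (hg 0)
    simpa using this
  have hg' : ∀ e, |g e| ≤ C * ρ1 ^ e := fun e => (hg e).trans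
    (mul_le_mul_of_nonneg_left (pow_le_pow_left₀ hρ0 (le_max_left _ _) e) hC)
  have hgeo : Summable (fun e : ℕ => C * K * (ρ1 * s * q⁻¹) ^ e) := by
    apply Summable.mul_left
    exact summable_geometric_of_lt_one (by positivity) hlt
  have hbd : ∀ k : ℕ, (∀ e, cc r k e ≤ K * s ^ e) → ∀ e, ‖g e * (cc r k e * (q⁻¹) ^ e)‖ ≤
      C * K * (ρ1 * s * q⁻¹) ^ e := by
    intro k hk e
    rw [norm_mul, Real.norm_eq_abs, Real.norm_of_nonneg (mul_nonneg (cc_nonneg r k e)
      (by positivity))]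
    calc |g e| * (cc r k e * (q⁻¹) ^ e) ≤ (C * ρ1 ^ e) * ((K * s ^ e) * (q⁻¹) ^ e) := by
          apply mul_le_mul (hg' e) _ (mul_nonneg (cc_nonneg r k e) (by positivity))
            (by positivity)
          exact mul_le_mul_of_nonneg_right (hk e) (by positivity)
      _ = C * K * (ρ1 * s * q⁻¹) ^ e := by rw [mul_pow, mul_pow]; ring
  have hN : Tendsto (fun k : ℕ => ∑' e, g e * (cc r k e * (q⁻¹) ^ e)) atTop
      (𝓝 (∑' e, g e * ((coef r e : ℝ) * (q⁻¹) ^ e))) := by
    apply tendsto_tsum_of_dominated_convergence hgeo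
    · intro e
      apply tendsto_const_nhds.congr'
      filter_upwards [cc_tendsto hr e] with k hk
      rw [hk]
    · filter_upwards [hb] with k hk e
      exact hbd k hk e
  obtain ⟨K', hK', hb'⟩ := cc_bound hr (q := (1 + q) / 2) (by linarith)
  have hT : Tendsto (fun k : ℕ => ∑' e, cc r k e * (q⁻¹) ^ e) atTop
      (𝓝 (∑' e, (coef r e : ℝ) * (q⁻¹) ^ e)) := by
    apply tendsto_tsum_of_dominated_convergence (bound := fun e => K' * ((1 + q) / 2 * q⁻¹) ^ e)
    · apply Summable.mul_left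
      apply summable_geometric_of_lt_one (by positivity)
      rw [← div_eq_mul_inv, div_lt_one hq0]
      linarith
    · intro e
      apply tendsto_const_nhds.congr'
      filter_upwards [cc_tendsto hr e] with k hk
      rw [hk]
    · filter_upwards [hb'] with k hk e
      rw [Real.norm_of_nonneg (mul_nonneg (cc_nonneg r k e) (by positivity)), mul_pow,
        ← mul_assoc]
      exact mul_le_mul_of_nonneg_right (hk e) (by positivity)
  apply (hN.div hT (tsum_coef_pos hr hq).ne').congr'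
  filter_upwards [eventually_ge_atTop 1] with k hk
  unfold E
  rw [finsum_eqg hr hk, finsum_eq1g hr hk, Z_eq hq0, Z_eqg hq0]
  have : q ^ (k * (k + r)) ≠ 0 := (pow_pos hq0 _).ne'
  simp only [Pi.div_apply]
  rw [mul_div_mul_left _ _ this]

end H404SAP
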