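import Pool.Agent.H404R3.PolyLim

/-!
# Mean and variance of the area
-/

namespace H404SAP

open Finset Filter Topology

set_option linter.unusedSectionVars false

/-- the normalising constant `Z_r(q) = ∑_e coef r e q ^ (-e)` -/
noncomputable def ZD (r : ℕ) (q : ℝ) : ℝ := ∑' e, (coef r e : ℝ) * (q⁻¹) ^ e

/-- expectation of `g(D)`, where `P(D = e) = coef r e q ^ (-e) / Z_r(q)` -/
noncomputable def ED (r : ℕ) (q : ℝ) (g : ℕ → ℝ) : ℝ :=
  (∑' e, g e * ((coef r e : ℝ) * (q⁻¹) ^ e)) / ZD r q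

/-- the mean of `D` -/
noncomputable def meanD (r : ℕ) (q : ℝ) : ℝ := ED r q (fun e => (e : ℝ))

/-- the variance of `D` -/
noncomputable def varD (r : ℕ) (q : ℝ) : ℝ := ED r q (fun e => ((e : ℝ) - meanD r q) ^ 2)

lemma summable_g {r : ℕ} (hr : r ≤ 1) {q : ℝ} (hq : 1 < q) {g : ℕ → ℝ} {C ρ : ℝ} (hρ0 : 0 ≤ ρ)
    (hρ : ρ < q) (hg : ∀ e, |g e| ≤ C * ρ ^ e) :
    Summable (fun e => g e * ((coef r e : ℝ) * (q⁻¹) ^ e)) := by
  have hq0 : 0 < q := by linarith
  set ρ1 : ℝ := max ρ 1 with hρ1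
  have hρ1q : ρ1 < q := max_lt hρ hq
  have hρ1pos : 1 ≤ ρ1 := le_max_right _ _
  set s : ℝ := (1 + q / ρ1) / 2 with hs
  have h1s : 1 < q / ρ1 := by rw [one_lt_div (by linarith)]; exact hρ1q
  have hs1 : 1 < s := by rw [hs]; linarith
  have hsq : s < q / ρ1 := by rw [hs]; linarith
  have hlt : ρ1 * s * q⁻¹ < 1 := by
    rw [← div_eq_mul_inv, div_lt_one hq0]
    rw [lt_div_iff₀ (by linarith)] at hsq
    linarith
  obtain ⟨K, hK, hb⟩ := coef_bound hr hs1
  have hC : 0 ≤ C := by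
    have := (abs_nonneg _).trans (hg 0)
    simpa using this
  have hg' : ∀ e, |g e| ≤ C * ρ1 ^ e := fun e => (hg e).trans
    (mul_le_mul_of_nonneg_left (pow_le_pow_left₀ hρ0 (le_max_left _ _) e) hC)
  apply Summable.of_norm_bounded (g := fun e => C * K * (ρ1 * s * q⁻¹) ^ e)
  · apply Summable.mul_left
    exact summable_geometric_of_lt_one (by positivity) hlt
  · intro e
    rw [norm_mul, Real.norm_eq_abs, Real.norm_of_nonneg (by positivity)]
    calc |g e| * ((coef r e : ℝ) * (q⁻¹) ^ e) ≤ (C * ρ1 ^ e) * ((K * s ^ e) * (q⁻¹) ^ e) := by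
          apply mul_le_mul (hg' e) _ (by positivity) (by positivity)
          exact mul_le_mul_of_nonneg_right (hb e) (by positivity)
      _ = C * K * (ρ1 * s * q⁻¹) ^ e := by rw [mul_pow, mul_pow]; ring

/-- polynomial growth is slower than geometric growth -/
lemma lin_bound {ρ : ℝ} (hρ : 1 < ρ) (a : ℝ) : ∃ C : ℝ, ∀ e : ℕ, |((e : ℝ) - a) ^ 2| ≤ C * ρ ^ e := by
  have h := tendsto_pow_const_div_const_pow_of_one_lt 2 hρ
  obtain ⟨C1, hC1⟩ := (h.bddAbove_range)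
  refine ⟨2 * C1 + 2 * a ^ 2, fun e => ?_⟩
  have h1 : ((e : ℝ) ^ 2 / ρ ^ e) ≤ C1 := hC1 ⟨e, rfl⟩
  have hp : 0 < ρ ^ e := by positivity
  rw [div_le_iff₀ hp] at h1
  have h2 : 1 ≤ ρ ^ e := one_le_pow₀ hρ.le
  rw [abs_of_nonneg (sq_nonneg _)]
  nlinarith [sq_nonneg ((e : ℝ) + a), sq_nonneg a]

lemma id_bound {ρ : ℝ} (hρ : 1 < ρ) : ∃ C : ℝ, ∀ e : ℕ, |((e : ℝ))| ≤ C * ρ ^ e := by
  obtain ⟨C, hC⟩ := lin_bound hρ 0
  refine ⟨C, fun e => (le_trans ?_ (hC e))⟩
  rw [sub_zero, abs_of_nonneg (Nat.cast_nonneg e), abs_of_nonneg (sq_nonneg _)]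
  rcases Nat.eq_zero_or_pos e with h | h
  · simp [h]
  · have : (1 : ℝ) ≤ e := by exact_mod_cast h
    nlinarith

lemma coef_one {r : ℕ} (hr : r ≤ 1) : 1 ≤ coef r 1 := by
  classical
  rw [← count (k := 9) hr (d := 1) (by norm_num), p_eqg (by omega), Nat.one_le_iff_ne_zero,
    Finset.card_ne_zero]
  have : NeZero (2 * (2 * 9 + r)) := ⟨by omega⟩
  obtain ⟨g, hg, ha, -⟩ := real_of (k := 9) (d := 1) hr (by norm_num)
    (x := (0, fun i => if i = 0 then Finsupp.single 0 1 else 0))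
    ⟨fun i => by
      intro a b hab
      by_cases hi : i = 0
      · simp only [hi, if_true]
        rw [Finsupp.single_apply, Finsupp.single_apply]
        split_ifs <;> omega
      · simp [hi], by
      rw [Fin.sum_univ_four]
      simp⟩
  refine ⟨g, ?_⟩
  rw [Finset.mem_filter, mem_SFg, isSAP_iff]
  exact ⟨hg, by omega⟩

section

variable {r : ℕ} {q : ℝ}

lemma ZD_pos (hr : r ≤ 1) (hq : 1 < q) : 0 < ZD r q := tsum_coef_pos hr hq

lemma varD_pos (hr : r ≤ 1) (hq : 1 < q) : 0 < varD r q := by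
  have hq0 : 0 < q := by linarith
  obtain ⟨C, hC⟩ := lin_bound (ρ := (1 + q) / 2) (by linarith) (meanD r q)
  have hs := summable_g hr hq (by linarith) (by linarith) hC
  apply div_pos _ (ZD_pos hr hq)
  have h0 : (1 : ℝ) ≤ coef r 0 := by exact_mod_cast coef_zero hr
  have h1 : (1 : ℝ) ≤ coef r 1 := by exact_mod_cast coef_one hr
  by_cases hm : meanD r q = 0
  · apply hs.tsum_pos (fun e => by positivity) 1
    rw [hm]
    simp only [Nat.cast_one, sub_zero, one_pow, one_mul, pow_one]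
    have : 0 < q⁻¹ := by positivity
    positivity
  · apply hs.tsum_pos (fun e => by positivity) 0
    simp only [Nat.cast_zero, zero_sub, even_two, Even.neg_pow, pow_zero, mul_one]
    positivity

lemma E_eq (hr : r ≤ 1) {k : ℕ} (hk : 1 ≤ k) (h : ℕ → ℝ) :
    E q (2 * k + r) h = (∑ n ∈ range (k * (k + r) + 1), h n * ((p (2 * k + r) n : ℝ) * q ^ n)) /
      ∑ n ∈ range (k * (k + r) + 1), ((p (2 * k + r) n : ℝ) * q ^ n) := by
  unfold E
  rw [finsum_eqg hr hk, finsum_eq1g hr hk]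

/-- mean and variance in terms of the deficit -/
lemma mean_var (hr : r ≤ 1) {k : ℕ} (hk : 1 ≤ k)
    (hZ : ∑ n ∈ range (k * (k + r) + 1), ((p (2 * k + r) n : ℝ) * q ^ n) ≠ 0) (a : ℝ) :
    ((k * (k + r) : ℕ) : ℝ) - meanX q (2 * k + r) =
      E q (2 * k + r) (fun n => (((k * (k + r) - n : ℕ) : ℝ))) ∧
    varX q (2 * k + r) = E q (2 * k + r) (fun n => (((k * (k + r) - n : ℕ) : ℝ) - a) ^ 2) -
      (E q (2 * k + r) (fun n => (((k * (k + r) - n : ℕ) : ℝ))) - a) ^ 2 := by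
  set M : ℕ := k * (k + r) with hM
  set Z : ℝ := ∑ n ∈ range (M + 1), ((p (2 * k + r) n : ℝ) * q ^ n) with hZdef
  have hcast : ∀ n ∈ range (M + 1), ((M - n : ℕ) : ℝ) = (M : ℝ) - n := by
    intro n hn
    rw [Finset.mem_range] at hn
    exact Nat.cast_sub (by omega)
  have hmean : meanX q (2 * k + r) =
      (∑ n ∈ range (M + 1), (n : ℝ) * ((p (2 * k + r) n : ℝ) * q ^ n)) / Z := by
    unfold meanX
    rw [E_eq hr hk]
  set S1 : ℝ := ∑ n ∈ range (M + 1), (n : ℝ) * ((p (2 * k + r) n : ℝ) * q ^ n) with hS1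
  set S2 : ℝ := ∑ n ∈ range (M + 1), (n : ℝ) ^ 2 * ((p (2 * k + r) n : ℝ) * q ^ n) with hS2
  have hdef : E q (2 * k + r) (fun n => (((M - n : ℕ) : ℝ))) = (M * Z - S1) / Z := by
    rw [E_eq hr hk]
    congr 1
    rw [hS1, hZdef, Finset.mul_sum, ← Finset.sum_sub_distrib]
    refine Finset.sum_congr rfl fun n hn => ?_
    rw [hcast n hn]
    ring
  have hquad : ∀ b c : ℝ, (∑ n ∈ range (M + 1), (b - c * (n : ℝ)) ^ 2 *
      ((p (2 * k + r) n : ℝ) * q ^ n)) = b ^ 2 * Z - 2 * b * c * S1 + c ^ 2 * S2 := by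
    intro b c
    rw [hZdef, hS1, hS2, Finset.mul_sum, Finset.mul_sum, Finset.mul_sum,
      ← Finset.sum_sub_distrib, ← Finset.sum_add_distrib]
    refine Finset.sum_congr rfl fun n _ => ?_
    ring
  have hv : varX q (2 * k + r) = ((S1 / Z) ^ 2 * Z - 2 * (S1 / Z) * 1 * S1 + 1 ^ 2 * S2) / Z := by
    unfold varX
    rw [E_eq hr hk, hmean, ← hquad]
    congr 1
    refine Finset.sum_congr rfl fun n _ => ?_
    ring
  have hd2 : E q (2 * k + r) (fun n => (((M - n : ℕ) : ℝ) - a) ^ 2) =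
      ((M - a) ^ 2 * Z - 2 * (M - a) * 1 * S1 + 1 ^ 2 * S2) / Z := by
    rw [E_eq hr hk, ← hquad]
    congr 1
    refine Finset.sum_congr rfl fun n hn => ?_
    rw [hcast n hn]
    ring
  constructor
  · rw [hdef, hmean]
    field_simp
  · rw [hv, hd2, hdef]
    field_simp
    ring

lemma Z_ne (hr : r ≤ 1) (hq : 1 < q) : ∀ᶠ k : ℕ in atTop,
    ∑ n ∈ range (k * (k + r) + 1), ((p (2 * k + r) n : ℝ) * q ^ n) ≠ 0 := by
  filter_upwards [cc_tendsto hr 0] with k hk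
  have hq0 : 0 < q := by linarith
  have h0 : (1 : ℝ) ≤ coef r 0 := by exact_mod_cast coef_zero hr
  have h1 : (p (2 * k + r) (k * (k + r)) : ℝ) * q ^ (k * (k + r)) ≤
      ∑ n ∈ range (k * (k + r) + 1), ((p (2 * k + r) n : ℝ) * q ^ n) :=
    Finset.single_le_sum (f := fun n => (p (2 * k + r) n : ℝ) * q ^ n)
      (fun n _ => mul_nonneg (Nat.cast_nonneg _) (pow_nonneg hq0.le _))
      (Finset.mem_range.2 (by omega))
  unfold cc at hk
  rw [if_pos (Nat.zero_le _), Nat.sub_zero] at hk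
  rw [hk] at h1
  have h2 : 0 < (coef r 0 : ℝ) * q ^ (k * (k + r)) := by positivity
  linarith

lemma mean_tendsto (hr : r ≤ 1) (hq : 1 < q) :
    Tendsto (fun k : ℕ => ((k * (k + r) : ℕ) : ℝ) - meanX q (2 * k + r)) atTop
      (𝓝 (meanD r q)) := by
  obtain ⟨C, hC⟩ := id_bound (ρ := (1 + q) / 2) (by linarith)
  have h := lawg hr hq (by linarith) (by linarith) hC
  apply h.congr'
  filter_upwards [Z_ne hr hq, eventually_ge_atTop 1] with k hk hk1
  exact (mean_var hr hk1 hk 0).1.symm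

lemma var_tendsto (hr : r ≤ 1) (hq : 1 < q) :
    Tendsto (fun k : ℕ => varX q (2 * k + r)) atTop (𝓝 (varD r q)) := by
  obtain ⟨C, hC⟩ := id_bound (ρ := (1 + q) / 2) (by linarith)
  have h1 : Tendsto (fun k : ℕ => E q (2 * k + r) (fun n => (((k * (k + r) - n : ℕ) : ℝ))))
      atTop (𝓝 (meanD r q)) := lawg hr hq (by linarith) (by linarith) hC
  obtain ⟨C', hC'⟩ := lin_bound (ρ := (1 + q) / 2) (by linarith) (meanD r q)
  have h2 : Tendsto (fun k : ℕ => E q (2 * k + r)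
      (fun n => (((k * (k + r) - n : ℕ) : ℝ) - meanD r q) ^ 2)) atTop (𝓝 (varD r q)) :=
    lawg hr hq (by linarith) (by linarith) hC'
  have h3 := h2.sub ((h1.sub_const (meanD r q)).pow 2)
  rw [sub_self, zero_pow (by norm_num), sub_zero] at h3
  apply h3.congr'
  filter_upwards [Z_ne hr hq, eventually_ge_atTop 1] with k hk hk1
  exact (mean_var hr hk1 hk (meanD r q)).2.symm

end

end H404SAP
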