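import Pool.Agent.H404R3.PolyLim

/-!
# No continuous limit law
-/

namespace H404SAP

open Finset Filter Topology

set_option linter.unusedSectionVars false

lemma Z_geg {k r : ℕ} (hr : r ≤ 1) (hk : 6 ≤ k) {q : ℝ} (hq0 : 0 < q) (x : ℕ → Prop)
    [DecidablePred x] (hx : x (k * (k + r))) :
    q ^ (k * (k + r)) ≤
      ∑ n ∈ (range (k * (k + r) + 1)).filter x, ((p (2 * k + r) n : ℝ) * q ^ n) := by
  have h1 : k * (k + r) ∈ (range (k * (k + r) + 1)).filter x := by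
    rw [Finset.mem_filter, Finset.mem_range]
    exact ⟨by omega, hx⟩
  have h2 := Finset.single_le_sum (f := fun n => (p (2 * k + r) n : ℝ) * q ^ n)
    (fun n _ => mul_nonneg (Nat.cast_nonneg _) (pow_nonneg hq0.le _)) h1
  refine le_trans ?_ h2
  have h3 : (1 : ℝ) ≤ p (2 * k + r) (k * (k + r)) := by
    have := count (d := 0) hr (by omega : 3 * 0 + 6 ≤ k)
    rw [Nat.sub_zero] at this
    rw [this]
    exact_mod_cast coef_zero hr
  exact le_mul_of_one_le_left (pow_nonneg hq0.le _) h3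

/-- the distribution function takes no value in `(1 - 1/K, 1)` -/
lemma cdf_valuesg {k r : ℕ} (hr : r ≤ 1) (hk : 6 ≤ k) {q K : ℝ} (hq0 : 0 < q) (hK : 0 < K)
    (hZ : ∑ n ∈ range (k * (k + r) + 1), ((p (2 * k + r) n : ℝ) * q ^ n) ≤
      K * q ^ (k * (k + r))) (x : ℝ) :
    cdfX q (2 * k + r) x ∈ Set.Iic (1 - 1 / K : ℝ) ∪ {1} := by
  classical
  unfold cdfX E
  rw [finsum_eqg hr (by omega), finsum_eq1g hr (by omega)]
  have e : ∑ n ∈ range (k * (k + r) + 1), (if (n : ℝ) ≤ x then (1 : ℝ) else 0) *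
      ((p (2 * k + r) n : ℝ) * q ^ n) =
      ∑ n ∈ (range (k * (k + r) + 1)).filter (fun n : ℕ => (n : ℝ) ≤ x),
        ((p (2 * k + r) n : ℝ) * q ^ n) := by
    rw [Finset.sum_filter]
    refine Finset.sum_congr rfl fun n _ => ?_
    split_ifs <;> simp
  rw [e]
  have hZ1 := Z_geg hr hk hq0 (fun _ => True) trivial
  simp only [Finset.filter_true] at hZ1
  have hqp : 0 < q ^ (k * (k + r)) := pow_pos hq0 _
  have hZpos : 0 < ∑ n ∈ range (k * (k + r) + 1), ((p (2 * k + r) n : ℝ) * q ^ n) := by linarith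
  rcases le_or_gt ((k * (k + r) : ℕ) : ℝ) x with h | h
  · right
    have : (range (k * (k + r) + 1)).filter (fun n : ℕ => (n : ℝ) ≤ x) =
        range (k * (k + r) + 1) := by
      rw [Finset.filter_eq_self]
      intro n hn
      rw [Finset.mem_range] at hn
      refine le_trans ?_ h
      exact_mod_cast (by omega : n ≤ k * (k + r))
    rw [this, Set.mem_singleton_iff]
    exact div_self hZpos.ne'
  · left
    rw [Set.mem_Iic, div_le_iff₀ hZpos]
    have h1 := Finset.sum_filter_add_sum_filter_not (range (k * (k + r) + 1))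
      (fun n : ℕ => (n : ℝ) ≤ x) (fun n => ((p (2 * k + r) n : ℝ) * q ^ n))
    have h2 := Z_geg hr hk hq0 (fun n : ℕ => ¬ (n : ℝ) ≤ x) (not_le.2 h)
    have h3 : 1 / K * ∑ n ∈ range (k * (k + r) + 1), ((p (2 * k + r) n : ℝ) * q ^ n) ≤
        q ^ (k * (k + r)) := by
      rw [one_div, inv_mul_le_iff₀ hK]
      exact hZ
    linarith

lemma no_limitg {r : ℕ} (hr : r ≤ 1) {q : ℝ} (hq : 1 < q) : ∃ c : ℝ, 0 < c ∧ c < 1 ∧
    ∀ a b : ℕ → ℝ, ∀ G : ℝ → ℝ, ∀ x : ℝ, 1 - c < G x → G x ≠ 1 →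
      ¬ Tendsto (fun k => cdfX q (2 * k + r) (a k + b k * x)) atTop (𝓝 (G x)) := by
  obtain ⟨K0, hK0', h⟩ := Z_allg r hr hq
  have hK : 1 < K0 + 1 := by linarith
  have hK0 : 0 < K0 + 1 := by linarith
  refine ⟨1 / (K0 + 1), by positivity, by rw [div_lt_one hK0]; exact hK, ?_⟩
  intro a b G x h1 h2 hT
  have hclosed : IsClosed (Set.Iic (1 - 1 / (K0 + 1) : ℝ) ∪ {1}) :=
    isClosed_Iic.union isClosed_singleton
  have h5 : G x ∈ Set.Iic (1 - 1 / (K0 + 1) : ℝ) ∪ {1} := by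
    apply hclosed.mem_of_tendsto hT
    filter_upwards [eventually_ge_atTop 6, h] with k hk hk2
    apply cdf_valuesg hr hk (by linarith) hK0
    rw [sum_areag hr (by omega)]
    have h3 := hk2 (by omega) (SFg (m := 2 * k + r) (by omega)) (fun f hf => good_ofg (by omega) hf)
    have h4 : 0 ≤ q ^ (k * (k + r)) := pow_nonneg (by linarith) _
    linarith
  rcases h5 with h5 | h5
  · exact absurd (Set.mem_Iic.1 h5) (not_le.2 h1)
  · exact h2 h5

lemma no_continuous {r : ℕ} (hr : r ≤ 1) {q : ℝ} (hq : 1 < q) (a b : ℕ → ℝ) (G : ℝ → ℝ)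
    (hG : Continuous G) (h0 : Tendsto G atBot (𝓝 0)) (h1 : Tendsto G atTop (𝓝 1)) :
    ¬ ∀ x, Tendsto (fun k => cdfX q (2 * k + r) (a k + b k * x)) atTop (𝓝 (G x)) := by
  obtain ⟨c, hc0, hc1, hno⟩ := no_limitg hr hq
  intro h
  obtain ⟨x, hx⟩ : (1 - c / 2 : ℝ) ∈ Set.range G := by
    apply mem_range_of_exists_le_of_exists_ge hG
    · obtain ⟨y, hy⟩ := (h0.eventually (gt_mem_nhds (by linarith : (0 : ℝ) < 1 - c / 2))).exists
      exact ⟨y, hy.le⟩
    · obtain ⟨y, hy⟩ := (h1.eventually (lt_mem_nhds (by linarith : (1 - c / 2 : ℝ) < 1))).exists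
      exact ⟨y, hy.le⟩
  exact hno a b G x (by rw [hx]; linarith) (by rw [hx]; intro he; linarith) (h x)

end H404SAP
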