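import Pool.Agent.H404R3.PolyFlip

/-!
# Existence of the polygons given by a rectangle with four corner partitions removed
-/

namespace H404SAP

open Finset

set_option linter.unusedSectionVars false

/-- a partition, as a weakly decreasing sequence, with at most `M` parts, all at most `M` -/
structure Pt (M : ℕ) (l : ℕ → ℕ) : Prop where
  anti : Antitone l
  supp : ∀ j, M ≤ j → l j = 0
  bd : ∀ j, l j ≤ M

/-- the size -/
def size (M : ℕ) (l : ℕ → ℕ) : ℕ := ∑ j ∈ range M, l j

/-- the cells of the `A × B` rectangle with the partitions `l0, l1` removed at the top left and top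
right corner and `l2, l3` at the bottom left and bottom right corner -/
def Cell (l0 l1 l2 l3 : ℕ → ℕ) (A B : ℕ) (a b : ℤ) : Prop :=
  ∃ i j : ℕ, a = i ∧ i + j + 1 = A ∧ (l2 i : ℤ) + l3 j ≤ b ∧ b + l0 i + l1 j < B

lemma reduce {M : ℕ} {l : ℕ → ℕ} (h : Pt M l) (h0 : size M l ≠ 0) :
    ∃ l' : ℕ → ℕ, ∃ i0, Pt M l' ∧ size M l' + 1 = size M l ∧
      l = Function.update l' i0 (l' i0 + 1) ∧ (∀ i, i + 1 = i0 → l' i0 + 1 ≤ l' i) ∧
      l' (i0 + 1) ≤ l' i0 ∧ i0 < M ∧ l' i0 + 1 ≤ M := by
  classical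
  obtain ⟨j0, hj0, hj1⟩ : ∃ j ∈ range M, l j ≠ 0 := by
    by_contra hcon
    push Not at hcon
    exact h0 (Finset.sum_eq_zero hcon)
  rw [Finset.mem_range] at hj0
  set i0 := Nat.findGreatest (fun j => 0 < l j) M with hi0
  have hi1 : 0 < l i0 := Nat.findGreatest_spec (P := fun j => 0 < l j) hj0.le (by omega)
  have hi2 : i0 < M := by
    by_contra hcon
    have := h.supp i0 (by omega)
    omega
  have hi3 : ∀ j, i0 < j → l j = 0 := by
    intro j hj
    by_cases hjM : j ≤ M
    · have := Nat.findGreatest_is_greatest (P := fun j => 0 < l j) hj hjM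
      omega
    · exact h.supp j (by omega)
  refine ⟨Function.update l i0 (l i0 - 1), i0, ⟨?_, ?_, ?_⟩, ?_, ?_, ?_, ?_, hi2, ?_⟩
  · apply antitone_nat_of_succ_le
    intro j
    have h1 := h.anti (Nat.le_succ j)
    simp only [Nat.succ_eq_add_one] at h1
    by_cases e1 : j + 1 = i0
    · rw [e1, Function.update_self, Function.update_of_ne (by omega)]
      rw [e1] at h1
      omega
    · by_cases e2 : j = i0
      · rw [Function.update_of_ne (by omega)]
        rw [hi3 (j + 1) (by omega)]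
        exact Nat.zero_le _
      · rw [Function.update_of_ne e1, Function.update_of_ne e2]
        exact h1
  · intro j hj
    rw [Function.update_of_ne (by omega)]
    exact h.supp j hj
  · intro j
    by_cases e2 : j = i0
    · rw [e2, Function.update_self]
      have := h.bd i0
      omega
    · rw [Function.update_of_ne e2]
      exact h.bd j
  · unfold size
    have hm : i0 ∈ range M := Finset.mem_range.2 hi2
    have e1 := Finset.add_sum_erase (range M) (Function.update l i0 (l i0 - 1)) hm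
    have e2 := Finset.add_sum_erase (range M) l hm
    have e3 : ∑ j ∈ (range M).erase i0, Function.update l i0 (l i0 - 1) j =
        ∑ j ∈ (range M).erase i0, l j := by
      apply Finset.sum_congr rfl
      intro j hj
      rw [Function.update_of_ne (Finset.ne_of_mem_erase hj)]
    rw [e3, Function.update_self] at e1
    clear_value i0
    omega
  · rw [Function.update_self, Function.update_idem]
    have : l i0 - 1 + 1 = l i0 := by omega
    rw [this, Function.update_eq_self]
  · intro i hi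
    rw [Function.update_self, Function.update_of_ne (by omega)]
    have := h.anti (show i ≤ i0 by omega)
    omega
  · rw [Function.update_self, Function.update_of_ne (by omega), hi3 (i0 + 1) (by omega)]
    exact Nat.zero_le _
  · rw [Function.update_self]
    have := h.bd i0
    omega

section

variable {n : ℕ} [NeZero n]

/-- the region is enclosed by a loop -/
def RealN (n : ℕ) [NeZero n] (l0 l1 l2 l3 : ℕ → ℕ) (A B : ℕ) : Prop :=
  ∃ f : ZMod n → ℤ × ℤ, Step f ∧ Function.Injective f ∧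
    ∀ a b, Encl f (a, b) ↔ Cell l0 l1 l2 l3 A B a b

lemma symX {l0 l1 l2 l3 : ℕ → ℕ} {A B : ℕ} (h : RealN n l0 l1 l2 l3 A B) :
    RealN n l1 l0 l3 l2 A B := by
  obtain ⟨f, hs, hf, hE⟩ := h
  obtain ⟨g, gs, gf, gE⟩ := reflX hs hf A
  refine ⟨g, gs, gf, fun a b => ?_⟩
  rw [gE, hE]
  unfold Cell
  constructor
  · rintro ⟨i, j, h1, h2, h3, h4⟩
    exact ⟨j, i, by omega, by omega, by omega, by omega⟩
  · rintro ⟨i, j, h1, h2, h3, h4⟩
    exact ⟨j, i, by omega, by omega, by omega, by omega⟩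

lemma symY {l0 l1 l2 l3 : ℕ → ℕ} {A B : ℕ} (h : RealN n l0 l1 l2 l3 A B) :
    RealN n l2 l3 l0 l1 A B := by
  obtain ⟨f, hs, hf, hE⟩ := h
  obtain ⟨g, gs, gf, gE⟩ := reflY hs hf B
  refine ⟨g, gs, gf, fun a b => ?_⟩
  rw [gE, hE]
  unfold Cell
  constructor
  · rintro ⟨i, j, h1, h2, h3, h4⟩
    exact ⟨i, j, h1, h2, by omega, by omega⟩
  · rintro ⟨i, j, h1, h2, h3, h4⟩
    exact ⟨i, j, h1, h2, by omega, by omega⟩

lemma add_cell (h3 : 3 ≤ n) {M : ℕ} {l0 l1 l2 l3 : ℕ → ℕ} {A B : ℕ} (hA : 2 * M + 3 ≤ A)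
    (hB : 2 * M + 3 ≤ B) (_p0 : Pt M l0) (p1 : Pt M l1) (p2 : Pt M l2) (p3 : Pt M l3)
    (h : RealN n l0 l1 l2 l3 A B) {i0 : ℕ} (h1 : ∀ i, i + 1 = i0 → l0 i0 + 1 ≤ l0 i)
    (h2 : l0 (i0 + 1) ≤ l0 i0) (hi0 : i0 < M) (hM : l0 i0 + 1 ≤ M) :
    RealN n (Function.update l0 i0 (l0 i0 + 1)) l1 l2 l3 A B := by
  obtain ⟨f, hs, hf, hE⟩ := h
  have z1 := p1.supp (A - 1 - i0) (by omega)
  have z2 := p3.supp (A - 1 - i0) (by omega)
  have z3 := p1.supp (A - 2 - i0) (by omega)
  have z4 := p3.supp (A - 2 - i0) (by omega)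
  have b1 := p2.bd i0
  have b2 := p2.bd (i0 + 1)
  obtain ⟨g, gs, gf, gE⟩ := flip hs hf h3 (a := (i0 : ℤ)) (b := (B : ℤ) - 1 - l0 i0)
    ((hE _ _).2 ⟨i0, A - 1 - i0, rfl, by omega, by omega, by omega⟩)
    (by
      rw [hE]
      rintro ⟨i, j, e1, e2, e3, e4⟩
      have := h1 i (by omega)
      omega)
    (by
      rw [hE]
      rintro ⟨i, j, e1, e2, e3, e4⟩
      have : i = i0 := by omega
      subst this
      omega)
    ((hE _ _).2 ⟨i0 + 1, A - 2 - i0, by push_cast; ring, by omega, by omega, by omega⟩)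
    ((hE _ _).2 ⟨i0, A - 1 - i0, rfl, by omega, by omega, by omega⟩)
    ((hE _ _).2 ⟨i0 + 1, A - 2 - i0, by push_cast; ring, by omega, by omega, by omega⟩)
  refine ⟨g, gs, gf, fun a b => ?_⟩
  rw [gE, hE]
  unfold Cell
  constructor
  · rintro ⟨⟨i, j, e1, e2, e3, e4⟩, hne⟩
    refine ⟨i, j, e1, e2, e3, ?_⟩
    by_cases hi : i = i0
    · subst hi
      rw [Function.update_self]
      have : b ≠ (B : ℤ) - 1 - l0 i := fun hb => hne (by rw [e1, hb])
      have : j = A - 1 - i := by omega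
      subst this
      push_cast
      omega
    · rw [Function.update_of_ne hi]
      exact e4
  · rintro ⟨i, j, e1, e2, e3, e4⟩
    by_cases hi : i = i0
    · subst hi
      rw [Function.update_self] at e4
      push_cast at e4
      refine ⟨⟨i, j, e1, e2, e3, by omega⟩, ?_⟩
      intro hc
      have hc2 := (Prod.mk.injEq _ _ _ _ ▸ hc).2
      omega
    · rw [Function.update_of_ne hi] at e4
      refine ⟨⟨i, j, e1, e2, e3, e4⟩, ?_⟩
      intro hc
      have hc2 := (Prod.mk.injEq _ _ _ _ ▸ hc).1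
      omega

end

/-! ### rectangles -/

/-- the boundary of the `A × B` rectangle -/
def rect (m A B : ℕ) (j : ZMod (2 * m)) : ℤ × ℤ :=
  if (j.val : ℤ) ≤ A then ((j.val : ℤ), 0) else
  if (j.val : ℤ) ≤ A + B then ((A : ℤ), (j.val : ℤ) - A) else
  if (j.val : ℤ) ≤ 2 * A + B then (2 * (A : ℤ) + B - j.val, (B : ℤ)) else
  (0, 2 * (A : ℤ) + 2 * B - j.val)

section

variable {m A B : ℕ}

lemma val_succ' (hm : 1 ≤ m) (j : ZMod (2 * m)) :
    ((j + 1).val = j.val + 1 ∧ j.val + 1 < 2 * m) ∨ ((j + 1).val = 0 ∧ j.val + 1 = 2 * m) := by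
  have : NeZero (2 * m) := ⟨by omega⟩
  have h1 : (1 : ZMod (2 * m)).val = 1 := by
    rw [ZMod.val_one_eq_one_mod, Nat.mod_eq_of_lt (by omega)]
  have h2 := ZMod.val_lt j
  rw [ZMod.val_add, h1]
  rcases Nat.lt_or_ge (j.val + 1) (2 * m) with h | h
  · left
    rw [Nat.mod_eq_of_lt h]
    omega
  · right
    have h5 : j.val + 1 = 2 * m := by omega
    rw [h5, Nat.mod_self]
    omega

lemma rect_cases (j : ZMod (2 * m)) :
    ((j.val : ℤ) ≤ A ∧ (rect m A B j).1 = j.val ∧ (rect m A B j).2 = 0) ∨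
    ((A : ℤ) < j.val ∧ (j.val : ℤ) ≤ A + B ∧ (rect m A B j).1 = A ∧
      (rect m A B j).2 = j.val - A) ∨
    ((A : ℤ) + B < j.val ∧ (j.val : ℤ) ≤ 2 * A + B ∧ (rect m A B j).1 = 2 * A + B - j.val ∧
      (rect m A B j).2 = B) ∨
    (2 * (A : ℤ) + B < j.val ∧ (rect m A B j).1 = 0 ∧ (rect m A B j).2 = 2 * A + 2 * B - j.val) := by
  unfold rect
  split_ifs with h1 h2 h3
  · exact Or.inl ⟨h1, rfl, rfl⟩
  · exact Or.inr (Or.inl ⟨by omega, h2, rfl, rfl⟩)
  · exact Or.inr (Or.inr (Or.inl ⟨by omega, h3, rfl, rfl⟩))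
  · exact Or.inr (Or.inr (Or.inr ⟨by omega, rfl, rfl⟩))

lemma rect_step (hA : 1 ≤ A) (hB : 1 ≤ B) (hAB : A + B = m) [NeZero (2 * m)] :
    Step (rect m A B) := by
  apply step_mk
  intro j
  have h0 := rect_cases (A := A) (B := B) j
  have h1 := rect_cases (A := A) (B := B) (j + 1)
  have h2 := val_succ' (m := m) (by omega) j
  omega

lemma rect_inj (hA : 1 ≤ A) (hB : 1 ≤ B) (hAB : A + B = m) [NeZero (2 * m)] :
    Function.Injective (rect m A B) := by
  intro i j h
  apply ZMod.val_injective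
  have hi := rect_cases (A := A) (B := B) i
  have hj := rect_cases (A := A) (B := B) j
  have li := ZMod.val_lt i
  have lj := ZMod.val_lt j
  rw [h] at hi
  omega

lemma rect_encl (hA : 1 ≤ A) (hB : 1 ≤ B) (hAB : A + B = m) [NeZero (2 * m)] (a b : ℤ) :
    Encl (rect m A B) (a, b) ↔ 0 ≤ a ∧ a < A ∧ 0 ≤ b ∧ b < B := by
  classical
  have hs := rect_step hA hB hAB
  constructor
  · intro h
    apply encl_box hs (y0 := 0) (y1 := (B : ℤ)) _ _ h
    · intro j
      have h0 := rect_cases (A := A) (B := B) j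
      have lj := ZMod.val_lt j
      omega
    · intro j
      have h0 := rect_cases (A := A) (B := B) j
      have lj := ZMod.val_lt j
      omega
  · rintro ⟨ha, ha', hb, hb'⟩
    rw [encl_iff_above]
    have : cnt (fun j => Hor (rect m A B) a j ∧ b < (rect m A B j).2) = 1 := by
      unfold cnt
      rw [Finset.card_eq_one]
      refine ⟨((2 * A + B - 1 - a.toNat : ℕ) : ZMod (2 * m)), ?_⟩
      have hv : ((2 * A + B - 1 - a.toNat : ℕ) : ZMod (2 * m)).val =
          2 * A + B - 1 - a.toNat := by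
        rw [ZMod.val_natCast, Nat.mod_eq_of_lt (by omega)]
      ext j
      simp only [Finset.mem_filter, Finset.mem_univ, true_and, Finset.mem_singleton]
      have h0 := rect_cases (A := A) (B := B) j
      have h1 := rect_cases (A := A) (B := B) (j + 1)
      have h2 := val_succ' (m := m) (by omega) j
      constructor
      · rintro ⟨h3, h4⟩
        apply ZMod.val_injective
        rw [hv]
        unfold Hor at h3
        omega
      · intro h3
        have h4 : j.val = 2 * A + B - 1 - a.toNat := by rw [h3, hv]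
        unfold Hor
        omega
    rw [this]
    decide

lemma zero_of_size {M : ℕ} {l : ℕ → ℕ} (h : Pt M l) (h0 : size M l = 0) (j : ℕ) : l j = 0 := by
  by_cases hj : j < M
  · exact Finset.sum_eq_zero_iff.1 h0 j (Finset.mem_range.2 hj)
  · exact h.supp j (by omega)

/-- **existence** -/
theorem exists_real [NeZero (2 * m)] {M : ℕ} (hA : 2 * M + 3 ≤ A)
    (hB : 2 * M + 3 ≤ B) (hAB : A + B = m) : ∀ S : ℕ, ∀ l0 l1 l2 l3 : ℕ → ℕ,
    Pt M l0 → Pt M l1 → Pt M l2 → Pt M l3 → size M l0 + size M l1 + size M l2 + size M l3 = S →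
    RealN (2 * m) l0 l1 l2 l3 A B := by
  intro S
  have h3 : 3 ≤ 2 * m := by omega
  induction S with
  | zero =>
    intro l0 l1 l2 l3 p0 p1 p2 p3 hS
    refine ⟨rect m A B, rect_step (by omega) (by omega) hAB, rect_inj (by omega) (by omega) hAB, ?_⟩
    intro a b
    rw [rect_encl (by omega) (by omega) hAB]
    have z0 := zero_of_size p0 (by omega)
    have z1 := zero_of_size p1 (by omega)
    have z2 := zero_of_size p2 (by omega)
    have z3 := zero_of_size p3 (by omega)
    unfold Cell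
    simp only [z0, z1, z2, z3]
    constructor
    · rintro ⟨h1, h2, h4, h5⟩
      exact ⟨a.toNat, A - 1 - a.toNat, by omega, by omega, by omega, by omega⟩
    · rintro ⟨i, j, h1, h2, h4, h5⟩
      omega
  | succ S ih =>
    intro l0 l1 l2 l3 p0 p1 p2 p3 hS
    by_cases s0 : size M l0 = 0
    · by_cases s1 : size M l1 = 0
      · by_cases s2 : size M l2 = 0
        · have s3 : size M l3 ≠ 0 := by omega
          obtain ⟨l', i0, q, e1, e2, e3, e4, e5, e6⟩ := reduce p3 s3
          have r := symY (symX (ih l0 l1 l2 l' p0 p1 p2 q (by omega)))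
          have r2 := add_cell h3 hA hB q p2 p1 p0 r e3 e4 e5 e6
          rw [← e2] at r2
          exact symX (symY r2)
        · obtain ⟨l', i0, q, e1, e2, e3, e4, e5, e6⟩ := reduce p2 s2
          have r := symY (ih l0 l1 l' l3 p0 p1 q p3 (by omega))
          have r2 := add_cell h3 hA hB q p3 p0 p1 r e3 e4 e5 e6
          rw [← e2] at r2
          exact symY r2
      · obtain ⟨l', i0, q, e1, e2, e3, e4, e5, e6⟩ := reduce p1 s1
        have r := symX (ih l0 l' l2 l3 p0 q p2 p3 (by omega))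
        have r2 := add_cell h3 hA hB q p0 p3 p2 r e3 e4 e5 e6
        rw [← e2] at r2
        exact symX r2
    · obtain ⟨l', i0, q, e1, e2, e3, e4, e5, e6⟩ := reduce p0 s0
      have r := ih l' l1 l2 l3 q p1 p2 p3 (by omega)
      have r2 := add_cell h3 hA hB q p1 p2 p3 r e3 e4 e5 e6
      rw [← e2] at r2
      exact r2

end

end H404SAP
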