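import Pool.Agent.H404R3.PolyData
import Pool.Agent.H404R3.PolyCountG

/-!
# The shape of the polygons of half-perimeter `2 k + r` and area `k (k + r) - d`
-/

namespace H404SAP

open Finset

set_option linter.unusedSectionVars false

lemma IZ_zero {A d : ℕ} {α : Fin A → ℕ} (h : IZ α) (hs : ∑ i, α i ≤ d) (i : Fin A)
    (h1 : d ≤ (i : ℕ)) (h2 : (i : ℕ) + d < A) : α i = 0 := by
  classical
  obtain ⟨s, t, hst, htA, hz⟩ := h
  rw [hz]
  by_contra hcon
  rw [not_and_or] at hcon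
  rcases hcon with hcon | hcon
  · have e1 : ∑ _j ∈ Finset.Iic i, 1 ≤ ∑ j ∈ Finset.Iic i, α j := by
      apply Finset.sum_le_sum
      intro j hj
      rw [Finset.mem_Iic, Fin.le_def] at hj
      have := hz j
      by_contra h0
      have := (this.1 (by omega)).1
      omega
    have e2 : ∑ j ∈ Finset.Iic i, α j ≤ ∑ j, α j :=
      Finset.sum_le_sum_of_subset (Finset.subset_univ _)
    rw [Finset.sum_const, Fin.card_Iic, smul_eq_mul, mul_one] at e1
    omega
  · have e1 : ∑ _j ∈ Finset.Ici i, 1 ≤ ∑ j ∈ Finset.Ici i, α j := by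
      apply Finset.sum_le_sum
      intro j hj
      rw [Finset.mem_Ici, Fin.le_def] at hj
      have := hz j
      by_contra h0
      have := (this.1 (by omega)).2
      omega
    have e2 : ∑ j ∈ Finset.Ici i, α j ≤ ∑ j, α j :=
      Finset.sum_le_sum_of_subset (Finset.subset_univ _)
    rw [Finset.sum_const, Fin.card_Ici, smul_eq_mul, mul_one] at e1
    omega

/-- extend by zero -/
def ext0 {A : ℕ} (α : Fin A → ℕ) (i : ℕ) : ℕ := if h : i < A then α ⟨i, h⟩ else 0

lemma ext0_of {A : ℕ} (α : Fin A → ℕ) {i : ℕ} (h : i < A) : ext0 α i = α ⟨i, h⟩ := dif_pos h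

lemma sum_ext0 {A : ℕ} (α : Fin A → ℕ) : ∑ i ∈ range A, ext0 α i = ∑ i, α i := by
  rw [← Fin.sum_univ_eq_sum_range]
  refine Finset.sum_congr rfl fun i _ => ?_
  rw [ext0_of α i.2]

/-- split a profile into a left and a right part -/
lemma split_profile {A d : ℕ} {γ : ℕ → ℕ} (hA : 2 * (d + 1) + 3 ≤ A) (hbd : ∀ i, i < A → γ i ≤ d)
    (hz : ∀ i, d ≤ i → i + d < A → γ i = 0)
    (hl : ∀ i i', i ≤ i' → i' ≤ d + 1 → γ i' ≤ γ i)
    (hr : ∀ i i', i' ≤ i → i < A → d + 1 ≤ i' → γ i' ≤ γ i) :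
    ∃ l r : ℕ →₀ ℕ, Pt (d + 1) l ∧ Pt (d + 1) r ∧
      (∀ i j, i + j + 1 = A → γ i = l i + r j) ∧ (∀ i, i < d + 1 → l i = γ i) := by
  classical
  have hl0 : ∀ i, (if i < d + 1 then γ i else 0) ≠ 0 → i ∈ range (d + 1) := by
    intro i hi
    by_contra hcon
    rw [Finset.mem_range] at hcon
    exact hi (if_neg hcon)
  have hr0 : ∀ i, (if i < d + 1 then γ (A - 1 - i) else 0) ≠ 0 → i ∈ range (d + 1) := by
    intro i hi
    by_contra hcon
    rw [Finset.mem_range] at hcon
    exact hi (if_neg hcon)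
  refine ⟨Finsupp.onFinset (range (d + 1)) _ hl0, Finsupp.onFinset (range (d + 1)) _ hr0,
    ⟨?_, ?_, ?_⟩, ⟨?_, ?_, ?_⟩, ?_, ?_⟩
  · apply antitone_nat_of_succ_le
    intro i
    rw [Finsupp.onFinset_apply, Finsupp.onFinset_apply]
    split_ifs with h1 h2
    · exact hl _ _ (by omega) (by omega)
    · omega
    · exact Nat.zero_le _
    · exact le_rfl
  · intro j hj
    rw [Finsupp.onFinset_apply, if_neg (by omega)]
  · intro j
    rw [Finsupp.onFinset_apply]
    split_ifs with h1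
    · have := hbd j (by omega); omega
    · exact Nat.zero_le _
  · apply antitone_nat_of_succ_le
    intro i
    rw [Finsupp.onFinset_apply, Finsupp.onFinset_apply]
    split_ifs with h1 h2
    · exact hr _ _ (by omega) (by omega) (by omega)
    · omega
    · exact Nat.zero_le _
    · exact le_rfl
  · intro j hj
    rw [Finsupp.onFinset_apply, if_neg (by omega)]
  · intro j
    rw [Finsupp.onFinset_apply]
    split_ifs with h1
    · have := hbd (A - 1 - j) (by omega); omega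
    · exact Nat.zero_le _
  · intro i j hij
    rw [Finsupp.onFinset_apply, Finsupp.onFinset_apply]
    split_ifs with h1 h2
    · omega
    · omega
    · have : A - 1 - j = i := by omega
      rw [this]; omega
    · have := hz i (by omega) (by omega)
      omega
  · intro i hi
    rw [Finsupp.onFinset_apply, if_pos hi]

lemma shape {k r d : ℕ} (hr : r ≤ 1) [NeZero (2 * (2 * k + r))] (hk : 3 * d + 6 ≤ k)
    {f : ZMod (2 * (2 * k + r)) → ℤ × ℤ} (hg : Good f) (ha : area f + d = k * (k + r)) :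
    ∃ x : ℤ × (Fin 4 → ℕ →₀ ℕ), IsData r d x ∧ ∃ A B : ℕ, (A : ℤ) = k + r + x.1 ∧
      (B : ℤ) = k - x.1 ∧
      ∀ a b, Encl f (a, b) ↔ Cell (x.2 0) (x.2 1) (x.2 2) (x.2 3) A B a (b + (x.2 2 0 : ℕ)) := by
  classical
  have h3 : 3 ≤ 2 * (2 * k + r) := by omega
  obtain ⟨A, B, y0, hA, hb⟩ := hg.exists_box
  have h1 := area_le hg.step hb.hx hb.hy
  obtain ⟨h2, h2'⟩ := two_mul_le hg.step hb.hx hb.hy hb.hx0 hb.hx1 hb.hy0 hb.hy1
  have hAB : A + B = 2 * k + r := by
    by_contra hcon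
    obtain ⟨e, he⟩ : ∃ e, A + B + e = 2 * k + r := ⟨2 * k + r - (A + B), by omega⟩
    have h4 := four_AB hr he (by omega)
    have h5 : k ≤ k * e := Nat.le_mul_of_pos_right k (by omega)
    omega
  have hj : (A : ℤ) * B = (k : ℤ) * (k + r) - ((A : ℤ) - k - r) * ((A : ℤ) - k - r + r) := by
    have : (B : ℤ) = 2 * k + r - A := by omega
    rw [this]; ring
  have hjd : ((A : ℤ) - k - r) * ((A : ℤ) - k - r + r) ≤ d := by
    zify at h1 ha
    linarith
  obtain ⟨hj1, hj2⟩ := jj_bound hr hjd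
  have hAd : 2 * (d + 1) + 3 ≤ A := by omega
  have hBd : 2 * (d + 1) + 3 ≤ B := by omega
  obtain ⟨-, hrow⟩ := h2' (by omega)
  obtain ⟨α, β, hα, hβ, hsum, hE⟩ := structure_of hg.step hg.inj h3 hb.hx hb.hy hb.hx0 hb.hx1
    hb.hy0 hb.hy1 (by omega) hA hg.f0 hg.f1 hg.lex
  have hconv : ∀ b a1 a2 a3, Encl f (a1, b) → Encl f (a3, b) → a1 ≤ a2 → a2 ≤ a3 →
      Encl f (a2, b) := by
    intro b a1 a2 a3 e1 e3 h12 h23
    have hbox := encl_box hg.step hb.hx hb.hy e1
    obtain ⟨p, q, -, hpq⟩ := row_struct hg.step hg.inj h3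
      (hrow b (Finset.mem_Ico.2 ⟨hbox.2.2.1, hbox.2.2.2⟩))
    rw [hpq] at e1 e3 ⊢
    omega
  have hjd' : ((A : ℤ) - k - r) * ((A : ℤ) - k - r + r) + (∑ i, α i + ∑ i, β i : ℕ) = d := by
    zify at hsum ha ⊢
    linarith
  have hsd : ∑ i, α i + ∑ i, β i ≤ d := by
    have := jj_nonneg hr ((A : ℤ) - k - r)
    zify
    push_cast at hjd'
    linarith
  have hαb : ∀ i, α i ≤ d := fun i =>
    (Finset.single_le_sum (f := α) (fun _ _ => Nat.zero_le _) (Finset.mem_univ i)).trans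
      (by omega)
  have hβb : ∀ i, β i ≤ d := fun i =>
    (Finset.single_le_sum (f := β) (fun _ _ => Nat.zero_le _) (Finset.mem_univ i)).trans
      (by omega)
  have hαz := fun i => IZ_zero hα (show ∑ i, α i ≤ d by omega) i
  have hβz := fun i => IZ_zero hβ (show ∑ i, β i ≤ d by omega) i
  set β0 := β ⟨0, hA⟩ with hβ0
  have hmono : ∀ i i' m : Fin A, α m = 0 → β m = 0 →
      ((i ≤ i' ∧ i' ≤ m) ∨ (m ≤ i' ∧ i' ≤ i)) → α i' ≤ α i ∧ β i' ≤ β i := by
    intro i i' m hm1 hm2 hor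
    have q1 := hαb i
    have q2 := hβb i
    rw [Fin.le_def, Fin.le_def, Fin.le_def, Fin.le_def] at hor
    have key : ∀ b, Encl f (((i : ℕ) : ℤ), b) → Encl f (((m : ℕ) : ℤ), b) →
        Encl f (((i' : ℕ) : ℤ), b) := by
      intro b e1 e2
      rcases hor with hor | hor
      · exact hconv b _ _ _ e1 e2 (by omega) (by omega)
      · exact hconv b _ _ _ e2 e1 (by omega) (by omega)
    constructor
    · have h5 := key ((B : ℤ) - β0 - 1 - α i) ((hE _ _).2 ⟨i, rfl, by omega, by omega⟩)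
        ((hE _ _).2 ⟨m, rfl, by omega, by omega⟩)
      obtain ⟨i2, e1, e2, e3⟩ := (hE _ _).1 h5
      have : i2 = i' := Fin.ext (by omega)
      subst this
      omega
    · have h5 := key ((β i : ℤ) - β0) ((hE _ _).2 ⟨i, rfl, by omega, by omega⟩)
        ((hE _ _).2 ⟨m, rfl, by omega, by omega⟩)
      obtain ⟨i2, e1, e2, e3⟩ := (hE _ _).1 h5
      have : i2 = i' := Fin.ext (by omega)
      subst this
      omega
  have hM : d + 1 < A := by omega
  have zM1 : α ⟨d + 1, hM⟩ = 0 := hαz _ (by simp only; omega) (by simp only; omega)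
  have zM2 : β ⟨d + 1, hM⟩ = 0 := hβz _ (by simp only; omega) (by simp only; omega)
  obtain ⟨l0, l1, p0, p1, hs0, -⟩ := split_profile (γ := ext0 α) hAd
    (fun i hi => by rw [ext0_of α hi]; exact hαb _)
    (fun i h5 h6 => by rw [ext0_of α (by omega)]; exact hαz _ h5 h6)
    (fun i i' h5 h6 => by
      rw [ext0_of α (show i < A by omega), ext0_of α (show i' < A by omega)]
      exact (hmono _ _ ⟨d + 1, hM⟩ zM1 zM2 (Or.inl ⟨by rw [Fin.le_def]; exact h5,
        by rw [Fin.le_def]; exact h6⟩)).1)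
    (fun i i' h5 h6 h7 => by
      rw [ext0_of α h6, ext0_of α (show i' < A by omega)]
      exact (hmono _ _ ⟨d + 1, hM⟩ zM1 zM2 (Or.inr ⟨by rw [Fin.le_def]; exact h7,
        by rw [Fin.le_def]; exact h5⟩)).1)
  obtain ⟨l2, l3, p2, p3, hs2, hs2'⟩ := split_profile (γ := ext0 β) hAd
    (fun i hi => by rw [ext0_of β hi]; exact hβb _)
    (fun i h5 h6 => by rw [ext0_of β (by omega)]; exact hβz _ h5 h6)
    (fun i i' h5 h6 => by
      rw [ext0_of β (show i < A by omega), ext0_of β (show i' < A by omega)]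
      exact (hmono _ _ ⟨d + 1, hM⟩ zM1 zM2 (Or.inl ⟨by rw [Fin.le_def]; exact h5,
        by rw [Fin.le_def]; exact h6⟩)).2)
    (fun i i' h5 h6 h7 => by
      rw [ext0_of β h6, ext0_of β (show i' < A by omega)]
      exact (hmono _ _ ⟨d + 1, hM⟩ zM1 zM2 (Or.inr ⟨by rw [Fin.le_def]; exact h7,
        by rw [Fin.le_def]; exact h5⟩)).2)
  have sz : ∀ {l r : ℕ →₀ ℕ} {γ : Fin A → ℕ}, Pt (d + 1) l → Pt (d + 1) r →
      (∀ i j, i + j + 1 = A → ext0 γ i = l i + r j) →
      ∑ i, γ i = size (d + 1) l + size (d + 1) r := by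
    intro l r γ pl pr hs
    rw [← sum_ext0, ← size_eq pl (A := A) (by omega), ← size_eq' pr (A := A) (by omega),
      ← Finset.sum_add_distrib]
    refine Finset.sum_congr rfl fun i hi => ?_
    rw [Finset.mem_range] at hi
    exact hs i (A - 1 - i) (by omega)
  have szs : ∀ {l : ℕ →₀ ℕ}, Pt (d + 1) l → (l.sum fun _ t => t) = size (d + 1) l := by
    intro l pl
    apply Finsupp.sum_of_support_subset
    · intro j h
      rw [Finsupp.mem_support_iff] at h
      by_contra hcon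
      rw [Finset.mem_range] at hcon
      exact h (pl.supp j (by omega))
    · intro i _
      rfl
  have hl2 : l2 0 = β0 := by
    rw [hs2' 0 (by omega), ext0_of β hA]
  refine ⟨((A : ℤ) - k - r, ![l0, l1, l2, l3]), ⟨?_, ?_⟩, A, B, by simp only; ring,
    by simp only; omega, ?_⟩
  · intro i
    fin_cases i
    · exact p0.anti
    · exact p1.anti
    · exact p2.anti
    · exact p3.anti
  · rw [Fin.sum_univ_four]
    show ((A : ℤ) - k - r) * ((A : ℤ) - k - r + r) + (((l0.sum fun _ t => t) + (l1.sum fun _ t => t) +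
      (l2.sum fun _ t => t) + (l3.sum fun _ t => t) : ℕ) : ℤ) = d
    rw [szs p0, szs p1, szs p2, szs p3]
    have e1 := sz p0 p1 hs0
    have e2 := sz p2 p3 hs2
    rw [e1, e2] at hjd'
    push_cast at hjd' ⊢
    linarith
  · intro a b
    rw [hE]
    show _ ↔ Cell l0 l1 l2 l3 A B a (b + (l2 0 : ℕ))
    unfold Cell
    rw [hl2]
    constructor
    · rintro ⟨i, e1, e2, e3⟩
      have s0 := hs0 i (A - 1 - i) (by omega)
      have s2 := hs2 i (A - 1 - i) (by omega)
      rw [ext0_of α i.2] at s0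
      rw [ext0_of β i.2] at s2
      simp only [Fin.eta] at s0 s2
      exact ⟨i, A - 1 - i, e1, by omega, by omega, by omega⟩
    · rintro ⟨i, j, e1, e2, e3, e4⟩
      have s0 := hs0 i j e2
      have s2 := hs2 i j e2
      rw [ext0_of α (by omega)] at s0
      rw [ext0_of β (by omega)] at s2
      exact ⟨⟨i, by omega⟩, e1, by omega, by omega⟩

end H404SAP
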