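import Pool.Agent.H404R3.PolyMom

/-!
# The limit law of the standardised area
-/

namespace H404SAP

open Finset Filter Topology

set_option linter.unusedSectionVars false

/-- the limit law, for functions depending on `k` -/
theorem lawgk {r : ℕ} (hr : r ≤ 1) {q : ℝ} (hq : 1 < q) {G : ℕ → ℕ → ℝ} {g : ℕ → ℝ} {C : ℝ}
    (hG : ∀ k e, |G k e| ≤ C) (hlim : ∀ e, Tendsto (fun k => G k e) atTop (𝓝 (g e))) :
    Tendsto (fun k : ℕ => E q (2 * k + r) (fun n => G k (k * (k + r) - n))) atTop
      (𝓝 (ED r q g)) := by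
  have hq0 : 0 < q := by linarith
  have hC : 0 ≤ C := (abs_nonneg _).trans (hG 0 0)
  obtain ⟨K', hK', hb'⟩ := cc_bound hr (q := (1 + q) / 2) (by linarith)
  have hgeo : ∀ c : ℝ, Summable (fun e : ℕ => c * ((1 + q) / 2 * q⁻¹) ^ e) := by
    intro c
    apply Summable.mul_left
    apply summable_geometric_of_lt_one (by positivity)
    rw [← div_eq_mul_inv, div_lt_one hq0]
    linarith
  have hN : Tendsto (fun k : ℕ => ∑' e, G k e * (cc r k e * (q⁻¹) ^ e)) atTop
      (𝓝 (∑' e, g e * ((coef r e : ℝ) * (q⁻¹) ^ e))) := by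
    apply tendsto_tsum_of_dominated_convergence (hgeo (C * K'))
    · intro e
      apply (hlim e).mul
      apply tendsto_const_nhds.congr'
      filter_upwards [cc_tendsto hr e] with k hk
      rw [hk]
    · filter_upwards [hb'] with k hk e
      rw [norm_mul, Real.norm_eq_abs, Real.norm_of_nonneg (mul_nonneg (cc_nonneg r k e)
        (by positivity))]
      calc |G k e| * (cc r k e * (q⁻¹) ^ e) ≤ C * ((K' * ((1 + q) / 2) ^ e) * (q⁻¹) ^ e) := by
            apply mul_le_mul (hG k e) _ (mul_nonneg (cc_nonneg r k e) (by positivity)) hC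
            exact mul_le_mul_of_nonneg_right (hk e) (by positivity)
        _ = C * K' * ((1 + q) / 2 * q⁻¹) ^ e := by rw [mul_pow]; ring
  have hT : Tendsto (fun k : ℕ => ∑' e, cc r k e * (q⁻¹) ^ e) atTop
      (𝓝 (∑' e, (coef r e : ℝ) * (q⁻¹) ^ e)) := by
    apply tendsto_tsum_of_dominated_convergence (hgeo K')
    · intro e
      apply tendsto_const_nhds.congr'
      filter_upwards [cc_tendsto hr e] with k hk
      rw [hk]
    · filter_upwards [hb'] with k hk e
      rw [Real.norm_of_nonneg (mul_nonneg (cc_nonneg r k e) (by positivity)), mul_pow,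
        ← mul_assoc]
      exact mul_le_mul_of_nonneg_right (hk e) (by positivity)
  apply (hN.div hT (tsum_coef_pos hr hq).ne').congr'
  filter_upwards [eventually_ge_atTop 1] with k hk
  unfold E
  rw [finsum_eqg hr hk, finsum_eq1g hr hk, Z_eq hq0, Z_eqg hq0]
  have : q ^ (k * (k + r)) ≠ 0 := (pow_pos hq0 _).ne'
  simp only [Pi.div_apply]
  rw [mul_div_mul_left _ _ this]

/-- **the limit law of the standardised area** -/
theorem std_law {r : ℕ} (hr : r ≤ 1) {q : ℝ} (hq : 1 < q) {φ : ℝ → ℝ} (hφ : Continuous φ)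
    {C : ℝ} (hC : ∀ x, |φ x| ≤ C) :
    Tendsto (fun k : ℕ => E q (2 * k + r) (fun n =>
      φ (((n : ℝ) - meanX q (2 * k + r)) / √(varX q (2 * k + r))))) atTop
      (𝓝 (ED r q (fun e => φ ((meanD r q - e) / √(varD r q))))) := by
  have h := lawgk hr hq (G := fun k e => φ (((((k * (k + r) : ℕ) : ℝ) - meanX q (2 * k + r)) - e) /
      √(varX q (2 * k + r)))) (g := fun e => φ ((meanD r q - e) / √(varD r q))) (C := C)
    (fun k e => hC _) (by
      intro e
      apply (hφ.tendsto _).comp
      apply Tendsto.div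
      · exact (mean_tendsto hr hq).sub_const _
      · exact (var_tendsto hr hq).sqrt
      · exact (Real.sqrt_pos.2 (varD_pos hr hq)).ne')
  apply h.congr'
  filter_upwards [eventually_ge_atTop 1] with k hk
  rw [E_eq hr hk, E_eq hr hk]
  congr 1
  refine Finset.sum_congr rfl fun n hn => ?_
  rw [Finset.mem_range] at hn
  congr 2
  rw [Nat.cast_sub (by omega)]
  ring

end H404SAP
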