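import Pool.Agent.H404R3.PolyBox

/-!
# Bounding boxes and the structure of polygons with perimeter equal to that of the bounding box
-/

namespace H404SAP

open Finset

set_option linter.unusedSectionVars false

section

variable {n : ℕ} [NeZero n] {f : ZMod n → ℤ × ℤ}

lemma encl_box (hs : Step f) {x1 y0 y1 : ℤ} (hx : ∀ k, 0 ≤ (f k).1 ∧ (f k).1 ≤ x1)
    (hy : ∀ k, y0 ≤ (f k).2 ∧ (f k).2 ≤ y1) {a b : ℤ} (h : Encl f (a, b)) :
    0 ≤ a ∧ a < x1 ∧ y0 ≤ b ∧ b < y1 := by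
  have h1 := h
  rw [encl_iff_above] at h
  rw [encl_iff_left hs] at h1
  obtain ⟨k, hk, hk2⟩ := cnt_pos (P := fun k => Hor f a k ∧ b < (f k).2) (by
    intro h0; rw [h0] at h; exact absurd h (by decide))
  obtain ⟨l, hl, -⟩ := cnt_pos (P := fun k => Ver f b k ∧ (f k).1 ≤ a) (by
    intro h0; rw [h0] at h1; exact absurd h1 (by decide))
  have b1 := hx k
  have b2 := hx (k + 1)
  have b3 := hy k
  have b4 := hy l
  have b5 := hy (l + 1)
  unfold Hor at hk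
  unfold Ver at hl
  omega

lemma area_sigma (hs : Step f) {A : ℕ} {y0 y1 : ℤ} (hx : ∀ k, 0 ≤ (f k).1 ∧ (f k).1 ≤ (A : ℤ))
    (hy : ∀ k, y0 ≤ (f k).2 ∧ (f k).2 ≤ y1) :
    area f = ∑ i : Fin A, Nat.card {b : ℤ // Encl f (((i : ℕ) : ℤ), b)} := by
  classical
  have hfin : ∀ i : Fin A, Finite {b : ℤ // Encl f (((i : ℕ) : ℤ), b)} := by
    intro i
    apply Set.Finite.to_subtype
    apply (Set.finite_Ico y0 y1).subset
    intro b hb
    exact (encl_box hs hx hy hb).2.2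
  rw [← Nat.card_sigma]
  unfold area
  symm
  apply Nat.card_congr
  apply Equiv.ofBijective
    (fun p : (i : Fin A) × {b : ℤ // Encl f (((i : ℕ) : ℤ), b)} =>
      (⟨(((p.1 : ℕ) : ℤ), p.2.1), p.2.2⟩ : {c : ℤ × ℤ // Encl f c}))
  constructor
  · rintro ⟨i, b, hb⟩ ⟨j, c, hc⟩ h
    simp only [Subtype.mk.injEq, Prod.mk.injEq, Nat.cast_inj] at h
    obtain ⟨h1, h2⟩ := h
    have h1' : i = j := Fin.ext h1
    subst h1'
    subst h2
    rfl
  · rintro ⟨⟨a, b⟩, hc⟩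
    have hb := encl_box hs hx hy hc
    have ha : ((a.toNat : ℕ) : ℤ) = a := Int.toNat_of_nonneg hb.1
    refine ⟨⟨⟨a.toNat, by omega⟩, ⟨b, ?_⟩⟩, ?_⟩
    · simpa only [ha] using hc
    · simp only [Subtype.mk.injEq, Prod.mk.injEq, and_true]
      exact ha

lemma area_le (hs : Step f) {A B : ℕ} {y0 : ℤ} (hx : ∀ k, 0 ≤ (f k).1 ∧ (f k).1 ≤ (A : ℤ))
    (hy : ∀ k, y0 ≤ (f k).2 ∧ (f k).2 ≤ y0 + B) : area f ≤ A * B := by
  rw [area_sigma hs hx hy]
  calc ∑ i : Fin A, Nat.card {b : ℤ // Encl f (((i : ℕ) : ℤ), b)} ≤ ∑ _i : Fin A, B := by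
        apply Finset.sum_le_sum
        intro i _
        have : Nat.card (Finset.Ico y0 (y0 + B)) = B := by
          rw [Nat.card_eq_fintype_card, Fintype.card_coe, Int.card_Ico]
          omega
        rw [← this]
        apply Nat.card_le_card_of_injective (fun b : {b : ℤ // Encl f (((i : ℕ) : ℤ), b)} =>
          (⟨b.1, Finset.mem_Ico.2 (encl_box hs hx hy b.2).2.2⟩ : Finset.Ico y0 (y0 + B)))
        intro b c h
        simp only [Subtype.mk.injEq] at h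
        exact Subtype.ext h
    _ = A * B := by simp

/-- zeros of the profile form a nonempty interval -/
def IZ {A : ℕ} (α : Fin A → ℕ) : Prop :=
  ∃ s t : ℕ, s ≤ t ∧ t < A ∧ ∀ i : Fin A, α i = 0 ↔ s ≤ (i : ℕ) ∧ (i : ℕ) ≤ t

lemma two_mul_le (hs : Step f) {A B : ℕ} {y0 : ℤ} (hx : ∀ k, 0 ≤ (f k).1 ∧ (f k).1 ≤ (A : ℤ))
    (hy : ∀ k, y0 ≤ (f k).2 ∧ (f k).2 ≤ y0 + B) (hx0 : ∃ k, (f k).1 = 0)
    (hx1 : ∃ k, (f k).1 = (A : ℤ)) (hy0 : ∃ k, (f k).2 = y0) (hy1 : ∃ k, (f k).2 = y0 + B) :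
    2 * A + 2 * B ≤ n ∧ (2 * A + 2 * B = n →
      (∀ a ∈ Ico (0 : ℤ) A, cnt (fun k => Hor f a k) = 2) ∧
      (∀ b ∈ Ico y0 (y0 + B), cnt (fun k => Ver f b k) = 2)) := by
  obtain ⟨k0, hk0⟩ := hx0
  obtain ⟨k1, hk1⟩ := hx1
  obtain ⟨l0, hl0⟩ := hy0
  obtain ⟨l1, hl1⟩ := hy1
  have h1 : ∀ a ∈ Ico (0 : ℤ) A, 2 ≤ cnt (fun k => Hor f a k) := by
    intro a ha
    rw [Finset.mem_Ico] at ha
    exact hor_two hs (i := k0) (j := k1) (by omega) (by omega)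
  have h2 : ∀ b ∈ Ico y0 (y0 + B), 2 ≤ cnt (fun k => Ver f b k) := by
    intro a ha
    rw [Finset.mem_Ico] at ha
    exact ver_two hs (i := l0) (j := l1) (by omega) (by omega)
  have ht := total_le hs (Ico (0 : ℤ) A) (Ico y0 (y0 + B))
  have s1 : ∑ _a ∈ Ico (0 : ℤ) A, 2 = 2 * A := by
    rw [Finset.sum_const, Int.card_Ico, smul_eq_mul]; omega
  have s2 : ∑ _b ∈ Ico y0 (y0 + B), 2 = 2 * B := by
    rw [Finset.sum_const, Int.card_Ico, smul_eq_mul]; omega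
  have c1 := Finset.sum_le_sum h1
  have c2 := Finset.sum_le_sum h2
  refine ⟨by omega, fun he => ⟨?_, ?_⟩⟩
  · intro a ha
    by_contra hne
    have := Finset.sum_lt_sum h1 ⟨a, ha, lt_of_le_of_ne (h1 a ha) (Ne.symm hne)⟩
    omega
  · intro a ha
    by_contra hne
    have := Finset.sum_lt_sum h2 ⟨a, ha, lt_of_le_of_ne (h2 a ha) (Ne.symm hne)⟩
    omega

/-- structure of the polygons whose perimeter is that of their bounding box -/
lemma structure_of (hs : Step f) (hf : Function.Injective f) (h3 : 3 ≤ n) {A B : ℕ} {y0 : ℤ}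
    (hx : ∀ k, 0 ≤ (f k).1 ∧ (f k).1 ≤ (A : ℤ))
    (hy : ∀ k, y0 ≤ (f k).2 ∧ (f k).2 ≤ y0 + B) (hx0 : ∃ k, (f k).1 = 0)
    (hx1 : ∃ k, (f k).1 = (A : ℤ)) (hy0 : ∃ k, (f k).2 = y0) (hy1 : ∃ k, (f k).2 = y0 + B)
    (he : 2 * A + 2 * B = n) (hA : 1 ≤ A) (f0 : f 0 = (0, 0)) (f1 : f 1 = (1, 0))
    (hlex : ∀ i, 0 < (f i).1 ∨ ((f i).1 = 0 ∧ 0 ≤ (f i).2)) :
    ∃ α β : Fin A → ℕ, IZ α ∧ IZ β ∧ area f + ∑ i, α i + ∑ i, β i = A * B ∧
      ∀ a b, Encl f (a, b) ↔ ∃ i : Fin A, a = ((i : ℕ) : ℤ) ∧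
        (β i : ℤ) - β ⟨0, hA⟩ ≤ b ∧ b < (B : ℤ) - β ⟨0, hA⟩ - α i := by
  classical
  obtain ⟨-, h2⟩ := two_mul_le hs hx hy hx0 hx1 hy0 hy1
  obtain ⟨hcol, hrow⟩ := h2 he
  have hc : ∀ i : Fin A, ∃ lo hi : ℤ, y0 ≤ lo ∧ lo < hi ∧ hi ≤ y0 + B ∧
      (∃ k, Hor f ((i : ℕ) : ℤ) k ∧ (f k).2 = lo) ∧
      ∀ b, Encl f (((i : ℕ) : ℤ), b) ↔ lo ≤ b ∧ b < hi := by
    intro i
    obtain ⟨k, l, hk, hl, hlt, hE⟩ := col_struct hs hf h3
      (hcol ((i : ℕ) : ℤ) (Finset.mem_Ico.2 ⟨by omega, by have := i.2; omega⟩))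
    exact ⟨(f k).2, (f l).2, (hy k).1, hlt, (hy l).2, ⟨k, hk, rfl⟩, hE⟩
  choose lo hi h1 h2 h3' h4 h5 using hc
  -- the first column starts at height 0
  have hlo0 : lo ⟨0, hA⟩ = 0 := by
    obtain ⟨k, hk, hk2⟩ := h4 ⟨0, hA⟩
    have g1 : 0 ≤ lo ⟨0, hA⟩ := by
      have e1 := hlex k
      have e2 := hlex (k + 1)
      have e3 := hs.cases k
      unfold Hor at hk
      simp only [Nat.cast_zero] at hk
      omega
    have g2 : ∃ k, Hor f 0 k ∧ (f k).2 = 0 := by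
      refine ⟨0, Or.inl ⟨by rw [f0], ?_⟩, by rw [f0]⟩
      rw [zero_add, f1]; rfl
    rw [hor_exists_iff hs hf h3] at g2
    have g3 := h5 ⟨0, hA⟩ (0 - 1)
    have g4 := h5 ⟨0, hA⟩ 0
    simp only [Nat.cast_zero] at g3 g4
    rw [g3, g4] at g2
    omega
  have hB : 0 < B := by
    have := h1 ⟨0, hA⟩
    have := h2 ⟨0, hA⟩
    have := h3' ⟨0, hA⟩
    omega
  let α : Fin A → ℕ := fun i => (y0 + B - hi i).toNat
  let β : Fin A → ℕ := fun i => (lo i - y0).toNat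
  have hα : ∀ i, (α i : ℤ) = y0 + B - hi i := fun i =>
    Int.toNat_of_nonneg (by have := h3' i; omega)
  have hβ : ∀ i, (β i : ℤ) = lo i - y0 := fun i =>
    Int.toNat_of_nonneg (by have := h1 i; omega)
  have hIZ : ∀ b ∈ Ico y0 (y0 + B), ∀ γ : Fin A → ℕ,
      (∀ i : Fin A, γ i = 0 ↔ Encl f (((i : ℕ) : ℤ), b)) → IZ γ := by
    intro b hb γ hγ
    obtain ⟨k, l, hlt, hE⟩ := row_struct hs hf h3 (hrow b hb)
    have b1 := hx k
    have b2 := hx l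
    refine ⟨(f k).1.toNat, ((f l).1 - 1).toNat, by omega, by omega, fun i => ?_⟩
    rw [hγ i, hE]
    omega
  refine ⟨α, β, ?_, ?_, ?_, ?_⟩
  · apply hIZ (y0 + B - 1) (Finset.mem_Ico.2 ⟨by omega, by omega⟩)
    intro i
    rw [h5 i]
    have := hα i
    have := h1 i
    have := h2 i
    have := h3' i
    omega
  · apply hIZ y0 (Finset.mem_Ico.2 ⟨by omega, by omega⟩)
    intro i
    rw [h5 i]
    have := hβ i
    have := h1 i
    have := h2 i
    have := h3' i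
    omega
  · rw [area_sigma hs hx hy]
    have hcard : ∀ i : Fin A, Nat.card {b : ℤ // Encl f (((i : ℕ) : ℤ), b)} + α i + β i = B := by
      intro i
      have : Nat.card {b : ℤ // Encl f (((i : ℕ) : ℤ), b)} = (hi i - lo i).toNat := by
        rw [Nat.card_congr (Equiv.subtypeEquivRight (q := fun b => b ∈ Finset.Ico (lo i) (hi i))
          (fun b => by rw [h5 i b, Finset.mem_Ico]))]
        rw [Nat.card_eq_fintype_card, Fintype.card_coe, Int.card_Ico]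
      rw [this]
      have := hα i
      have := hβ i
      have := h1 i
      have := h2 i
      have := h3' i
      omega
    rw [← Finset.sum_add_distrib, ← Finset.sum_add_distrib, Finset.sum_congr rfl
      (fun i _ => hcard i)]
    simp
  · intro a b
    have hy00 : y0 = - (β ⟨0, hA⟩ : ℤ) := by rw [hβ, hlo0]; ring
    constructor
    · intro h
      have hb := encl_box hs hx hy h
      have ha : ((a.toNat : ℕ) : ℤ) = a := Int.toNat_of_nonneg hb.1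
      refine ⟨⟨a.toNat, by omega⟩, ha.symm, ?_⟩
      have h6 := h5 ⟨a.toNat, by omega⟩ b
      simp only [ha] at h6
      have h7 := h6.1 h
      have := hα ⟨a.toNat, by omega⟩
      have := hβ ⟨a.toNat, by omega⟩
      omega
    · rintro ⟨i, rfl, h6, h7⟩
      rw [h5 i]
      have := hα i
      have := hβ i
      omega

end

end H404SAP
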