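import Pool.Agent.H404R3.PolyStruct

/-!
# Bounds for the partition function
-/

namespace H404SAP

open Finset

set_option linter.unusedSectionVars false

/-! ### finitely many polygons -/

section

variable {n : ℕ} [NeZero n]

/-- the four unit steps -/
def D4 : Finset (ℤ × ℤ) := {(1, 0), (-1, 0), (0, 1), (0, -1)}

lemma step_inj {f g : ZMod n → ℤ × ℤ} (h0 : f 0 = g 0)
    (h : ∀ k, f (k + 1) - f k = g (k + 1) - g k) : f = g := by
  have key : ∀ t : ℕ, f ((t : ℕ) : ZMod n) = g ((t : ℕ) : ZMod n) := by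
    intro t
    induction t with
    | zero => simpa using h0
    | succ t ih =>
      have := h ((t : ℕ) : ZMod n)
      rw [ih] at this
      rw [Nat.cast_succ]
      exact sub_left_injective this
  funext k
  have := key k.val
  rwa [ZMod.natCast_zmod_val] at this

lemma step_mem {f : ZMod n → ℤ × ℤ} (hs : Step f) (k : ZMod n) : f (k + 1) - f k ∈ D4 := by
  have h := hs.cases k
  simp only [D4, Finset.mem_insert, Finset.mem_singleton, Prod.ext_iff, Prod.fst_sub, Prod.snd_sub]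
  omega

lemma card_loops (F : Finset (ZMod n → ℤ × ℤ)) (hF : ∀ f ∈ F, Step f ∧ f 0 = (0, 0)) :
    F.card ≤ 4 ^ n := by
  classical
  have h1 : (Fintype.piFinset (fun _ : ZMod n => D4)).card = 4 ^ n := by
    rw [Fintype.card_piFinset]
    simp [D4, ZMod.card]
  rw [← h1]
  apply Finset.card_le_card_of_injOn (fun f k => f (k + 1) - f k)
  · intro f hf
    rw [Finset.mem_coe, Fintype.mem_piFinset]
    exact fun k => step_mem (hF f hf).1 k
  · intro f hf g hg h
    exact step_inj ((hF f hf).2.trans (hF g hg).2.symm) (fun k => congrFun h k)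

lemma finite_loops : {f : ZMod n → ℤ × ℤ | Step f ∧ f 0 = (0, 0)}.Finite := by
  classical
  apply Set.Finite.of_finite_image (f := fun f (k : ZMod n) => f (k + 1) - f k)
  · apply (Fintype.piFinset (fun _ : ZMod n => D4)).finite_toSet.subset
    rintro _ ⟨f, hf, rfl⟩
    rw [Finset.mem_coe, Fintype.mem_piFinset]
    exact fun k => step_mem hf.1 k
  · intro f hf g hg h
    exact step_inj (hf.2.trans hg.2.symm) (fun k => congrFun h k)

end

/-! ### sums over profiles -/

lemma geom_le (w : ℝ) (h0 : 0 ≤ w) (h1 : w ≤ 1 / 2) (M : ℕ) : ∑ j ∈ range M, w ^ j ≤ 2 := by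
  have h2 : ∀ M : ℕ, ∑ j ∈ range M, w ^ j ≤ 2 - 2 * w ^ M := by
    intro M
    induction M with
    | zero => simp
    | succ M ih =>
      rw [Finset.sum_range_succ, pow_succ]
      have : w ^ M * w ≤ w ^ M * (1 / 2) := mul_le_mul_of_nonneg_left h1 (pow_nonneg h0 M)
      have h5 : 0 ≤ w ^ M := pow_nonneg h0 M
      nlinarith
  exact (h2 M).trans (by have := pow_nonneg h0 M; linarith)

lemma geom1_le (w : ℝ) (h0 : 0 ≤ w) (h1 : w ≤ 1 / 4) (M : ℕ) :
    ∑ a ∈ Ico 1 M, w ^ a ≤ 1 / 2 := by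
  rcases Nat.eq_zero_or_pos M with rfl | hM
  · simp
  · have e : ∑ a ∈ Ico 1 M, w ^ a = w * ∑ j ∈ range (M - 1), w ^ j := by
      rw [Finset.sum_Ico_eq_sum_range, Finset.mul_sum]
      refine Finset.sum_congr rfl fun j _ => ?_
      rw [pow_add, pow_one]
    rw [e]
    have := geom_le w h0 (by linarith) (M - 1)
    have h3 : 0 ≤ ∑ j ∈ range (M - 1), w ^ j := Finset.sum_nonneg fun _ _ => pow_nonneg h0 _
    nlinarith

lemma sum_biUnion_le {ι κ : Type*} [DecidableEq κ] (U : Finset ι) (T : ι → Finset κ)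
    (φ : κ → ℝ) (h : ∀ x, 0 ≤ φ x) : ∑ x ∈ U.biUnion T, φ x ≤ ∑ p ∈ U, ∑ x ∈ T p, φ x := by
  classical
  induction U using Finset.induction_on with
  | empty => simp
  | insert p U hp ih =>
    rw [Finset.biUnion_insert, Finset.sum_insert hp]
    have := Finset.sum_union_inter (s₁ := T p) (s₂ := U.biUnion T) (f := φ)
    have h2 : 0 ≤ ∑ x ∈ T p ∩ U.biUnion T, φ x := Finset.sum_nonneg fun x _ => h x
    linarith

open Classical in
lemma profile_sum (w : ℝ) (h0 : 0 ≤ w) (h1 : w ≤ 1 / 4) (A M : ℕ) :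
    ∑ α ∈ (Fintype.piFinset (fun _ : Fin A => range M)).filter IZ, w ^ (∑ i, α i) ≤ 4 := by
  let T : ℕ × ℕ → Fin A → Finset ℕ := fun p i =>
    if p.1 ≤ (i : ℕ) ∧ (i : ℕ) ≤ p.2 then {0} else Ico 1 M
  let U : Finset (ℕ × ℕ) := (range A ×ˢ range A).filter (fun p => p.1 ≤ p.2)
  have hsub : (Fintype.piFinset (fun _ : Fin A => range M)).filter IZ ⊆
      U.biUnion (fun p => Fintype.piFinset (T p)) := by
    intro α hα
    simp only [Finset.mem_filter, Fintype.mem_piFinset, Finset.mem_range] at hα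
    obtain ⟨hM, s, t, hst, htA, h⟩ := hα
    refine Finset.mem_biUnion.2 ⟨(s, t), ?_, ?_⟩
    · simp only [U, Finset.mem_filter, Finset.mem_product, Finset.mem_range]
      omega
    · rw [Fintype.mem_piFinset]
      intro i
      simp only [T]
      split_ifs with hc
      · simp [(h i).2 hc]
      · rw [Finset.mem_Ico]
        have := mt (h i).1 hc
        exact ⟨Nat.one_le_iff_ne_zero.2 this, hM i⟩
  have hpos : ∀ α : Fin A → ℕ, 0 ≤ w ^ (∑ i, α i) := fun α => pow_nonneg h0 _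
  calc ∑ α ∈ (Fintype.piFinset (fun _ : Fin A => range M)).filter IZ, w ^ (∑ i, α i)
      ≤ ∑ α ∈ U.biUnion (fun p => Fintype.piFinset (T p)), w ^ (∑ i, α i) :=
        Finset.sum_le_sum_of_subset_of_nonneg hsub (fun α _ _ => hpos α)
    _ ≤ ∑ p ∈ U, ∑ α ∈ Fintype.piFinset (T p), w ^ (∑ i, α i) :=
        sum_biUnion_le U _ _ hpos
    _ ≤ ∑ p ∈ U, (1 / 2) ^ p.1 * (1 / 2) ^ (A - 1 - p.2) := by
        apply Finset.sum_le_sum
        intro p hp
        simp only [U, Finset.mem_filter, Finset.mem_product, Finset.mem_range] at hp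
        have e1 : ∑ α ∈ Fintype.piFinset (T p), w ^ (∑ i, α i) =
            ∏ i : Fin A, ∑ a ∈ T p i, w ^ a := by
          rw [Finset.prod_univ_sum]
          refine Finset.sum_congr rfl fun α _ => ?_
          rw [Finset.prod_pow_eq_pow_sum]
        rw [e1]
        have e2 : ∏ i : Fin A, ∑ a ∈ T p i, w ^ a ≤
            ∏ i : Fin A, ((if (i : ℕ) < p.1 then (1 / 2 : ℝ) else 1) *
              (if p.2 < (i : ℕ) then (1 / 2 : ℝ) else 1)) := by
          apply Finset.prod_le_prod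
          · intro i _
            exact Finset.sum_nonneg fun _ _ => pow_nonneg h0 _
          · intro i _
            simp only [T]
            split_ifs with c1 c2 c3 c4 c5 c6 c7
            all_goals first
              | (exfalso; omega)
              | (simp; done)
              | (have := geom1_le w h0 h1 M; linarith)
        refine e2.trans ?_
        rw [Finset.prod_mul_distrib]
        apply le_of_eq
        congr 1
        · rw [Finset.prod_range (fun i => if i < p.1 then (1 / 2 : ℝ) else 1) |>.symm,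
            Finset.prod_ite, Finset.prod_const, Finset.prod_const_one, mul_one]
          congr 1
          have : (range A).filter (fun i => i < p.1) = range p.1 := by
            ext i; simp only [Finset.mem_filter, Finset.mem_range]; omega
          rw [this, Finset.card_range]
        · rw [Finset.prod_range (fun i => if p.2 < i then (1 / 2 : ℝ) else 1) |>.symm,
            Finset.prod_ite, Finset.prod_const, Finset.prod_const_one, mul_one]
          congr 1
          have : (range A).filter (fun i => p.2 < i) = Ico (p.2 + 1) A := by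
            ext i; simp only [Finset.mem_filter, Finset.mem_range, Finset.mem_Ico]; omega
          rw [this, Nat.card_Ico]
          omega
    _ ≤ ∑ p ∈ range A ×ˢ range A, (1 / 2 : ℝ) ^ p.1 * (1 / 2) ^ (A - 1 - p.2) := by
        apply Finset.sum_le_sum_of_subset_of_nonneg (Finset.filter_subset _ _)
        intro p _ _
        positivity
    _ = (∑ s ∈ range A, (1 / 2 : ℝ) ^ s) * ∑ t ∈ range A, (1 / 2 : ℝ) ^ (A - 1 - t) := by
        rw [Finset.sum_product, Finset.sum_mul_sum]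
    _ ≤ 2 * 2 := by
        have g1 := geom_le (1 / 2) (by norm_num) le_rfl A
        have g2 : ∑ t ∈ range A, (1 / 2 : ℝ) ^ (A - 1 - t) ≤ 2 := by
          rw [Finset.sum_range_reflect (fun j => (1 / 2 : ℝ) ^ j) A]
          exact g1
        have g3 : 0 ≤ ∑ s ∈ range A, (1 / 2 : ℝ) ^ s := Finset.sum_nonneg fun _ _ => by positivity
        have g4 : 0 ≤ ∑ t ∈ range A, (1 / 2 : ℝ) ^ (A - 1 - t) :=
          Finset.sum_nonneg fun _ _ => by positivity
        exact mul_le_mul g1 g2 g4 (by norm_num)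
    _ = 4 := by norm_num

/-! ### the partition function -/

section

variable {n : ℕ} [NeZero n]

/-- `f` has the bounding box `[0, A] × [y0, y0 + B]` -/
structure Box (f : ZMod n → ℤ × ℤ) (A B : ℕ) (y0 : ℤ) : Prop where
  hx : ∀ k, 0 ≤ (f k).1 ∧ (f k).1 ≤ (A : ℤ)
  hy : ∀ k, y0 ≤ (f k).2 ∧ (f k).2 ≤ y0 + B
  hx0 : ∃ k, (f k).1 = 0
  hx1 : ∃ k, (f k).1 = (A : ℤ)
  hy0 : ∃ k, (f k).2 = y0
  hy1 : ∃ k, (f k).2 = y0 + B

/-- all the conditions on the walk -/
structure Good (f : ZMod n → ℤ × ℤ) : Prop where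
  f0 : f 0 = (0, 0)
  f1 : f 1 = (1, 0)
  inj : Function.Injective f
  step : Step f
  lex : ∀ i, 0 < (f i).1 ∨ ((f i).1 = 0 ∧ 0 ≤ (f i).2)

lemma Good.exists_box {f : ZMod n → ℤ × ℤ} (h : Good f) :
    ∃ A B : ℕ, ∃ y0 : ℤ, 1 ≤ A ∧ Box f A B y0 := by
  obtain ⟨k1, hk1⟩ := Finite.exists_max (fun k => (f k).1)
  obtain ⟨l0, hl0⟩ := Finite.exists_min (fun k => (f k).2)
  obtain ⟨l1, hl1⟩ := Finite.exists_max (fun k => (f k).2)
  have e1 := hk1 1
  rw [h.f1] at e1
  simp only at e1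
  have e2 := hl0 l1
  refine ⟨(f k1).1.toNat, ((f l1).2 - (f l0).2).toNat, (f l0).2, by omega, ?_, ?_, ?_, ?_, ?_, ?_⟩
  · intro k
    have := hk1 k
    have := h.lex k
    omega
  · intro k
    have := hl0 k
    have := hl1 k
    omega
  · exact ⟨0, by rw [h.f0]⟩
  · exact ⟨k1, by omega⟩
  · exact ⟨l0, rfl⟩
  · exact ⟨l1, by omega⟩

lemma FA_bound (h3 : 3 ≤ n) {A B : ℕ} (hA : 1 ≤ A) (hn : 2 * A + 2 * B = n) {q : ℝ} (hq : 4 ≤ q)
    (F : Finset (ZMod n → ℤ × ℤ)) (hF : ∀ f ∈ F, Good f ∧ ∃ y0, Box f A B y0) :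
    ∑ f ∈ F, q ^ area f ≤ 16 * q ^ (A * B) := by
  classical
  have hst : ∀ f ∈ F, ∃ α β : Fin A → ℕ, IZ α ∧ IZ β ∧ area f + ∑ i, α i + ∑ i, β i = A * B ∧
      ∀ a b, Encl f (a, b) ↔ ∃ i : Fin A, a = ((i : ℕ) : ℤ) ∧
        (β i : ℤ) - β ⟨0, hA⟩ ≤ b ∧ b < (B : ℤ) - β ⟨0, hA⟩ - α i := by
    intro f hf
    obtain ⟨hg, y0, hb⟩ := hF f hf
    exact structure_of hg.step hg.inj h3 hb.hx hb.hy hb.hx0 hb.hx1 hb.hy0 hb.hy1 hn hA hg.f0 hg.f1
      hg.lex
  choose! α β h1 h2 h3' h4 using hst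
  have hq0 : 0 < q := by linarith
  set w : ℝ := q⁻¹ with hw
  have hw0 : 0 ≤ w := inv_nonneg.2 hq0.le
  have hw1 : w ≤ 1 / 4 := by
    rw [hw, inv_eq_one_div]
    exact one_div_le_one_div_of_le (by norm_num) hq
  have hqw : q * w = 1 := mul_inv_cancel₀ hq0.ne'
  have hterm : ∀ f ∈ F, q ^ area f = q ^ (A * B) * (w ^ (∑ i, α f i) * w ^ (∑ i, β f i)) := by
    intro f hf
    rw [← h3' f hf, pow_add, pow_add]
    have e1 : q ^ (∑ i, α f i) * w ^ (∑ i, α f i) = 1 := by rw [← mul_pow, hqw, one_pow]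
    have e2 : q ^ (∑ i, β f i) * w ^ (∑ i, β f i) = 1 := by rw [← mul_pow, hqw, one_pow]
    calc q ^ area f = q ^ area f * (q ^ (∑ i, α f i) * w ^ (∑ i, α f i)) *
          (q ^ (∑ i, β f i) * w ^ (∑ i, β f i)) := by rw [e1, e2]; ring
      _ = _ := by ring
  rw [Finset.sum_congr rfl hterm, ← Finset.mul_sum]
  have hinj : Set.InjOn (fun f => (α f, β f)) (F : Set (ZMod n → ℤ × ℤ)) := by
    intro f hf g hg h
    simp only [Prod.mk.injEq] at h
    apply encl_unique (hF f hf).1.step (hF f hf).1.inj (hF g hg).1.step (hF g hg).1.inj h3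
    · rintro ⟨a, b⟩
      rw [h4 f hf, h4 g hg, h.1, h.2]
    · rw [(hF f hf).1.f0, (hF g hg).1.f0]
    · rw [(hF f hf).1.f1, (hF g hg).1.f1]
  set G := (Fintype.piFinset (fun _ : Fin A => range (A * B + 1))).filter IZ with hG
  have hmem : ∀ f ∈ F, (α f, β f) ∈ G ×ˢ G := by
    intro f hf
    have e := h3' f hf
    rw [Finset.mem_product]
    constructor
    · rw [hG, Finset.mem_filter, Fintype.mem_piFinset]
      refine ⟨fun i => Finset.mem_range.2 ?_, h1 f hf⟩
      have : α f i ≤ ∑ i, α f i := Finset.single_le_sum (fun _ _ => Nat.zero_le _) (mem_univ i)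
      show α f i < A * B + 1
      omega
    · rw [hG, Finset.mem_filter, Fintype.mem_piFinset]
      refine ⟨fun i => Finset.mem_range.2 ?_, h2 f hf⟩
      have : β f i ≤ ∑ i, β f i := Finset.single_le_sum (fun _ _ => Nat.zero_le _) (mem_univ i)
      show β f i < A * B + 1
      omega
  have hsum : ∑ f ∈ F, w ^ (∑ i, α f i) * w ^ (∑ i, β f i) ≤ 16 := by
    calc ∑ f ∈ F, w ^ (∑ i, α f i) * w ^ (∑ i, β f i)
        = ∑ p ∈ F.image (fun f => (α f, β f)), w ^ (∑ i, p.1 i) * w ^ (∑ i, p.2 i) := by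
          rw [Finset.sum_image hinj]
      _ ≤ ∑ p ∈ G ×ˢ G, w ^ (∑ i, p.1 i) * w ^ (∑ i, p.2 i) := by
          apply Finset.sum_le_sum_of_subset_of_nonneg
          · intro p hp
            obtain ⟨f, hf, rfl⟩ := Finset.mem_image.1 hp
            exact hmem f hf
          · intro p _ _
            exact mul_nonneg (pow_nonneg hw0 _) (pow_nonneg hw0 _)
      _ = (∑ a ∈ G, w ^ (∑ i, a i)) * ∑ a ∈ G, w ^ (∑ i, a i) := by
          rw [Finset.sum_product, Finset.sum_mul_sum]
      _ ≤ 4 * 4 := by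
          have hp := profile_sum w hw0 hw1 A (A * B + 1)
          have hp' : ∑ a ∈ G, w ^ (∑ i, a i) ≤ 4 := by
            rw [hG]
            convert hp
          exact mul_le_mul hp' hp' (Finset.sum_nonneg fun _ _ => pow_nonneg hw0 _) (by norm_num)
      _ = 16 := by norm_num
  have hqp : 0 ≤ q ^ (A * B) := pow_nonneg hq0.le _
  nlinarith

end

/-- the sum over the possible widths -/
lemma width_sum (k : ℕ) {q : ℝ} (hq : 4 ≤ q) :
    ∑ A ∈ range (2 * k + 1), q ^ (A * (2 * k - A)) ≤ 4 * q ^ (k ^ 2) := by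
  have hq0 : 0 < q := by linarith
  have hq1 : 1 ≤ q := by linarith
  have hhalf : ∀ j : ℕ, 1 ≤ (1 / 2 : ℝ) ^ j * q ^ j := by
    intro j
    rw [← mul_pow]
    exact one_le_pow₀ (by linarith)
  have hterm : ∀ A ∈ range (2 * k + 1), q ^ (A * (2 * k - A)) ≤
      q ^ (k ^ 2) * ((if A ≤ k then (1 / 2 : ℝ) ^ (k - A) else 0) +
        (if k ≤ A then (1 / 2 : ℝ) ^ (A - k) else 0)) := by
    intro A hA
    rw [Finset.mem_range] at hA
    rcases le_total A k with h | h
    · rw [if_pos h]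
      have h2 : 0 ≤ (if k ≤ A then (1 / 2 : ℝ) ^ (A - k) else 0) := by
        split_ifs <;> positivity
      have e : A * (2 * k - A) + (k - A) ≤ k ^ 2 := by
        obtain ⟨d, rfl⟩ := Nat.exists_eq_add_of_le h
        have e1 : 2 * (A + d) - A = A + 2 * d := by omega
        have e2 : A + d - A = d := by omega
        rw [e1, e2]
        nlinarith [Nat.le_mul_self d]
      have h3 : q ^ (A * (2 * k - A)) * q ^ (k - A) ≤ q ^ (k ^ 2) := by
        rw [← pow_add]
        exact pow_le_pow_right₀ hq1 e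
      have h4 := hhalf (k - A)
      have h5 : 0 ≤ q ^ (A * (2 * k - A)) := pow_nonneg hq0.le _
      have h6 : 0 ≤ (1 / 2 : ℝ) ^ (k - A) := by positivity
      have h7 : 0 ≤ q ^ (k ^ 2) := pow_nonneg hq0.le _
      calc q ^ (A * (2 * k - A)) ≤ q ^ (A * (2 * k - A)) * ((1 / 2) ^ (k - A) * q ^ (k - A)) :=
            le_mul_of_one_le_right h5 h4
        _ = (q ^ (A * (2 * k - A)) * q ^ (k - A)) * (1 / 2) ^ (k - A) := by ring
        _ ≤ q ^ (k ^ 2) * (1 / 2) ^ (k - A) := mul_le_mul_of_nonneg_right h3 h6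
        _ ≤ _ := mul_le_mul_of_nonneg_left (by linarith) h7
    · rw [if_pos h]
      have h2 : 0 ≤ (if A ≤ k then (1 / 2 : ℝ) ^ (k - A) else 0) := by
        split_ifs <;> positivity
      have e : A * (2 * k - A) + (A - k) ≤ k ^ 2 := by
        obtain ⟨d, rfl⟩ := Nat.exists_eq_add_of_le h
        have hd : d ≤ k := by omega
        obtain ⟨c, rfl⟩ := Nat.exists_eq_add_of_le hd
        have e1 : 2 * (d + c) - (d + c + d) = c := by omega
        have e2 : d + c + d - (d + c) = d := by omega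
        rw [e1, e2]
        nlinarith [Nat.le_mul_self d]
      have h3 : q ^ (A * (2 * k - A)) * q ^ (A - k) ≤ q ^ (k ^ 2) := by
        rw [← pow_add]
        exact pow_le_pow_right₀ hq1 e
      have h4 := hhalf (A - k)
      have h5 : 0 ≤ q ^ (A * (2 * k - A)) := pow_nonneg hq0.le _
      have h6 : 0 ≤ (1 / 2 : ℝ) ^ (A - k) := by positivity
      have h7 : 0 ≤ q ^ (k ^ 2) := pow_nonneg hq0.le _
      calc q ^ (A * (2 * k - A)) ≤ q ^ (A * (2 * k - A)) * ((1 / 2) ^ (A - k) * q ^ (A - k)) :=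
            le_mul_of_one_le_right h5 h4
        _ = (q ^ (A * (2 * k - A)) * q ^ (A - k)) * (1 / 2) ^ (A - k) := by ring
        _ ≤ q ^ (k ^ 2) * (1 / 2) ^ (A - k) := mul_le_mul_of_nonneg_right h3 h6
        _ ≤ _ := mul_le_mul_of_nonneg_left (by linarith) h7
  refine (Finset.sum_le_sum hterm).trans ?_
  rw [← Finset.mul_sum, Finset.sum_add_distrib]
  have s1 : ∑ A ∈ range (2 * k + 1), (if A ≤ k then (1 / 2 : ℝ) ^ (k - A) else 0) ≤ 2 := by
    rw [← Finset.sum_filter]
    have : (range (2 * k + 1)).filter (fun A => A ≤ k) = range (k + 1) := by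
      ext i; simp only [Finset.mem_filter, Finset.mem_range]; omega
    rw [this]
    have e := Finset.sum_range_reflect (fun j => (1 / 2 : ℝ) ^ j) (k + 1)
    simp only [Nat.add_sub_cancel] at e
    rw [e]
    exact geom_le (1 / 2) (by norm_num) le_rfl _
  have s2 : ∑ A ∈ range (2 * k + 1), (if k ≤ A then (1 / 2 : ℝ) ^ (A - k) else 0) ≤ 2 := by
    rw [← Finset.sum_filter]
    have : (range (2 * k + 1)).filter (fun A => k ≤ A) = Ico k (2 * k + 1) := by
      ext i; simp only [Finset.mem_filter, Finset.mem_range, Finset.mem_Ico]; omega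
    rw [this, Finset.sum_Ico_eq_sum_range]
    refine le_trans (le_of_eq ?_) (geom_le (1 / 2) (by norm_num) le_rfl (2 * k + 1 - k))
    refine Finset.sum_congr rfl fun j _ => ?_
    rw [Nat.add_sub_cancel_left]
  have h7 : 0 ≤ q ^ (k ^ 2) := pow_nonneg hq0.le _
  nlinarith

end H404SAP
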