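import Pool.Agent.H404R3.PolySum

/-!
# Upper bound for the partition function at half-perimeter `2 k`, and the square
-/

namespace H404SAP

open Finset

set_option linter.unusedSectionVars false

lemma Good.area_le' {k : ℕ} (hk : 1 ≤ k) [NeZero (2 * (2 * k))]
    {f : ZMod (2 * (2 * k)) → ℤ × ℤ} (h : Good f) : area f ≤ k ^ 2 := by
  obtain ⟨A, B, y0, hA, hb⟩ := h.exists_box
  have h1 := area_le h.step hb.hx hb.hy
  have h2 := (two_mul_le h.step hb.hx hb.hy hb.hx0 hb.hx1 hb.hy0 hb.hy1).1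
  have h3 : A + B ≤ 2 * k := by omega
  have h4 : A * B ≤ k ^ 2 := by
    have : 4 * (A * B) ≤ (A + B) ^ 2 := by
      zify; nlinarith [sq_nonneg ((A : ℤ) - B)]
    nlinarith
  omega

lemma Z_bound {k : ℕ} (hk : 1 ≤ k) [NeZero (2 * (2 * k))] {q : ℝ} (hq : 256 ≤ q)
    (S : Finset (ZMod (2 * (2 * k)) → ℤ × ℤ)) (hS : ∀ f ∈ S, Good f) :
    ∑ f ∈ S, q ^ area f ≤ 65 * q ^ (k ^ 2) := by
  classical
  have hq0 : 0 < q := by linarith
  have hq1 : 1 ≤ q := by linarith
  have h3 : 3 ≤ 2 * (2 * k) := by omega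
  let FA : ℕ → Finset (ZMod (2 * (2 * k)) → ℤ × ℤ) := fun A =>
    S.filter (fun f => 1 ≤ A ∧ A ≤ 2 * k ∧ ∃ y0, Box f A (2 * k - A) y0)
  let S1 := (range (2 * k + 1)).biUnion FA
  have hpos : ∀ f : ZMod (2 * (2 * k)) → ℤ × ℤ, 0 ≤ q ^ area f := fun f => pow_nonneg hq0.le _
  have hS1 : ∑ f ∈ S1, q ^ area f ≤ 64 * q ^ (k ^ 2) := by
    calc ∑ f ∈ S1, q ^ area f ≤ ∑ A ∈ range (2 * k + 1), ∑ f ∈ FA A, q ^ area f :=
          sum_biUnion_le _ _ _ hpos
      _ ≤ ∑ A ∈ range (2 * k + 1), 16 * q ^ (A * (2 * k - A)) := by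
          apply Finset.sum_le_sum
          intro A hA
          by_cases hne : (FA A).Nonempty
          · obtain ⟨f, hf⟩ := hne
            have hf2 := (Finset.mem_filter.1 hf).2
            apply FA_bound h3 hf2.1 (B := 2 * k - A) (by have := hf2.2.1; omega) (by linarith)
            intro g hg
            have hg2 := Finset.mem_filter.1 hg
            exact ⟨hS g hg2.1, hg2.2.2.2⟩
          · rw [Finset.not_nonempty_iff_eq_empty] at hne
            rw [hne, Finset.sum_empty]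
            positivity
      _ = 16 * ∑ A ∈ range (2 * k + 1), q ^ (A * (2 * k - A)) := by rw [Finset.mul_sum]
      _ ≤ 16 * (4 * q ^ (k ^ 2)) := by
          have := width_sum k (q := q) (by linarith)
          linarith
      _ = 64 * q ^ (k ^ 2) := by ring
  have hS2 : ∑ f ∈ S \ S1, q ^ area f ≤ q ^ (k ^ 2) := by
    have ha : ∀ f ∈ S \ S1, q ^ area f ≤ q ^ (k ^ 2 - k) := by
      intro f hf
      rw [Finset.mem_sdiff] at hf
      obtain ⟨A, B, y0, hA, hb⟩ := (hS f hf.1).exists_box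
      have h1 := area_le (hS f hf.1).step hb.hx hb.hy
      have h2 := (two_mul_le (hS f hf.1).step hb.hx hb.hy hb.hx0 hb.hx1 hb.hy0 hb.hy1).1
      have h4 : A + B ≠ 2 * k := by
        intro he
        apply hf.2
        refine Finset.mem_biUnion.2 ⟨A, Finset.mem_range.2 (by omega), ?_⟩
        refine Finset.mem_filter.2 ⟨hf.1, hA, by omega, y0, ?_⟩
        have : 2 * k - A = B := by omega
        rw [this]
        exact hb
      have h5 : A + B ≤ 2 * k - 1 := by omega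
      apply pow_le_pow_right₀ hq1
      refine h1.trans ?_
      obtain ⟨c, rfl⟩ : ∃ c, k = c + 1 := ⟨k - 1, by omega⟩
      have h6 : A + B ≤ 2 * c + 1 := by omega
      have h7 : (c + 1) ^ 2 - (c + 1) = c * (c + 1) := by
        have : (c + 1) ^ 2 = c * (c + 1) + (c + 1) := by ring
        omega
      rw [h7]
      have h8 : 4 * (A * B) ≤ (A + B) ^ 2 := by
        zify; nlinarith [sq_nonneg ((A : ℤ) - B)]
      have h9 : (A + B) ^ 2 ≤ (2 * c + 1) ^ 2 := Nat.pow_le_pow_left h6 2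
      have h10 : (2 * c + 1) ^ 2 = 4 * (c * (c + 1)) + 1 := by ring
      omega
    have hcard : (((S \ S1).card : ℕ) : ℝ) ≤ 256 ^ k := by
      have h1 : (S \ S1).card ≤ 4 ^ (2 * (2 * k)) := by
        apply card_loops
        intro f hf
        have := hS f (Finset.mem_sdiff.1 hf).1
        exact ⟨this.step, this.f0⟩
      have h2 : (4 : ℕ) ^ (2 * (2 * k)) = 256 ^ k := by
        rw [← mul_assoc, pow_mul]; norm_num
      rw [h2] at h1
      exact_mod_cast h1
    calc ∑ f ∈ S \ S1, q ^ area f ≤ ∑ _f ∈ S \ S1, q ^ (k ^ 2 - k) := Finset.sum_le_sum ha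
      _ = ((S \ S1).card : ℝ) * q ^ (k ^ 2 - k) := by rw [Finset.sum_const, nsmul_eq_mul]
      _ ≤ 256 ^ k * q ^ (k ^ 2 - k) := mul_le_mul_of_nonneg_right hcard (pow_nonneg hq0.le _)
      _ ≤ q ^ k * q ^ (k ^ 2 - k) := by
          apply mul_le_mul_of_nonneg_right _ (pow_nonneg hq0.le _)
          exact pow_le_pow_left₀ (by norm_num) hq k
      _ = q ^ (k ^ 2) := by
          rw [← pow_add]
          congr 1
          have : k ≤ k ^ 2 := by nlinarith
          omega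
  calc ∑ f ∈ S, q ^ area f ≤ ∑ f ∈ S1 ∪ S \ S1, q ^ area f := by
        apply Finset.sum_le_sum_of_subset_of_nonneg
        · intro f hf
          rw [Finset.mem_union, Finset.mem_sdiff]
          tauto
        · intro f _ _
          exact hpos f
    _ ≤ ∑ f ∈ S1, q ^ area f + ∑ f ∈ S \ S1, q ^ area f := by
        have := Finset.sum_union_inter (s₁ := S1) (s₂ := S \ S1) (f := fun f => q ^ area f)
        have h2 : 0 ≤ ∑ x ∈ S1 ∩ (S \ S1), q ^ area x := Finset.sum_nonneg fun x _ => hpos x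
        linarith
    _ ≤ 65 * q ^ (k ^ 2) := by linarith

/-! ### the square -/

/-- the boundary of the `k × k` square -/
def sq (k : ℕ) (j : ZMod (2 * (2 * k))) : ℤ × ℤ :=
  if (j.val : ℤ) ≤ k then ((j.val : ℤ), 0) else
  if (j.val : ℤ) ≤ 2 * k then ((k : ℤ), (j.val : ℤ) - k) else
  if (j.val : ℤ) ≤ 3 * k then (3 * (k : ℤ) - j.val, (k : ℤ)) else
  (0, 4 * (k : ℤ) - j.val)

section

variable {k : ℕ}

lemma sq_cases (j : ZMod (2 * (2 * k))) :
    ((j.val : ℤ) ≤ k ∧ (sq k j).1 = j.val ∧ (sq k j).2 = 0) ∨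
    ((k : ℤ) < j.val ∧ (j.val : ℤ) ≤ 2 * k ∧ (sq k j).1 = k ∧ (sq k j).2 = j.val - k) ∨
    (2 * (k : ℤ) < j.val ∧ (j.val : ℤ) ≤ 3 * k ∧ (sq k j).1 = 3 * k - j.val ∧ (sq k j).2 = k) ∨
    (3 * (k : ℤ) < j.val ∧ (sq k j).1 = 0 ∧ (sq k j).2 = 4 * k - j.val) := by
  unfold sq
  split_ifs with h1 h2 h3
  · exact Or.inl ⟨h1, rfl, rfl⟩
  · exact Or.inr (Or.inl ⟨by omega, h2, rfl, rfl⟩)
  · exact Or.inr (Or.inr (Or.inl ⟨by omega, h3, rfl, rfl⟩))
  · exact Or.inr (Or.inr (Or.inr ⟨by omega, rfl, rfl⟩))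

lemma val_succ (hk : 1 ≤ k) (j : ZMod (2 * (2 * k))) :
    ((j + 1).val = j.val + 1 ∧ j.val + 1 < 4 * k) ∨ ((j + 1).val = 0 ∧ j.val + 1 = 4 * k) := by
  haveI : NeZero (2 * (2 * k)) := ⟨by omega⟩
  have h1 : (1 : ZMod (2 * (2 * k))).val = 1 := by
    rw [ZMod.val_one_eq_one_mod, Nat.mod_eq_of_lt (by omega)]
  have h2 := ZMod.val_lt j
  rw [ZMod.val_add, h1]
  rcases Nat.lt_or_ge (j.val + 1) (2 * (2 * k)) with h | h
  · left
    rw [Nat.mod_eq_of_lt h]
    omega
  · right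
    have h5 : j.val + 1 = 2 * (2 * k) := by omega
    rw [h5, Nat.mod_self]
    omega

lemma sq_good (hk : 1 ≤ k) [NeZero (2 * (2 * k))] : Good (sq k) := by
  refine ⟨?_, ?_, ?_, ?_, ?_⟩
  · unfold sq
    rw [ZMod.val_zero, if_pos (by simp)]
    rfl
  · have h1 : (1 : ZMod (2 * (2 * k))).val = 1 := by
      rw [ZMod.val_one_eq_one_mod, Nat.mod_eq_of_lt (by omega)]
    unfold sq
    rw [h1, if_pos (by exact_mod_cast hk)]
    rfl
  · intro i j h
    apply ZMod.val_injective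
    have hi := sq_cases i
    have hj := sq_cases j
    have li := ZMod.val_lt i
    have lj := ZMod.val_lt j
    rw [h] at hi
    omega
  · intro j
    have h0 := sq_cases j
    have h1 := sq_cases (j + 1)
    have h2 := val_succ hk j
    have e : ((sq k (j + 1)).1 = (sq k j).1 + 1 ∧ (sq k (j + 1)).2 = (sq k j).2) ∨
      ((sq k (j + 1)).1 = (sq k j).1 - 1 ∧ (sq k (j + 1)).2 = (sq k j).2) ∨
      ((sq k (j + 1)).1 = (sq k j).1 ∧ (sq k (j + 1)).2 = (sq k j).2 + 1) ∨
      ((sq k (j + 1)).1 = (sq k j).1 ∧ (sq k (j + 1)).2 = (sq k j).2 - 1) := by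
      omega
    rcases e with ⟨e1, e2⟩ | ⟨e1, e2⟩ | ⟨e1, e2⟩ | ⟨e1, e2⟩ <;> rw [e1, e2] <;> simp
  · intro j
    have h0 := sq_cases j
    have lj := ZMod.val_lt j
    omega

lemma sq_encl (hk : 1 ≤ k) [NeZero (2 * (2 * k))] {a b : ℤ} (ha : 0 ≤ a) (ha' : a < k)
    (hb : 0 ≤ b) (hb' : b < k) : Encl (sq k) (a, b) := by
  classical
  rw [encl_iff_above]
  have : cnt (fun j => Hor (sq k) a j ∧ b < (sq k j).2) = 1 := by
    unfold cnt
    rw [Finset.card_eq_one]
    refine ⟨((3 * k - 1 - a.toNat : ℕ) : ZMod (2 * (2 * k))), ?_⟩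
    have hv : ((3 * k - 1 - a.toNat : ℕ) : ZMod (2 * (2 * k))).val = 3 * k - 1 - a.toNat := by
      rw [ZMod.val_natCast, Nat.mod_eq_of_lt (by omega)]
    ext j
    simp only [Finset.mem_filter, Finset.mem_univ, true_and, Finset.mem_singleton]
    have h0 := sq_cases j
    have h1 := sq_cases (j + 1)
    have h2 := val_succ hk j
    constructor
    · rintro ⟨h3, h4⟩
      apply ZMod.val_injective
      rw [hv]
      unfold Hor at h3
      omega
    · intro h3
      have h4 : j.val = 3 * k - 1 - a.toNat := by rw [h3, hv]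
      unfold Hor
      omega
  rw [this]
  decide

lemma sq_area (hk : 1 ≤ k) [NeZero (2 * (2 * k))] : area (sq k) = k ^ 2 := by
  have hx : ∀ j, 0 ≤ (sq k j).1 ∧ (sq k j).1 ≤ (k : ℤ) := by
    intro j
    have h0 := sq_cases j
    have lj := ZMod.val_lt j
    omega
  have hy : ∀ j, (0 : ℤ) ≤ (sq k j).2 ∧ (sq k j).2 ≤ (k : ℤ) := by
    intro j
    have h0 := sq_cases j
    have lj := ZMod.val_lt j
    omega
  have hs := (sq_good (k := k) hk).step
  rw [area_sigma hs hx hy]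
  have : ∀ i : Fin k, Nat.card {b : ℤ // Encl (sq k) (((i : ℕ) : ℤ), b)} = k := by
    intro i
    have hi := i.2
    rw [Nat.card_congr (Equiv.subtypeEquivRight (q := fun b => b ∈ Finset.Ico (0 : ℤ) k)
      (fun b => ?_))]
    · rw [Nat.card_eq_fintype_card, Fintype.card_coe, Int.card_Ico]
      omega
    · rw [Finset.mem_Ico]
      constructor
      · intro h
        exact (encl_box hs hx hy h).2.2
      · rintro ⟨h1, h2⟩
        exact sq_encl hk (by omega) (by omega) h1 h2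
  rw [Finset.sum_congr rfl (fun i _ => this i)]
  simp [sq]
  ring

end

end H404SAP
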